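import Pool.Agent.Helper87.NA.St
import Pool.Agent.Helper65.PT.Cam
import Pool.Agent.Helper65.PT.Ous
import Pool.Agent.Helper65.PT.Oub

set_option autoImplicit false

open MeasureTheory ProbabilityTheory Pool.H65.PS Pool.H65.PT Pool.TC

namespace Pool.H87.NA

theorem A1_lk_pos (w : ℝ) (a x : Fin 2 → ℝ) : 0 < lk w a x := Real.exp_pos _

/-- the density in the variable `z`. -/
theorem A1_lk (w : ℝ) (hw : 0 < w) (a z : Fin 2 → ℝ) :
    lk w a (w • z) = Real.exp (dot (w⁻¹ • a) z - dot (w⁻¹ • a) (w⁻¹ • a) / 2) := by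
  unfold lk dot
  congr 1
  simp only [Fin.sum_univ_two, Pi.smul_apply, smul_eq_mul]
  field_simp

/-- Cameron-Martin for the shifted Gaussian. -/
theorem A1_cm (w : ℝ) (hw : 0 < w) (a : Fin 2 → ℝ) (u : (Fin 2 → ℝ) → ℝ) (hu : Measurable u) :
    ∫ z, u (a + w • z) ∂(gam (Fin 2)) = ∫ z, lk w a (w • z) * u (w • z) ∂(gam (Fin 2)) := by
  have h := cameron_martin (w⁻¹ • a) (fun z => u (w • z)) (hu.comp (measurable_const_smul w))
  have e1 : ∀ z : Fin 2 → ℝ, u (a + w • z) = u (w • (z + w⁻¹ • a)) := by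
    intro z
    rw [smul_add, smul_smul, mul_inv_cancel₀ hw.ne', one_smul, add_comm]
  simp only [e1]
  rw [h]
  simp only [A1_lk w hw]

theorem A1_int_lk (w : ℝ) (hw : 0 < w) (a : Fin 2 → ℝ) :
    Integrable (fun z => lk w a (w • z)) (gam (Fin 2)) := by
  have h := gam_map_add (κ := Fin 2) (w⁻¹ • a)
  have h1 : IsProbabilityMeasure ((gam (Fin 2)).map (fun x => x + w⁻¹ • a)) :=
    Measure.isProbabilityMeasure_map (by fun_prop)
  rw [h] at h1
  have h2 : ∫⁻ z, ENNReal.ofReal (lk w a (w • z)) ∂(gam (Fin 2)) = 1 := by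
    have := h1.measure_univ
    rw [withDensity_apply _ MeasurableSet.univ, Measure.restrict_univ] at this
    rw [← this]
    refine lintegral_congr fun z => ?_
    rw [A1_lk w hw]
  have hm : Measurable (fun z : Fin 2 → ℝ => lk w a (w • z)) := by
    unfold lk dot
    fun_prop
  refine ⟨hm.aestronglyMeasurable, ?_⟩
  have hnn : 0 ≤ᵐ[gam (Fin 2)] fun z : Fin 2 → ℝ => lk w a (w • z) :=
    Filter.Eventually.of_forall fun z => (A1_lk_pos w a _).le
  rw [hasFiniteIntegral_iff_ofReal hnn, h2]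
  exact ENNReal.one_lt_top

theorem A1_int_mul (w : ℝ) (hw : 0 < w) (a : Fin 2 → ℝ) (u : (Fin 2 → ℝ) → ℝ) (hu : Bm u) :
    Integrable (fun z => lk w a (w • z) * u (w • z)) (gam (Fin 2)) := by
  obtain ⟨B, hB⟩ := hu.bdd
  exact (A1_int_lk w hw a).mul_bdd (c := B)
    (hu.meas.comp (measurable_const_smul w)).aestronglyMeasurable
    (Filter.Eventually.of_forall fun z => by rw [Real.norm_eq_abs]; exact hB _)

theorem A1_den_pos {n : ℕ} (w : ℝ) (x : Fin 2 → ℝ) : 0 < ∑ ω : Fin n → Fin 3, lk w (XX ω) x :=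
  Finset.sum_pos (fun ω _ => Real.exp_pos _) Finset.univ_nonempty

theorem A1_gg {n : ℕ} (w : ℝ) (f : (Fin n → Fin 3) → ℝ) (x : Fin 2 → ℝ) :
    gg w f x * ∑ ω : Fin n → Fin 3, lk w (XX ω) x = ∑ ω, f ω * lk w (XX ω) x := by
  unfold gg
  rw [div_mul_cancel₀ _ (A1_den_pos w x).ne']

theorem A1_gg_bm {n : ℕ} (w : ℝ) (f : (Fin n → Fin 3) → ℝ) : Bm (gg w f) := by
  have hlk : ∀ a : Fin 2 → ℝ, Measurable (lk w a) := by
    intro a
    unfold lk dot
    fun_prop
  constructor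
  · unfold gg
    exact (Finset.measurable_sum _ fun ω _ => (hlk _).const_mul _).div
      (Finset.measurable_sum _ fun ω _ => hlk _)
  · refine ⟨∑ ω, |f ω|, fun x => ?_⟩
    unfold gg
    have hd := A1_den_pos (n := n) w x
    rw [abs_div, abs_of_pos hd, div_le_iff₀ hd]
    refine (Finset.abs_sum_le_sum_abs _ _).trans ?_
    rw [Finset.mul_sum]
    refine Finset.sum_le_sum fun ω _ => ?_
    rw [abs_mul, abs_of_pos (A1_lk_pos w (XX ω) x)]
    refine mul_le_mul_of_nonneg_right ?_ (A1_lk_pos w (XX ω) x).le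
    exact Finset.single_le_sum (f := fun ω => |f ω|) (fun _ _ => abs_nonneg _) (Finset.mem_univ ω)

/-- the common value. -/
theorem A1_sum {n : ℕ} (w : ℝ) (hw : 0 < w) (f : (Fin n → Fin 3) → ℝ) (u : (Fin 2 → ℝ) → ℝ) (hu : Bm u) :
    ∑ ω, f ω * ∫ z, u (XX ω + w • z) ∂(gam (Fin 2))
      = ∑ ω : Fin n → Fin 3, ∫ z, gg w f (XX ω + w • z) * u (XX ω + w • z) ∂(gam (Fin 2)) := by
  have hgu : Bm (fun x => gg w f x * u x) := by
    obtain ⟨B, hB⟩ := (A1_gg_bm w f).bdd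
    obtain ⟨B', hB'⟩ := hu.bdd
    refine ⟨(A1_gg_bm w f).meas.mul hu.meas, B * B', fun x => ?_⟩
    rw [abs_mul]
    exact mul_le_mul (hB x) (hB' x) (abs_nonneg _) ((abs_nonneg _).trans (hB x))
  have e1 : ∀ ω : Fin n → Fin 3, f ω * ∫ z, u (XX ω + w • z) ∂(gam (Fin 2))
      = ∫ z, f ω * (lk w (XX ω) (w • z) * u (w • z)) ∂(gam (Fin 2)) := by
    intro ω
    rw [A1_cm w hw _ u hu.meas, integral_const_mul]
  have e2 : ∀ ω : Fin n → Fin 3, ∫ z, gg w f (XX ω + w • z) * u (XX ω + w • z) ∂(gam (Fin 2))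
      = ∫ z, lk w (XX ω) (w • z) * (gg w f (w • z) * u (w • z)) ∂(gam (Fin 2)) :=
    fun ω => A1_cm w hw _ (fun x => gg w f x * u x) hgu.meas
  simp only [e1, e2]
  rw [← integral_finset_sum _ fun ω _ => (A1_int_mul w hw _ u hu).const_mul _,
    ← integral_finset_sum _ fun ω _ => A1_int_mul w hw _ _ hgu]
  refine integral_congr_ae (Filter.Eventually.of_forall fun z => ?_)
  simp only
  have h := A1_gg w f (w • z)
  calc ∑ ω, f ω * (lk w (XX ω) (w • z) * u (w • z))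
      = (∑ ω, f ω * lk w (XX ω) (w • z)) * u (w • z) := by
        rw [Finset.sum_mul]
        exact Finset.sum_congr rfl fun ω _ => by ring
    _ = (gg w f (w • z) * ∑ ω : Fin n → Fin 3, lk w (XX ω) (w • z)) * u (w • z) := by rw [h]
    _ = ∑ ω : Fin n → Fin 3, lk w (XX ω) (w • z) * (gg w f (w • z) * u (w • z)) := by
        rw [Finset.mul_sum, Finset.sum_mul]
        exact Finset.sum_congr rfl fun ω _ => by ring

theorem pA1 : StA1 := by
  intro n w f u hw hu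
  unfold av
  rw [A1_sum w hw f u hu]

end Pool.H87.NA
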