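import Pool.Agent.Helper87.NA.M_A1

set_option autoImplicit false

open MeasureTheory ProbabilityTheory Pool.H65.PS Pool.H65.PT Pool.TC

namespace Pool.H87.NA

theorem A2a_XX_perm {n : ℕ} (π : Equiv.Perm (Fin n)) (ω : Fin n → Fin 3) :
    XX (fun i => ω (π i)) = XX ω := by
  funext i
  unfold XX
  congr 1
  exact Equiv.sum_comp π (fun k => vv (ω k) i)

theorem A2a_int {n : ℕ} (w : ℝ) (f : (Fin n → Fin 3) → ℝ) (a : Fin 2 → ℝ) :
    Integrable (fun z => gg w f (a + w • z)) (gam (Fin 2)) := by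
  obtain ⟨B, hB⟩ := (A1_gg_bm w f).bdd
  refine Integrable.of_bound (C := B)
    ((A1_gg_bm w f).meas.comp (by fun_prop : Measurable fun z : Fin 2 → ℝ => a + w • z)).aestronglyMeasurable
    (Filter.Eventually.of_forall fun z => ?_)
  rw [Real.norm_eq_abs]
  exact hB _

theorem pA2a (hA0 : StA0) : StA2a := by
  intro n w hw
  refine ⟨fun f h => ?_, fun f hf ω => ?_, fun f hf => ?_, fun f ρ => ?_⟩
  · unfold av
    congr 1
    have h1 := A1_sum w hw h (gg w f) (A1_gg_bm w f)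
    have h2 := A1_sum w hw f (gg w h) (A1_gg_bm w h)
    unfold RR
    calc ∑ ω, (∫ z, gg w f (XX ω + w • z) ∂(gam (Fin 2))) * h ω
        = ∑ ω, h ω * ∫ z, gg w f (XX ω + w • z) ∂(gam (Fin 2)) :=
          Finset.sum_congr rfl fun ω _ => mul_comm _ _
      _ = ∑ ω : Fin n → Fin 3, ∫ z, gg w h (XX ω + w • z) * gg w f (XX ω + w • z) ∂(gam (Fin 2)) := h1
      _ = ∑ ω : Fin n → Fin 3, ∫ z, gg w f (XX ω + w • z) * gg w h (XX ω + w • z) ∂(gam (Fin 2)) :=
          Finset.sum_congr rfl fun ω _ => by simp only [mul_comm]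
      _ = _ := h2.symm
  · have hA := fun x => (hA0 n w hw).1 f x 0 1 (fun ω => (hf ω).1) (fun ω => (hf ω).2)
    unfold RR
    constructor
    · exact integral_nonneg fun z => (hA _).1
    · calc ∫ z, gg w f (XX ω + w • z) ∂(gam (Fin 2)) ≤ ∫ _z, (1 : ℝ) ∂(gam (Fin 2)) :=
            integral_mono (A2a_int w f _) (integrable_const _) fun z => (hA _).2
        _ = 1 := by simp
  · intro π ω
    unfold RR
    rw [A2a_XX_perm]
  · unfold av EP Tn KK
    congr 1
    refine Finset.sum_congr rfl fun ω _ => ?_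
    beta_reduce
    rw [Finset.mul_sum]
    refine Finset.sum_congr rfl fun δ _ => ?_
    have h3 : ∫ z : (Fin 2 → ℝ) × (Fin 2 → ℝ), gg w f (XX ω + w • z.1) * gg w f (XX δ + w • z.2)
        ∂((gam (Fin 2)).prod (gam (Fin 2))) = RR w f ω * RR w f δ :=
      integral_prod_mul (fun z => gg w f (XX ω + w • z)) (fun z => gg w f (XX δ + w • z))
    rw [h3]
    ring

end Pool.H87.NA
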