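import Pool.Agent.Helper87.NA.M_A1

set_option autoImplicit false

open MeasureTheory ProbabilityTheory Pool.H65.PS Pool.H65.PT Pool.TC

namespace Pool.H87.NA

theorem A2b_int_coord (i : Fin 2) : Integrable (fun z : Fin 2 → ℝ => |z i|) (gam (Fin 2)) :=
  (oub_coord i).abs

theorem A2b_coord_le (i : Fin 2) : ∫ z : Fin 2 → ℝ, |z i| ∂(gam (Fin 2)) ≤ 1 := by
  have hsq : ∫ z : Fin 2 → ℝ, z i ^ 2 ∂(gam (Fin 2)) = 1 := by
    have h := Ous_dot_sq (κ := Fin 2) (Pi.single i 1)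
    have e : ∀ z : Fin 2 → ℝ, dot (Pi.single i 1) z = z i := by
      intro z
      unfold dot
      simp [Pi.single_apply]
    simp only [e] at h
    rw [h]
    simp
  have hint : Integrable (fun z : Fin 2 → ℝ => z i ^ 2) (gam (Fin 2)) := by
    have h := Ous_integrable_dot_sq (κ := Fin 2) (Pi.single i 1)
    have e : ∀ z : Fin 2 → ℝ, dot (Pi.single i 1) z = z i := by
      intro z
      unfold dot
      simp [Pi.single_apply]
    simpa only [e] using h
  calc ∫ z : Fin 2 → ℝ, |z i| ∂(gam (Fin 2)) ≤ ∫ z : Fin 2 → ℝ, (z i ^ 2 / 2 + 1 / 2) ∂(gam (Fin 2)) := by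
        refine integral_mono (A2b_int_coord i) ((hint.div_const 2).add (integrable_const _)) fun z => ?_
        have := abs_nonneg (z i)
        have h2 := sq_abs (z i)
        simp only
        nlinarith [sq_nonneg (|z i| - 1)]
    _ = 1 := by
        rw [integral_add (hint.div_const 2) (integrable_const _), integral_div, hsq]
        simp
        norm_num

theorem A2b_norm_le (z : Fin 2 → ℝ) : ‖z‖ ≤ |z 0| + |z 1| := by
  rw [pi_norm_le_iff_of_nonneg (by positivity)]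
  intro i
  fin_cases i
  · simp
  · simp

theorem A2b_int_norm : Integrable (fun z : Fin 2 → ℝ => ‖z‖) (gam (Fin 2)) := by
  refine ((A2b_int_coord 0).add (A2b_int_coord 1)).mono (by fun_prop) ?_
  refine Filter.Eventually.of_forall fun z => ?_
  rw [Real.norm_of_nonneg (norm_nonneg _), Real.norm_of_nonneg (by simp only [Pi.add_apply]; positivity)]
  exact A2b_norm_le z

theorem A2b_norm : ∫ z : Fin 2 → ℝ, ‖z‖ ∂(gam (Fin 2)) ≤ 2 := by
  calc ∫ z : Fin 2 → ℝ, ‖z‖ ∂(gam (Fin 2)) ≤ ∫ z : Fin 2 → ℝ, (|z 0| + |z 1|) ∂(gam (Fin 2)) :=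
        integral_mono A2b_int_norm ((A2b_int_coord 0).add (A2b_int_coord 1)) A2b_norm_le
    _ = ∫ z : Fin 2 → ℝ, |z 0| ∂(gam (Fin 2)) + ∫ z : Fin 2 → ℝ, |z 1| ∂(gam (Fin 2)) :=
        integral_add (A2b_int_coord 0) (A2b_int_coord 1)
    _ ≤ 1 + 1 := add_le_add (A2b_coord_le 0) (A2b_coord_le 1)
    _ = 2 := by norm_num

/-- posterior mean of the distance. -/
noncomputable def A2b_pd (n : ℕ) (w : ℝ) (x : Fin 2 → ℝ) : ℝ :=
  (∑ ω : Fin n → Fin 3, ‖XX ω - x‖ * lk w (XX ω) x) / ∑ ω : Fin n → Fin 3, lk w (XX ω) x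

theorem A2b_gg_sub {n : ℕ} (w L : ℝ) (hL : 0 ≤ L) (h : (Fin n → Fin 3) → ℝ) (hh : LipX L h)
    (ω : Fin n → Fin 3) (x : Fin 2 → ℝ) : |gg w h x - h ω| ≤ L * (‖XX ω - x‖ + A2b_pd n w x) := by
  have hd := A1_den_pos (n := n) w x
  have e : gg w h x - h ω = (∑ ω', (h ω' - h ω) * lk w (XX ω') x) / ∑ ω' : Fin n → Fin 3, lk w (XX ω') x := by
    unfold gg
    rw [eq_div_iff hd.ne', sub_mul, div_mul_cancel₀ _ hd.ne', Finset.mul_sum, ← Finset.sum_sub_distrib]
    exact Finset.sum_congr rfl fun ω' _ => by ring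
  have e2 : L * (‖XX ω - x‖ + A2b_pd n w x)
      = (∑ ω' : Fin n → Fin 3, L * (‖XX ω - x‖ + ‖XX ω' - x‖) * lk w (XX ω') x) /
        ∑ ω' : Fin n → Fin 3, lk w (XX ω') x := by
    unfold A2b_pd
    rw [eq_div_iff hd.ne', mul_assoc, add_mul, div_mul_cancel₀ _ hd.ne', Finset.mul_sum, ← Finset.sum_add_distrib,
      Finset.mul_sum]
    exact Finset.sum_congr rfl fun ω' _ => by ring
  rw [e, e2, abs_div, abs_of_pos hd]
  refine div_le_div_of_nonneg_right ?_ hd.le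
  refine (Finset.abs_sum_le_sum_abs _ _).trans (Finset.sum_le_sum fun ω' _ => ?_)
  rw [abs_mul, abs_of_pos (A1_lk_pos w (XX ω') x)]
  refine mul_le_mul_of_nonneg_right ((hh ω' ω).trans ?_) (A1_lk_pos w _ x).le
  refine mul_le_mul_of_nonneg_left ?_ hL
  calc ‖XX ω' - XX ω‖ = ‖(XX ω' - x) - (XX ω - x)‖ := by congr 1; abel
    _ ≤ ‖XX ω' - x‖ + ‖XX ω - x‖ := norm_sub_le _ _
    _ = _ := add_comm _ _

theorem A2b_lk_cont (w : ℝ) (a : Fin 2 → ℝ) : Continuous (lk w a) := by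
  unfold lk dot
  fun_prop

theorem A2b_pd_cont (n : ℕ) (w : ℝ) : Continuous (A2b_pd n w) := by
  unfold A2b_pd
  refine Continuous.div ?_ ?_ fun x => (A1_den_pos w x).ne'
  · exact continuous_finsetSum _ fun ω _ =>
      ((continuous_const.sub continuous_id).norm).mul (A2b_lk_cont w _)
  · exact continuous_finsetSum _ fun ω _ => A2b_lk_cont w _

theorem A2b_pd_nonneg (n : ℕ) (w : ℝ) (x : Fin 2 → ℝ) : 0 ≤ A2b_pd n w x :=
  div_nonneg (Finset.sum_nonneg fun ω _ => mul_nonneg (norm_nonneg _) (A1_lk_pos w _ x).le)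
    (A1_den_pos w x).le

/-- `pd x ≤ ‖x‖ + C`. -/
theorem A2b_pd_le (n : ℕ) (w : ℝ) (x : Fin 2 → ℝ) :
    A2b_pd n w x ≤ ‖x‖ + ∑ ω : Fin n → Fin 3, ‖XX ω‖ := by
  unfold A2b_pd
  rw [div_le_iff₀ (A1_den_pos w x), Finset.mul_sum]
  refine Finset.sum_le_sum fun ω _ => mul_le_mul_of_nonneg_right ?_ (A1_lk_pos w _ x).le
  have h1 : ‖XX ω - x‖ ≤ ‖XX ω‖ + ‖x‖ := norm_sub_le _ _
  have h2 : ‖XX ω‖ ≤ ∑ ω : Fin n → Fin 3, ‖XX ω‖ :=
    Finset.single_le_sum (f := fun ω : Fin n → Fin 3 => ‖XX ω‖) (fun _ _ => norm_nonneg _) (Finset.mem_univ ω)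
  linarith

/-- polynomially bounded functions are integrable against the density. -/
theorem A2b_int_pd (n : ℕ) (w : ℝ) (a : Fin 2 → ℝ) :
    Integrable (fun z : Fin 2 → ℝ => A2b_pd n w (a + w • z)) (gam (Fin 2)) := by
  have h1 : Integrable (fun z : Fin 2 → ℝ => ‖a‖ + |w| * ‖z‖ + ∑ ω : Fin n → Fin 3, ‖XX ω‖) (gam (Fin 2)) :=
    ((integrable_const _).add (A2b_int_norm.const_mul _)).add (integrable_const _)
  refine h1.mono ((A2b_pd_cont n w).comp (by fun_prop : Continuous fun z : Fin 2 → ℝ => a + w • z)).aestronglyMeasurable ?_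
  refine Filter.Eventually.of_forall fun z => ?_
  have h0 : (0 : ℝ) ≤ ∑ ω : Fin n → Fin 3, ‖XX ω‖ := Finset.sum_nonneg fun _ _ => norm_nonneg _
  rw [Real.norm_of_nonneg (A2b_pd_nonneg n w _), Real.norm_of_nonneg (by positivity)]
  refine (A2b_pd_le n w _).trans ?_
  have : ‖a + w • z‖ ≤ ‖a‖ + |w| * ‖z‖ := (norm_add_le _ _).trans (by rw [norm_smul, Real.norm_eq_abs])
  linarith

/-- Cameron-Martin, version for functions of linear growth. -/
theorem A2b_int_lk (w : ℝ) (hw : 0 < w) (a : Fin 2 → ℝ) (u : (Fin 2 → ℝ) → ℝ) (hu : Continuous u)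
    (hi : Integrable (fun z => u (a + w • z)) (gam (Fin 2))) :
    Integrable (fun z => lk w a (w • z) * u (w • z)) (gam (Fin 2)) := by
  have hmap := gam_map_add (κ := Fin 2) (w⁻¹ • a)
  have e1 : ∀ z : Fin 2 → ℝ, u (a + w • z) = (fun y => u (w • y)) (z + w⁻¹ • a) := by
    intro z
    simp only
    rw [smul_add, smul_smul, mul_inv_cancel₀ hw.ne', one_smul, add_comm]
  simp only [e1] at hi
  have hm : Measurable (fun y : Fin 2 → ℝ => u (w • y)) := (hu.comp (continuous_const_smul w)).measurable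
  have h2 : Integrable (fun y : Fin 2 → ℝ => u (w • y)) ((gam (Fin 2)).map (fun x => x + w⁻¹ • a)) := by
    rw [integrable_map_measure hm.aestronglyMeasurable (by fun_prop)]
    exact hi
  rw [hmap, integrable_withDensity_iff_integrable_smul' (by unfold dot; fun_prop)
    (Filter.Eventually.of_forall fun _ => ENNReal.ofReal_lt_top)] at h2
  refine h2.congr (Filter.Eventually.of_forall fun z => ?_)
  simp only [smul_eq_mul]
  rw [ENNReal.toReal_ofReal (Real.exp_pos _).le, A1_lk w hw]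

theorem A2b_pd_avg (n : ℕ) (w : ℝ) (hw : 0 < w) :
    ∑ ω : Fin n → Fin 3, ∫ z, A2b_pd n w (XX ω + w • z) ∂(gam (Fin 2))
      = ∑ _ω : Fin n → Fin 3, ∫ z : Fin 2 → ℝ, w * ‖z‖ ∂(gam (Fin 2)) := by
  have e1 : ∀ ω : Fin n → Fin 3, ∫ z, A2b_pd n w (XX ω + w • z) ∂(gam (Fin 2))
      = ∫ z, lk w (XX ω) (w • z) * A2b_pd n w (w • z) ∂(gam (Fin 2)) :=
    fun ω => A1_cm w hw _ _ (A2b_pd_cont n w).measurable
  have hc : ∀ ω : Fin n → Fin 3, Continuous fun x : Fin 2 → ℝ => ‖XX ω - x‖ := fun ω => by fun_prop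
  have e2 : ∀ ω : Fin n → Fin 3, ∫ z : Fin 2 → ℝ, w * ‖z‖ ∂(gam (Fin 2))
      = ∫ z, lk w (XX ω) (w • z) * ‖XX ω - w • z‖ ∂(gam (Fin 2)) := by
    intro ω
    rw [← A1_cm w hw (XX ω) (fun x => ‖XX ω - x‖) (hc ω).measurable]
    refine integral_congr_ae (Filter.Eventually.of_forall fun z => ?_)
    simp only
    rw [sub_add_cancel_left, norm_neg, norm_smul, Real.norm_of_nonneg hw.le]
  have i1 : ∀ ω : Fin n → Fin 3, Integrable (fun z => lk w (XX ω) (w • z) * A2b_pd n w (w • z)) (gam (Fin 2)) :=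
    fun ω => A2b_int_lk w hw _ _ (A2b_pd_cont n w) (A2b_int_pd n w _)
  have i2 : ∀ ω : Fin n → Fin 3, Integrable (fun z => lk w (XX ω) (w • z) * ‖XX ω - w • z‖) (gam (Fin 2)) := by
    intro ω
    refine A2b_int_lk w hw _ _ (hc ω) ?_
    refine (A2b_int_norm.const_mul w).congr (Filter.Eventually.of_forall fun z => ?_)
    simp only
    rw [sub_add_cancel_left, norm_neg, norm_smul, Real.norm_of_nonneg hw.le]
  rw [Finset.sum_congr rfl fun ω _ => e1 ω, Finset.sum_congr rfl fun ω _ => e2 ω,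
    ← integral_finset_sum _ fun ω _ => i1 ω, ← integral_finset_sum _ fun ω _ => i2 ω]
  refine integral_congr_ae (Filter.Eventually.of_forall fun z => ?_)
  simp only
  rw [← Finset.sum_mul]
  unfold A2b_pd
  rw [mul_div_cancel₀ _ (A1_den_pos w (w • z)).ne']
  exact Finset.sum_congr rfl fun ω _ => mul_comm _ _

theorem pA2b : StA2b := by
  intro n w L h hw hL hh
  have key : ∀ ω : Fin n → Fin 3, |RR w h ω - h ω| ≤
      L * (w * ∫ z : Fin 2 → ℝ, ‖z‖ ∂(gam (Fin 2))) + L * ∫ z, A2b_pd n w (XX ω + w • z) ∂(gam (Fin 2)) := by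
    intro ω
    have hbm := A1_gg_bm w h
    obtain ⟨B, hB⟩ := hbm.bdd
    have hint : Integrable (fun z => gg w h (XX ω + w • z)) (gam (Fin 2)) :=
      Integrable.of_bound (C := B)
        (hbm.meas.comp (by fun_prop : Measurable fun z : Fin 2 → ℝ => XX ω + w • z)).aestronglyMeasurable
        (Filter.Eventually.of_forall fun z => by rw [Real.norm_eq_abs]; exact hB _)
    have e : RR w h ω - h ω = ∫ z, (gg w h (XX ω + w • z) - h ω) ∂(gam (Fin 2)) := by
      rw [integral_sub hint (integrable_const _)]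
      unfold RR
      simp
    rw [e]
    have hi1 : Integrable (fun z : Fin 2 → ℝ => L * (w * ‖z‖)) (gam (Fin 2)) :=
      (A2b_int_norm.const_mul w).const_mul L
    have hi2 : Integrable (fun z : Fin 2 → ℝ => L * A2b_pd n w (XX ω + w • z)) (gam (Fin 2)) :=
      (A2b_int_pd n w _).const_mul L
    calc |∫ z, (gg w h (XX ω + w • z) - h ω) ∂(gam (Fin 2))|
        ≤ ∫ z, |gg w h (XX ω + w • z) - h ω| ∂(gam (Fin 2)) := abs_integral_le_integral_abs
      _ ≤ ∫ z, (L * (w * ‖z‖) + L * A2b_pd n w (XX ω + w • z)) ∂(gam (Fin 2)) := by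
          refine integral_mono (hint.sub (integrable_const _)).abs (hi1.add hi2) fun z => ?_
          refine (A2b_gg_sub w L hL h hh ω _).trans (le_of_eq ?_)
          rw [mul_add, sub_add_cancel_left, norm_neg, norm_smul, Real.norm_of_nonneg hw.le]
      _ = _ := by
          rw [integral_add hi1 hi2, integral_const_mul, integral_const_mul, integral_const_mul]
  have hcard : (Fintype.card (Fin n → Fin 3) : ℝ) = ((3 : ℕ) : ℝ) ^ n := by
    rw [Fintype.card_fun, Fintype.card_fin, Fintype.card_fin]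
    push_cast
    ring
  have hpos : (0 : ℝ) < ((3 : ℕ) : ℝ) ^ n := by positivity
  have hsum : ∑ ω : Fin n → Fin 3, |RR w h ω - h ω| ≤ ((3 : ℕ) : ℝ) ^ n * (4 * L * w) := by
    have hI := A2b_norm
    calc ∑ ω : Fin n → Fin 3, |RR w h ω - h ω|
        ≤ ∑ ω : Fin n → Fin 3, (L * (w * ∫ z : Fin 2 → ℝ, ‖z‖ ∂(gam (Fin 2)))
            + L * ∫ z, A2b_pd n w (XX ω + w • z) ∂(gam (Fin 2))) := Finset.sum_le_sum fun ω _ => key ω
      _ = ((3 : ℕ) : ℝ) ^ n * (L * (w * ∫ z : Fin 2 → ℝ, ‖z‖ ∂(gam (Fin 2))))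
          + L * (((3 : ℕ) : ℝ) ^ n * (w * ∫ z : Fin 2 → ℝ, ‖z‖ ∂(gam (Fin 2)))) := by
          have e3 : ∑ ω : Fin n → Fin 3, L * ∫ z, A2b_pd n w (XX ω + w • z) ∂(gam (Fin 2))
              = L * ∑ ω : Fin n → Fin 3, ∫ z, A2b_pd n w (XX ω + w • z) ∂(gam (Fin 2)) :=
            (Finset.mul_sum _ _ _).symm
          rw [Finset.sum_add_distrib, e3, A2b_pd_avg n w hw, integral_const_mul]
          simp only [Finset.sum_const, Finset.card_univ, nsmul_eq_mul]
          rw [hcard]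
      _ = ((3 : ℕ) : ℝ) ^ n * (2 * L * w * ∫ z : Fin 2 → ℝ, ‖z‖ ∂(gam (Fin 2))) := by ring
      _ ≤ ((3 : ℕ) : ℝ) ^ n * (2 * L * w * 2) :=
          mul_le_mul_of_nonneg_left (mul_le_mul_of_nonneg_left hI (by positivity)) hpos.le
      _ = _ := by ring
  unfold av
  calc (((3 : ℕ) : ℝ) ^ n)⁻¹ * ∑ ω : Fin n → Fin 3, |RR w h ω - h ω|
      ≤ (((3 : ℕ) : ℝ) ^ n)⁻¹ * (((3 : ℕ) : ℝ) ^ n * (4 * L * w)) :=
        mul_le_mul_of_nonneg_left hsum (by positivity)
    _ = _ := by field_simp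

end Pool.H87.NA
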