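import Pool.Agent.Helper87.NA.St

set_option autoImplicit false

open MeasureTheory ProbabilityTheory Pool.H65.PS Pool.H65.PT Pool.TC

namespace Pool.H87.NA

theorem A3_KK_symm {n : ℕ} (ρ : ℝ) (ω δ : Fin n → Fin 3) : KK ρ ω δ = KK ρ δ ω := by
  unfold KK
  refine Finset.prod_congr rfl fun i _ => ?_
  simp only [eq_comm]

theorem A3_Tn {n : ℕ} (ρ : ℝ) (f : (Fin n → Fin 3) → ℝ) (ω : Fin n → Fin 3) :
    Tn ρ f ω = ∑ δ, KK ρ ω δ * f δ := rfl

theorem A3_adj {n : ℕ} (ρ : ℝ) (f h : (Fin n → Fin 3) → ℝ) :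
    av (fun ω => f ω * Tn ρ h ω) = av (fun ω => Tn ρ f ω * h ω) := by
  unfold av
  congr 1
  simp only [A3_Tn, Finset.mul_sum, Finset.sum_mul]
  rw [Finset.sum_comm]
  refine Finset.sum_congr rfl fun δ _ => Finset.sum_congr rfl fun ω _ => ?_
  rw [A3_KK_symm]
  ring

theorem A3_stab {n : ℕ} (ρ : ℝ) (f : (Fin n → Fin 3) → ℝ) :
    stab ρ f = av (fun ω => f ω * Tn ρ f ω) := by
  unfold stab av
  congr 1
  simp only [A3_Tn, Finset.mul_sum]
  refine Finset.sum_congr rfl fun ω _ => Finset.sum_congr rfl fun δ _ => ?_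
  unfold KK
  ring

theorem A3_bd {n : ℕ} (f g : (Fin n → Fin 3) → ℝ) (hf : ∀ ω, 0 ≤ f ω ∧ f ω ≤ 1) :
    |av (fun ω => f ω * g ω)| ≤ av (fun ω => |g ω|) := by
  unfold av
  rw [abs_mul, abs_of_nonneg (by positivity : (0 : ℝ) ≤ (((3 : ℕ) : ℝ) ^ n)⁻¹)]
  refine mul_le_mul_of_nonneg_left ?_ (by positivity)
  refine (Finset.abs_sum_le_sum_abs _ _).trans (Finset.sum_le_sum fun ω _ => ?_)
  rw [abs_mul, abs_of_nonneg (hf ω).1]
  exact mul_le_of_le_one_left (abs_nonneg _) (hf ω).2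

theorem pA3 (hA2a : StA2a) (hA2b : StA2b) : StA3 := by
  intro n ρ w L f hw hL hf h1 h2
  obtain ⟨hadj, h01, -, hEP⟩ := hA2a n w hw
  rw [A3_stab, ← hEP f ρ]
  have b1 := hA2b n w L _ hw hL h1
  have b2 := hA2b n w L _ hw hL h2
  have c1 := A3_bd f (fun ω => RR w (Tn ρ f) ω - Tn ρ f ω) hf
  have c2 := A3_bd f (fun ω => RR w (Tn ρ (RR w f)) ω - Tn ρ (RR w f) ω) hf
  -- the algebra
  have e1 : av (fun ω => f ω * RR w (Tn ρ f) ω) = av (fun ω => f ω * Tn ρ (RR w f) ω) := by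
    rw [← hadj, A3_adj]
    unfold av
    congr 1
    exact Finset.sum_congr rfl fun ω _ => mul_comm _ _
  have e2 : av (fun ω => RR w f ω * Tn ρ (RR w f) ω) = av (fun ω => f ω * RR w (Tn ρ (RR w f)) ω) :=
    hadj f (Tn ρ (RR w f))
  have s1 : av (fun ω => f ω * (RR w (Tn ρ f) ω - Tn ρ f ω))
      = av (fun ω => f ω * RR w (Tn ρ f) ω) - av (fun ω => f ω * Tn ρ f ω) := by
    rw [← dsc_av_sub]
    simp only [mul_sub]
  have s2 : av (fun ω => f ω * (RR w (Tn ρ (RR w f)) ω - Tn ρ (RR w f) ω))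
      = av (fun ω => f ω * RR w (Tn ρ (RR w f)) ω) - av (fun ω => f ω * Tn ρ (RR w f) ω) := by
    rw [← dsc_av_sub]
    simp only [mul_sub]
  rw [s1] at c1
  rw [s2] at c2
  rw [e2]
  rw [abs_le] at c1 c2 ⊢
  constructor <;> linarith [c1.1, c1.2, c2.1, c2.2]

end Pool.H87.NA
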