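import Pool.Agent.Helper87.NA.St

/-! Module B1 of project NA: derivative bound for exchangeable coordinates. -/

set_option autoImplicit false

namespace Pool.H87.NA

namespace B1

open Function

variable {n : ℕ}

theorem sum_upd_bij (i : Fin n) (a c : Fin 3) (F : (Fin n → Fin 3) → ℝ) :
    ∑ δ : Fin n → Fin 3, (if δ i = a then F (update δ i c) else 0)
      = ∑ δ : Fin n → Fin 3, (if δ i = c then F δ else 0) := by
  rw [← Finset.sum_filter, ← Finset.sum_filter]
  refine Finset.sum_nbij' (fun δ => update δ i c) (fun δ => update δ i a) ?_ ?_ ?_ ?_ ?_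
  · intro δ _; simp
  · intro δ _; simp
  · intro δ h
    have h' : δ i = a := by simpa using h
    simp [← h']
  · intro δ h
    have h' : δ i = c := by simpa using h
    simp [← h']
  · intro δ _; rfl

theorem sum_upd (i : Fin n) (a : Fin 3) (F : (Fin n → Fin 3) → ℝ) :
    ∑ δ : Fin n → Fin 3, F δ
      = ∑ δ : Fin n → Fin 3, (if δ i = a then ∑ c, F (update δ i c) else 0) := by
  have h1 : ∑ δ : Fin n → Fin 3, (if δ i = a then ∑ c, F (update δ i c) else 0)
      = ∑ c, ∑ δ : Fin n → Fin 3, (if δ i = a then F (update δ i c) else 0) := by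
    rw [Finset.sum_comm]
    refine Finset.sum_congr rfl fun δ _ => ?_
    split_ifs with h
    · rfl
    · simp
  rw [h1]
  simp_rw [sum_upd_bij i a]
  rw [Finset.sum_comm]
  refine Finset.sum_congr rfl fun δ _ => ?_
  simp

/-- weight. -/
noncomputable def W (q : Fin n → Fin 3 → ℝ) (δ : Fin n → Fin 3) : ℝ := ∏ k, q k (δ k)

theorem W_upd (q : Fin n → Fin 3 → ℝ) (i : Fin n) (c : Fin 3) (δ : Fin n → Fin 3) :
    W q (update δ i c) = q i c * ∏ k ∈ Finset.univ.erase i, q k (δ k) := by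
  unfold W
  rw [← Finset.mul_prod_erase Finset.univ _ (Finset.mem_univ i)]
  congr 1
  · simp
  · refine Finset.prod_congr rfl fun k hk => ?_
    rw [update_of_ne (Finset.ne_of_mem_erase hk)]

theorem W_split (q : Fin n → Fin 3 → ℝ) (i : Fin n) (δ : Fin n → Fin 3) :
    W q δ = q i (δ i) * ∏ k ∈ Finset.univ.erase i, q k (δ k) := by
  unfold W
  rw [← Finset.mul_prod_erase Finset.univ _ (Finset.mem_univ i)]

theorem key (q : Fin n → Fin 3 → ℝ) (hq1 : ∀ k, ∑ c, q k c = 1) (p : Fin 3 → ℝ) (i : Fin n)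
    (hi : q i = p) (a : Fin 3) (g : (Fin n → Fin 3) → ℝ) :
    Ex q (fun δ => if δ i = a then g δ else 0) = p a * Ex q (fun δ => g (update δ i a)) := by
  unfold Ex
  rw [sum_upd i a (fun δ => (∏ k, q k (δ k)) * g (update δ i a)), Finset.mul_sum]
  refine Finset.sum_congr rfl fun δ _ => ?_
  by_cases h : δ i = a
  · simp only [h, if_true]
    have h1 : ∀ c, (∏ k, q k (update δ i c k)) * g (update (update δ i c) i a)
        = q i c * ((∏ k ∈ Finset.univ.erase i, q k (δ k)) * g δ) := by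
      intro c
      have h2 := W_upd q i c δ
      unfold W at h2
      rw [h2, update_idem]
      have h3 : update δ i a = δ := by rw [← h]; simp
      rw [h3]; ring
    simp_rw [h1]
    rw [← Finset.sum_mul, hq1 i, one_mul]
    have h4 := W_split q i δ
    unfold W at h4
    rw [h4, h, hi]; ring
  · simp [h]

theorem Ex_one (q : Fin n → Fin 3 → ℝ) (hq1 : ∀ k, ∑ c, q k c = 1) : Ex q (fun _ => 1) = 1 := by
  unfold Ex
  simp only [mul_one]
  have h := Finset.prod_univ_sum (fun _ : Fin n => (Finset.univ : Finset (Fin 3))) (fun k c => q k c)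
  rw [Fintype.piFinset_univ] at h
  rw [← h]
  simp [hq1]

theorem Ex_add (q : Fin n → Fin 3 → ℝ) (f g : (Fin n → Fin 3) → ℝ) :
    Ex q (fun δ => f δ + g δ) = Ex q f + Ex q g := by
  unfold Ex; rw [← Finset.sum_add_distrib]; exact Finset.sum_congr rfl fun δ _ => by ring

theorem Ex_sub (q : Fin n → Fin 3 → ℝ) (f g : (Fin n → Fin 3) → ℝ) :
    Ex q (fun δ => f δ - g δ) = Ex q f - Ex q g := by
  unfold Ex; rw [← Finset.sum_sub_distrib]; exact Finset.sum_congr rfl fun δ _ => by ring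

theorem Ex_mul (q : Fin n → Fin 3 → ℝ) (r : ℝ) (f : (Fin n → Fin 3) → ℝ) :
    Ex q (fun δ => r * f δ) = r * Ex q f := by
  unfold Ex; rw [Finset.mul_sum]; exact Finset.sum_congr rfl fun δ _ => by ring

theorem Ex_sum (q : Fin n → Fin 3 → ℝ) {ι : Type} (s : Finset ι) (f : ι → (Fin n → Fin 3) → ℝ) :
    Ex q (fun δ => ∑ k ∈ s, f k δ) = ∑ k ∈ s, Ex q (f k) := by
  unfold Ex
  rw [Finset.sum_comm]
  exact Finset.sum_congr rfl fun δ _ => by rw [Finset.mul_sum]

theorem Ex_mono (q : Fin n → Fin 3 → ℝ) (hq0 : ∀ k c, 0 ≤ q k c) (f g : (Fin n → Fin 3) → ℝ)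
    (h : ∀ δ, f δ ≤ g δ) : Ex q f ≤ Ex q g := by
  unfold Ex
  exact Finset.sum_le_sum fun δ _ =>
    mul_le_mul_of_nonneg_left (h δ) (Finset.prod_nonneg fun k _ => hq0 k _)

/-- the score. -/
noncomputable def xi (p : Fin 3 → ℝ) (a b : Fin 3) (k : Fin n) (δ : Fin n → Fin 3) : ℝ :=
  (p a)⁻¹ * (if δ k = a then 1 else 0) - (p b)⁻¹ * (if δ k = b then 1 else 0)

theorem Ex_xi_mul (q : Fin n → Fin 3 → ℝ) (hq1 : ∀ k, ∑ c, q k c = 1) (p : Fin 3 → ℝ) (k : Fin n)
    (hk : q k = p) (a b : Fin 3) (ha : 0 < p a) (hb : 0 < p b) (g : (Fin n → Fin 3) → ℝ) :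
    Ex q (fun δ => xi p a b k δ * g δ)
      = Ex q (fun δ => g (update δ k a)) - Ex q (fun δ => g (update δ k b)) := by
  have h1 : (fun δ : Fin n → Fin 3 => xi p a b k δ * g δ)
      = fun δ => (p a)⁻¹ * (if δ k = a then g δ else 0) - (p b)⁻¹ * (if δ k = b then g δ else 0) := by
    funext δ
    unfold xi
    rw [sub_mul, mul_assoc, mul_assoc, ite_mul, ite_mul, one_mul, zero_mul]
  rw [h1, Ex_sub q (fun δ => (p a)⁻¹ * (if δ k = a then g δ else 0))
    (fun δ => (p b)⁻¹ * (if δ k = b then g δ else 0)), Ex_mul, Ex_mul, key q hq1 p k hk a g,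
    key q hq1 p k hk b g]
  field_simp

theorem Ex_swap (q : Fin n → Fin 3 → ℝ) (i k : Fin n) (hik : q i = q k) (g : (Fin n → Fin 3) → ℝ) :
    Ex q (fun δ => g (fun l => δ (Equiv.swap i k l))) = Ex q g := by
  unfold Ex
  refine Fintype.sum_equiv (Equiv.arrowCongr (Equiv.swap i k) (Equiv.refl _)) _ _ fun δ => ?_
  have h0 : (Equiv.arrowCongr (Equiv.swap i k) (Equiv.refl (Fin 3))) δ
      = fun l => δ (Equiv.swap i k l) := by
    funext l; simp [Equiv.arrowCongr]
  rw [h0]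
  congr 1
  have h := Equiv.prod_comp (Equiv.swap i k) (fun l => q l (δ l))
  rw [← h]
  refine Finset.prod_congr rfl fun l _ => ?_
  have h3 : q (Equiv.swap i k l) = q l := by
    by_cases h1 : l = i
    · rw [h1, Equiv.swap_apply_left, hik]
    · by_cases h2 : l = k
      · rw [h2, Equiv.swap_apply_right, hik]
      · rw [Equiv.swap_apply_of_ne_of_ne h1 h2]
  simp only [h3, Equiv.swap_apply_self]

end B1

open B1 in
theorem pB1 : StB1 := by
  intro n q p I i η f a b hq0 hq1 hη hp hI hi hA hf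
  have hpos : ∀ c, 0 < p c := fun c => lt_of_lt_of_le hη (hp c)
  set D : ℝ := Ex q (fun δ => f (Function.update δ i a)) - Ex q (fun δ => f (Function.update δ i b)) with hD
  have hcard : 0 < (I.card : ℝ) := by exact_mod_cast Finset.card_pos.mpr ⟨i, hi⟩
  refine Real.abs_le_sqrt ?_
  by_cases hab : a = b
  · have : D = 0 := by rw [hD, hab, sub_self]
    rw [this, zero_pow two_ne_zero]; positivity
  -- each coordinate gives `D`
  have hDk : ∀ k ∈ I, Ex q (fun δ => xi p a b k δ * f δ) = D := by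
    intro k hk
    have hDi : Ex q (fun δ => xi p a b i δ * f δ) = D := by
      rw [Ex_xi_mul q hq1 p i (hI i hi) a b (hpos a) (hpos b) f]
    rw [← hDi, ← Ex_swap q i k (by rw [hI i hi, hI k hk]) (fun δ => xi p a b k δ * f δ)]
    congr 1
    funext δ
    rw [hA]
    congr 1
    unfold xi
    simp
  -- second moment of the sum
  have hoff : ∀ k ∈ I, ∀ l ∈ I, k ≠ l → Ex q (fun δ => xi p a b k δ * xi p a b l δ) = 0 := by
    intro k hk l _ hkl
    rw [Ex_xi_mul q hq1 p k (hI k hk) a b (hpos a) (hpos b) (fun δ => xi p a b l δ)]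
    have h1 : ∀ c, (fun δ : Fin n → Fin 3 => xi p a b l (Function.update δ k c)) = fun δ => xi p a b l δ := by
      intro c; funext δ; unfold xi; rw [Function.update_of_ne (Ne.symm hkl)]
    rw [h1, h1, sub_self]
  have hdia : ∀ k ∈ I, Ex q (fun δ => xi p a b k δ * xi p a b k δ) ≤ 2 / η := by
    intro k hk
    rw [Ex_xi_mul q hq1 p k (hI k hk) a b (hpos a) (hpos b) (fun δ => xi p a b k δ)]
    have h1 : (fun δ : Fin n → Fin 3 => xi p a b k (Function.update δ k a)) = fun δ => (p a)⁻¹ * (fun _ => (1 : ℝ)) δ := by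
      funext δ; unfold xi; simp [hab]
    have h2 : (fun δ : Fin n → Fin 3 => xi p a b k (Function.update δ k b)) = fun δ => (-(p b)⁻¹) * (fun _ => (1 : ℝ)) δ := by
      funext δ; unfold xi; simp [Ne.symm hab]
    rw [h1, h2, Ex_mul, Ex_mul, Ex_one q hq1]
    have h3 : (p a)⁻¹ ≤ η⁻¹ := inv_anti₀ hη (hp a)
    have h4 : (p b)⁻¹ ≤ η⁻¹ := inv_anti₀ hη (hp b)
    rw [div_eq_mul_inv]
    linarith
  set S : (Fin n → Fin 3) → ℝ := fun δ => ∑ k ∈ I, xi p a b k δ with hS
  have hS2 : Ex q (fun δ => S δ * S δ) ≤ (I.card : ℝ) * (2 / η) := by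
    have h1 : (fun δ => S δ * S δ) = fun δ => ∑ k ∈ I, ∑ l ∈ I, xi p a b k δ * xi p a b l δ := by
      funext δ; rw [hS]; exact Finset.sum_mul_sum _ _ _ _
    rw [h1, Ex_sum q I (fun k δ => ∑ l ∈ I, xi p a b k δ * xi p a b l δ)]
    have h2 : ∀ k ∈ I, Ex q (fun δ => ∑ l ∈ I, xi p a b k δ * xi p a b l δ) ≤ 2 / η := by
      intro k hk
      rw [Ex_sum q I (fun l δ => xi p a b k δ * xi p a b l δ)]
      rw [Finset.sum_eq_single k (fun l hl hlk => hoff k hk l hl (Ne.symm hlk)) (fun h => absurd hk h)]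
      exact hdia k hk
    calc ∑ k ∈ I, Ex q (fun δ => ∑ l ∈ I, xi p a b k δ * xi p a b l δ)
        ≤ ∑ _k ∈ I, (2 / η) := Finset.sum_le_sum h2
      _ = (I.card : ℝ) * (2 / η) := by rw [Finset.sum_const, nsmul_eq_mul]
  have hfS : Ex q (fun δ => S δ * f δ) = (I.card : ℝ) * D := by
    have h1 : (fun δ => S δ * f δ) = fun δ => ∑ k ∈ I, xi p a b k δ * f δ := by
      funext δ; rw [hS]; exact Finset.sum_mul _ _ _
    rw [h1, Ex_sum q I (fun k δ => xi p a b k δ * f δ), Finset.sum_congr rfl hDk, Finset.sum_const,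
      nsmul_eq_mul]
  set m : ℝ := (I.card : ℝ) * D with hm
  have hvar : 0 ≤ Ex q (fun δ => (S δ * f δ - m) ^ 2) := by
    have := Ex_mono q hq0 (fun _ => 0) (fun δ => (S δ * f δ - m) ^ 2) (fun δ => sq_nonneg _)
    refine le_trans (le_of_eq ?_) this
    unfold Ex; simp
  have hexp : Ex q (fun δ => (S δ * f δ - m) ^ 2) = Ex q (fun δ => (S δ * f δ) ^ 2) - m ^ 2 := by
    have h1 : (fun δ => (S δ * f δ - m) ^ 2)
        = fun δ => ((fun δ => (S δ * f δ) ^ 2) δ - (2 * m) * (fun δ => S δ * f δ) δ)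
          + (m ^ 2) * (fun _ => (1 : ℝ)) δ := by
      funext δ; ring
    rw [h1, Ex_add q (fun δ => (fun δ => (S δ * f δ) ^ 2) δ - (2 * m) * (fun δ => S δ * f δ) δ)
      (fun δ => (m ^ 2) * (fun _ => (1 : ℝ)) δ),
      Ex_sub q (fun δ => (S δ * f δ) ^ 2) (fun δ => (2 * m) * (fun δ => S δ * f δ) δ), Ex_mul, Ex_mul,
      Ex_one q hq1, hfS]
    ring
  have hm2 : m ^ 2 ≤ (I.card : ℝ) * (2 / η) := by
    have h1 : Ex q (fun δ => (S δ * f δ) ^ 2) ≤ Ex q (fun δ => S δ * S δ) := by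
      refine Ex_mono q hq0 _ _ fun δ => ?_
      have h0 := (hf δ).1
      have h1 := (hf δ).2
      have h2 : f δ ^ 2 ≤ 1 := by nlinarith
      have h3 : 0 ≤ S δ ^ 2 := sq_nonneg _
      calc (S δ * f δ) ^ 2 = S δ ^ 2 * f δ ^ 2 := by ring
        _ ≤ S δ ^ 2 * 1 := mul_le_mul_of_nonneg_left h2 h3
        _ = S δ * S δ := by ring
    linarith [hexp ▸ hvar]
  have h5 : (I.card : ℝ) * D ^ 2 ≤ 2 / η := by
    have h6 : (I.card : ℝ) * ((I.card : ℝ) * D ^ 2) ≤ (I.card : ℝ) * (2 / η) := by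
      calc (I.card : ℝ) * ((I.card : ℝ) * D ^ 2) = m ^ 2 := by rw [hm]; ring
        _ ≤ _ := hm2
    exact le_of_mul_le_mul_left h6 hcard
  have h7 : 2 / (η * (I.card : ℝ)) = (2 / η) / (I.card : ℝ) := by rw [div_div]
  rw [h7, le_div_iff₀ hcard]
  linarith

end Pool.H87.NA
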