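import Pool.Agent.Helper87.NA.St

/-! Project NA (MP_c6cf29_pr), module B2: neighbour bound for the noise operator. -/

set_option autoImplicit false

open MeasureTheory ProbabilityTheory Pool.H65.PS Pool.H65.PT Pool.TC

namespace Pool.H87.NA



/-- the one-coordinate kernel -/
private noncomputable def K_B2 (ρ : ℝ) (c d : Fin 3) : ℝ :=
  if d = c then (1 + (((3 : ℕ) : ℝ) - 1) * ρ) / ((3 : ℕ) : ℝ) else (1 - ρ) / ((3 : ℕ) : ℝ)

private lemma K_eq_B2 (ρ : ℝ) (c d : Fin 3) : K_B2 ρ c d = (if d = c then ρ else 0) + (1 - ρ) / 3 := by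
  unfold K_B2
  split_ifs
  · push_cast; ring
  · push_cast; ring

private lemma K_sum_B2 (ρ : ℝ) (c : Fin 3) : ∑ d, K_B2 ρ c d = 1 := by
  simp_rw [K_eq_B2]
  rw [Finset.sum_add_distrib, Finset.sum_ite_eq' Finset.univ c]
  simp
  ring

private lemma K_ge_B2 {ρ : ℝ} (h0 : 0 ≤ ρ) (c d : Fin 3) : (1 - ρ) / 3 ≤ K_B2 ρ c d := by
  rw [K_eq_B2]
  split_ifs <;> linarith

variable {n : ℕ}

private lemma Ex_upd_B2 (q : Fin n → Fin 3 → ℝ) (i : Fin n) (r : Fin 3 → ℝ)
    (g : (Fin n → Fin 3) → ℝ) (hq : ∑ c, q i c = 1) :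
    Ex (Function.update q i r) g = ∑ c, r c * Ex q (fun δ => g (Function.update δ i c)) := by
  set H : (Fin n → Fin 3) → ℝ := fun δ => ∏ k ∈ Finset.univ.erase i, q k (δ k) with hH
  have hHu : ∀ δ c, H (Function.update δ i c) = H δ := by
    intro δ c
    rw [hH]
    refine Finset.prod_congr rfl fun k hk => ?_
    rw [Function.update_of_ne (Finset.ne_of_mem_erase hk)]
  have h1 : ∀ δ : Fin n → Fin 3, ∏ k, Function.update q i r k (δ k) = r (δ i) * H δ := by
    intro δ
    rw [← Finset.mul_prod_erase Finset.univ _ (Finset.mem_univ i), Function.update_self]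
    congr 1
    refine Finset.prod_congr rfl fun k hk => ?_
    rw [Function.update_of_ne (Finset.ne_of_mem_erase hk)]
  have h2 : ∀ δ : Fin n → Fin 3, ∏ k, q k (δ k) = q i (δ i) * H δ := by
    intro δ
    rw [← Finset.mul_prod_erase Finset.univ _ (Finset.mem_univ i)]
  let e : (Fin n → Fin 3) × Fin 3 ≃ (Fin n → Fin 3) × Fin 3 :=
    { toFun := fun p => (Function.update p.1 i p.2, p.1 i)
      invFun := fun p => (Function.update p.1 i p.2, p.1 i)
      left_inv := fun p => by simp
      right_inv := fun p => by simp }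
  have h3 : ∑ c, r c * Ex q (fun δ => g (Function.update δ i c)) =
      ∑ p : (Fin n → Fin 3) × Fin 3, r p.2 * (q i (p.1 i) * H p.1 * g (Function.update p.1 i p.2)) := by
    rw [Fintype.sum_prod_type_right]
    refine Finset.sum_congr rfl fun c _ => ?_
    unfold Ex
    rw [Finset.mul_sum]
    refine Finset.sum_congr rfl fun δ _ => ?_
    rw [h2]
  rw [h3, ← Equiv.sum_comp e]
  have h4 : ∀ p : (Fin n → Fin 3) × Fin 3, r (e p).2 * (q i ((e p).1 i) * H (e p).1 *
      g (Function.update (e p).1 i (e p).2)) = r (p.1 i) * H p.1 * g p.1 * q i p.2 := by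
    intro p
    have e1 : (e p).2 = p.1 i := rfl
    have e2 : (e p).1 = Function.update p.1 i p.2 := rfl
    rw [e1, e2, Function.update_self, hHu, Function.update_idem, Function.update_eq_self]
    ring
  simp_rw [h4]
  rw [Fintype.sum_prod_type]
  simp_rw [← Finset.mul_sum, hq, mul_one]
  unfold Ex
  refine Finset.sum_congr rfl fun δ _ => ?_
  rw [h1]

private lemma pig_B2 (ω : Fin n → Fin 3) (i : Fin n) :
    ∃ c : Fin 3, n ≤ 3 * (insert i (Finset.univ.filter (fun k => k ≠ i ∧ ω k = c))).card := by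
  classical
  by_contra hcon
  push Not at hcon
  have h1 : ∀ c, 3 * ((Finset.univ.filter (fun k => k ≠ i ∧ ω k = c)).card + 1) < n := by
    intro c
    have := hcon c
    rwa [Finset.card_insert_of_notMem (by simp)] at this
  have h2 : (Finset.univ.erase i).card = ∑ c : Fin 3,
      ((Finset.univ.erase i).filter (fun k => ω k = c)).card :=
    Finset.card_eq_sum_card_fiberwise (fun k _ => Finset.mem_univ (ω k))
  have h3 : ∀ c : Fin 3, (Finset.univ.erase i).filter (fun k => ω k = c) =
      Finset.univ.filter (fun k => k ≠ i ∧ ω k = c) := by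
    intro c
    ext k
    simp
  simp_rw [h3] at h2
  rw [Finset.card_erase_of_mem (Finset.mem_univ i), Finset.card_univ, Fintype.card_fin,
    Fin.sum_univ_three] at h2
  have a0 := h1 0
  have a1 := h1 1
  have a2 := h1 2
  omega

theorem pB2 (hB1 : StB1) : StB2 := by
  intro n ρ f hn h0 h1 hf hf01 ω i a b
  obtain ⟨c, hc⟩ := pig_B2 ω i
  set I := insert i (Finset.univ.filter (fun k => k ≠ i ∧ ω k = c)) with hI
  set q₀ : Fin n → Fin 3 → ℝ := fun k => K_B2 ρ (ω k) with hq₀
  set q : Fin n → Fin 3 → ℝ := Function.update q₀ i (K_B2 ρ c) with hq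
  have hqi : q i = K_B2 ρ c := by rw [hq, Function.update_self]
  have hqk : ∀ k, ∃ d, q k = K_B2 ρ d := by
    intro k
    by_cases hk : k = i
    · exact ⟨c, by rw [hk, hqi]⟩
    · exact ⟨ω k, by rw [hq, Function.update_of_ne hk]⟩
  have hη : 0 < (1 - ρ) / 3 := by linarith
  have hTn : ∀ d, Tn ρ f (Function.update ω i d) =
      ∑ e, K_B2 ρ d e * Ex q (fun δ => f (Function.update δ i e)) := by
    intro d
    rw [← Ex_upd_B2 q i (K_B2 ρ d) f (by rw [hqi]; exact K_sum_B2 ρ c), hq, Function.update_idem]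
    unfold Tn Ex
    refine Finset.sum_congr rfl fun δ _ => ?_
    congr 1
    refine Finset.prod_congr rfl fun k _ => ?_
    by_cases hk : k = i
    · subst hk
      rw [Function.update_self, Function.update_self]
      rfl
    · rw [Function.update_of_ne hk, Function.update_of_ne hk]
      rfl
  have hB := hB1 n q (K_B2 ρ c) I i ((1 - ρ) / 3) f a b (by
      intro k d
      obtain ⟨e, he⟩ := hqk k
      rw [he]
      exact hη.le.trans (K_ge_B2 h0 e d)) (by
      intro k
      obtain ⟨e, he⟩ := hqk k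
      rw [he]
      exact K_sum_B2 ρ e) hη (fun d => K_ge_B2 h0 c d) (by
      intro k hk
      rw [hI, Finset.mem_insert, Finset.mem_filter] at hk
      rcases hk with rfl | ⟨-, hk1, hk2⟩
      · exact hqi
      · rw [hq, Function.update_of_ne hk1, hq₀]
        simp only
        rw [hk2]) (Finset.mem_insert_self _ _) hf hf01
  have hdiff : Tn ρ f (Function.update ω i a) - Tn ρ f (Function.update ω i b) =
      ρ * (Ex q (fun δ => f (Function.update δ i a)) - Ex q (fun δ => f (Function.update δ i b))) := by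
    rw [hTn, hTn]
    simp_rw [K_eq_B2, add_mul, Finset.sum_add_distrib, ite_mul, zero_mul]
    rw [Finset.sum_ite_eq' Finset.univ a, Finset.sum_ite_eq' Finset.univ b]
    simp
    ring
  rw [hdiff, abs_mul, abs_of_nonneg h0]
  have h2 : ρ * |Ex q (fun δ => f (Function.update δ i a)) - Ex q (fun δ => f (Function.update δ i b))| ≤
      1 * Real.sqrt (2 / ((1 - ρ) / 3 * (I.card : ℝ))) :=
    mul_le_mul h1.le hB (abs_nonneg _) zero_le_one
  rw [one_mul] at h2
  refine h2.trans (Real.sqrt_le_sqrt ?_)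
  have hnR : (0 : ℝ) < n := by exact_mod_cast hn
  have hcR : (n : ℝ) ≤ 3 * (I.card : ℝ) := by exact_mod_cast hc
  have hI0 : (0 : ℝ) < (I.card : ℝ) := by linarith
  have h1ρ : 0 < 1 - ρ := by linarith
  rw [div_le_div_iff₀ (by positivity) (by positivity)]
  have := mul_le_mul_of_nonneg_left hcR h1ρ.le
  nlinarith

end Pool.H87.NA
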