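import Pool.Agent.Helper87.NA.St
import Pool.Agent.Helper65.PT.Clt

set_option autoImplicit false

open MeasureTheory ProbabilityTheory Pool.H65.PS Pool.H65.PT Pool.TC

namespace Pool.H87.NA

theorem B3_cnt_update {n : ℕ} (ω : Fin n → Fin 3) (i : Fin n) (b c : Fin 3) :
    (cnt (Function.update ω i b) c : ℝ) = cnt ω c + (if b = c then 1 else 0) - (if ω i = c then 1 else 0) := by
  have h : ∀ (η : Fin n → Fin 3), (cnt η c : ℝ) = ∑ k, (if η k = c then (1 : ℝ) else 0) := by
    intro η
    unfold cnt
    rw [Finset.sum_boole]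
  rw [h, h, ← Finset.add_sum_erase _ _ (Finset.mem_univ i),
    ← Finset.add_sum_erase Finset.univ (fun k => if ω k = c then (1 : ℝ) else 0) (Finset.mem_univ i)]
  have e : ∑ x ∈ Finset.univ.erase i, (if Function.update ω i b x = c then (1 : ℝ) else 0)
      = ∑ x ∈ Finset.univ.erase i, if ω x = c then (1 : ℝ) else 0 := by
    refine Finset.sum_congr rfl fun k hk => ?_
    rw [Function.update_of_ne (Finset.ne_of_mem_erase hk)]
  rw [e, Function.update_self]
  ring

theorem B3_cnt_sum {n : ℕ} (ω : Fin n → Fin 3) : ∑ a, (cnt ω a : ℝ) = n := by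
  have h := Clt_cnt ω (fun _ => (1 : ℝ))
  simpa using h

/-- equal counts: a permutation. -/
theorem B3_perm {n : ℕ} (ω ω' : Fin n → Fin 3) (h : ∀ a, cnt ω a = cnt ω' a) :
    ∃ π : Equiv.Perm (Fin n), (fun i => ω (π i)) = ω' := by
  classical
  have hc : ∀ a, Fintype.card {i // ω' i = a} = Fintype.card {i // ω i = a} := by
    intro a
    have := h a
    unfold cnt at this
    rw [Fintype.card_subtype, Fintype.card_subtype, this]
  let e : ∀ a, {i // ω' i = a} ≃ {i // ω i = a} := fun a => Fintype.equivOfCardEq (hc a)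
  let π : Fin n ≃ Fin n := (Equiv.sigmaFiberEquiv ω').symm.trans
    ((Equiv.sigmaCongrRight e).trans (Equiv.sigmaFiberEquiv ω))
  refine ⟨π, funext fun i => ?_⟩
  exact (e (ω' i) ⟨i, rfl⟩).2

theorem B3_first (n : ℕ) (Δ : ℝ) (h : (Fin n → Fin 3) → ℝ) (hΔ : 0 ≤ Δ) (hA : Anon h)
    (hu : ∀ (ω : Fin n → Fin 3) (i : Fin n) (a b : Fin 3),
      |h (Function.update ω i a) - h (Function.update ω i b)| ≤ Δ) :
    ∀ (d : ℕ) (ω ω' : Fin n → Fin 3), ∑ a, |(cnt ω a : ℝ) - (cnt ω' a : ℝ)| ≤ d →
      |h ω - h ω'| ≤ Δ * ∑ a, |(cnt ω a : ℝ) - (cnt ω' a : ℝ)| := by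
  intro d
  induction d with
  | zero =>
    intro ω ω' hd
    have h0 : ∀ a, cnt ω a = cnt ω' a := by
      intro a
      have h1 : |(cnt ω a : ℝ) - (cnt ω' a : ℝ)| ≤ 0 :=
        (Finset.single_le_sum (f := fun a => |(cnt ω a : ℝ) - (cnt ω' a : ℝ)|) (fun _ _ => abs_nonneg _)
          (Finset.mem_univ a)).trans (by simpa using hd)
      have h2 := abs_eq_zero.1 (le_antisymm h1 (abs_nonneg _))
      have h3 : (cnt ω a : ℝ) = cnt ω' a := by linarith
      exact_mod_cast h3
    obtain ⟨π, hπ⟩ := B3_perm ω ω' h0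
    have := hA π ω
    rw [hπ] at this
    rw [this, sub_self, abs_zero]
    positivity
  | succ d ih =>
    intro ω ω' hd
    by_cases h0 : ∀ a, cnt ω a = cnt ω' a
    · obtain ⟨π, hπ⟩ := B3_perm ω ω' h0
      have := hA π ω
      rw [hπ] at this
      rw [this, sub_self, abs_zero]
      positivity
    · -- a colour with too many votes and one with too few
      have hsum : ∑ a, ((cnt ω a : ℝ) - cnt ω' a) = 0 := by
        rw [Finset.sum_sub_distrib, B3_cnt_sum, B3_cnt_sum, sub_self]
      have hab : (∃ a, cnt ω' a < cnt ω a) ∧ ∃ b, cnt ω b < cnt ω' b := by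
        constructor
        · by_contra hcon
          push Not at hcon
          apply h0
          intro a
          have h1 : ∀ c ∈ Finset.univ, (cnt ω c : ℝ) - cnt ω' c ≤ 0 := fun c _ => by
            have : (cnt ω c : ℝ) ≤ cnt ω' c := by exact_mod_cast hcon c
            linarith
          have h2 := (Finset.sum_eq_zero_iff_of_nonpos h1).1 hsum a (Finset.mem_univ a)
          have h3 : (cnt ω a : ℝ) = cnt ω' a := by linarith
          exact_mod_cast h3
        · by_contra hcon
          push Not at hcon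
          apply h0
          intro a
          have h1 : ∀ c ∈ Finset.univ, 0 ≤ (cnt ω c : ℝ) - cnt ω' c := fun c _ => by
            have : (cnt ω' c : ℝ) ≤ cnt ω c := by exact_mod_cast hcon c
            linarith
          have h2 := (Finset.sum_eq_zero_iff_of_nonneg h1).1 hsum a (Finset.mem_univ a)
          have h3 : (cnt ω a : ℝ) = cnt ω' a := by linarith
          exact_mod_cast h3
      obtain ⟨⟨a, ha⟩, ⟨b, hb⟩⟩ := hab
      have hne : a ≠ b := by
        intro h
        rw [h] at ha
        omega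
      have hi : ∃ i, ω i = a := by
        have : 0 < cnt ω a := by omega
        unfold cnt at this
        obtain ⟨i, hi⟩ := Finset.card_pos.1 this
        exact ⟨i, (Finset.mem_filter.1 hi).2⟩
      obtain ⟨i, hi⟩ := hi
      set η := Function.update ω i b with hη
      have hstep : |h ω - h η| ≤ Δ := by
        have := hu ω i a b
        rw [← hi, Function.update_eq_self] at this
        exact this
      have hdist : ∑ c, |(cnt η c : ℝ) - (cnt ω' c : ℝ)| = ∑ c, |(cnt ω c : ℝ) - (cnt ω' c : ℝ)| - 2 := by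
        have hterm : ∀ c, |(cnt η c : ℝ) - (cnt ω' c : ℝ)| = |(cnt ω c : ℝ) - (cnt ω' c : ℝ)|
            - (if c = a then 1 else 0) - (if c = b then 1 else 0) := by
          intro c
          rw [hη, B3_cnt_update, hi]
          have ha' : (cnt ω' a : ℝ) + 1 ≤ cnt ω a := by exact_mod_cast ha
          have hb' : (cnt ω b : ℝ) + 1 ≤ cnt ω' b := by exact_mod_cast hb
          by_cases hca : c = a
          · have hcb : c ≠ b := fun h => hne (hca.symm.trans h)
            have hac : a = c := hca.symm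
            have hbc : ¬ b = c := fun h => hcb h.symm
            rw [if_neg hbc, if_pos hac, if_pos hca, if_neg hcb, hca, abs_of_nonneg (by linarith),
              abs_of_nonneg (by linarith)]
            ring
          · by_cases hcb : c = b
            · have hac : ¬ a = c := fun h => hca h.symm
              have hbc : b = c := hcb.symm
              rw [if_pos hbc, if_neg hac, if_neg hca, if_pos hcb, hcb, abs_of_nonpos (by linarith),
                abs_of_nonpos (by linarith)]
              ring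
            · have hac : ¬ a = c := fun h => hca h.symm
              have hbc : ¬ b = c := fun h => hcb h.symm
              rw [if_neg hbc, if_neg hac, if_neg hca, if_neg hcb]
              simp
        simp only [hterm, Finset.sum_sub_distrib]
        simp
        ring
      have hle : ∑ c, |(cnt η c : ℝ) - (cnt ω' c : ℝ)| ≤ d := by
        rw [hdist]
        push_cast at hd
        linarith
      have h1 := ih η ω' hle
      rw [hdist] at h1
      calc |h ω - h ω'| = |(h ω - h η) + (h η - h ω')| := by ring_nf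
        _ ≤ |h ω - h η| + |h η - h ω'| := abs_add_le _ _
        _ ≤ Δ + Δ * (∑ c, |(cnt ω c : ℝ) - (cnt ω' c : ℝ)| - 2) := add_le_add hstep h1
        _ ≤ Δ * ∑ c, |(cnt ω c : ℝ) - (cnt ω' c : ℝ)| := by nlinarith

theorem B3_vv (a b : Fin 3) : ∑ i, vv a i * vv b i = 3 * (if a = b then 1 else 0) - 1 := by
  have h2 : Real.sqrt 2 * Real.sqrt 2 = 2 := Real.mul_self_sqrt (by norm_num)
  have h6 : Real.sqrt 6 * Real.sqrt 6 = 6 := Real.mul_self_sqrt (by norm_num)
  rw [Fin.sum_univ_two]
  unfold vv
  fin_cases a <;> fin_cases b <;> simp <;> nlinarith [h2, h6]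

theorem B3_vv_abs (a : Fin 3) (i : Fin 2) : |vv a i| ≤ 3 / 2 := by
  have h2 : Real.sqrt 2 ≤ 3 / 2 := by
    rw [Real.sqrt_le_left (by norm_num)]
    norm_num
  have h6 : Real.sqrt 6 ≤ 5 / 2 := by
    rw [Real.sqrt_le_left (by norm_num)]
    norm_num
  have p2 := Real.sqrt_nonneg 2
  have p6 := Real.sqrt_nonneg 6
  rw [abs_le]
  fin_cases a <;> fin_cases i
  · constructor
    · show -(3 / 2) ≤ Real.sqrt 2
      linarith
    · show Real.sqrt 2 ≤ 3 / 2
      linarith
  · constructor
    · show -(3 / 2) ≤ (0 : ℝ)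
      norm_num
    · show (0 : ℝ) ≤ 3 / 2
      norm_num
  · constructor
    · show -(3 / 2) ≤ -(Real.sqrt 2) / 2
      linarith
    · show -(Real.sqrt 2) / 2 ≤ 3 / 2
      linarith
  · constructor
    · show -(3 / 2) ≤ Real.sqrt 6 / 2
      linarith
    · show Real.sqrt 6 / 2 ≤ 3 / 2
      linarith
  · constructor
    · show -(3 / 2) ≤ -(Real.sqrt 2) / 2
      linarith
    · show -(Real.sqrt 2) / 2 ≤ 3 / 2
      linarith
  · constructor
    · show -(3 / 2) ≤ -(Real.sqrt 6) / 2
      linarith
    · show -(Real.sqrt 6) / 2 ≤ 3 / 2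
      linarith

theorem B3_cnt {n : ℕ} (hn : 0 < n) (ω : Fin n → Fin 3) (a : Fin 3) :
    3 * (cnt ω a : ℝ) = n + Real.sqrt n * ∑ i, XX ω i * vv a i := by
  have hs : Real.sqrt n ≠ 0 := by positivity
  have e : Real.sqrt n * ∑ i, XX ω i * vv a i = ∑ k, ∑ i, vv (ω k) i * vv a i := by
    unfold XX
    rw [Finset.mul_sum, Finset.sum_comm]
    refine Finset.sum_congr rfl fun i _ => ?_
    rw [← Finset.sum_mul]
    field_simp
  rw [e]
  simp only [B3_vv]
  have h : (cnt ω a : ℝ) = ∑ k, (if ω k = a then (1 : ℝ) else 0) := by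
    unfold cnt
    rw [Finset.sum_boole]
  rw [Finset.sum_sub_distrib, ← Finset.mul_sum, ← h]
  simp

theorem pB3 : StB3 := by
  refine ⟨fun n Δ h hΔ hA hu ω ω' => ?_, fun n ω ω' a => ?_⟩
  · obtain ⟨d, hd⟩ := exists_nat_ge (∑ a, |(cnt ω a : ℝ) - (cnt ω' a : ℝ)|)
    exact B3_first n Δ h hΔ hA hu d ω ω' hd
  · rcases Nat.eq_zero_or_pos n with hn | hn
    · subst hn
      have : ω = ω' := Subsingleton.elim _ _
      rw [this]
      simp
    · have h1 := B3_cnt hn ω a
      have h2 := B3_cnt hn ω' a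
      have hs : 0 ≤ Real.sqrt n := Real.sqrt_nonneg _
      have h3 : 3 * ((cnt ω a : ℝ) - cnt ω' a) = Real.sqrt n * ∑ i, (XX ω - XX ω') i * vv a i := by
        have e : ∑ i, (XX ω - XX ω') i * vv a i = ∑ i, XX ω i * vv a i - ∑ i, XX ω' i * vv a i := by
          rw [← Finset.sum_sub_distrib]
          exact Finset.sum_congr rfl fun i _ => by simp only [Pi.sub_apply]; ring
        rw [e]
        linarith
      have h4 : |∑ i, (XX ω - XX ω') i * vv a i| ≤ 3 * ‖XX ω - XX ω'‖ := by
        calc |∑ i, (XX ω - XX ω') i * vv a i| ≤ ∑ i, |(XX ω - XX ω') i * vv a i| :=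
              Finset.abs_sum_le_sum_abs _ _
          _ ≤ ∑ _i : Fin 2, ‖XX ω - XX ω'‖ * (3 / 2) := by
              refine Finset.sum_le_sum fun i _ => ?_
              rw [abs_mul]
              refine mul_le_mul ?_ (B3_vv_abs a i) (abs_nonneg _) (norm_nonneg _)
              rw [← Real.norm_eq_abs]
              exact norm_le_pi_norm _ i
          _ = 3 * ‖XX ω - XX ω'‖ := by
              simp
              ring
      have h5 : 3 * |(cnt ω a : ℝ) - cnt ω' a| ≤ 3 * (Real.sqrt n * ‖XX ω - XX ω'‖) := by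
        calc 3 * |(cnt ω a : ℝ) - cnt ω' a| = |3 * ((cnt ω a : ℝ) - cnt ω' a)| := by
              rw [abs_mul, abs_of_pos (by norm_num : (0 : ℝ) < 3)]
          _ = Real.sqrt n * |∑ i, (XX ω - XX ω') i * vv a i| := by rw [h3, abs_mul, abs_of_nonneg hs]
          _ ≤ Real.sqrt n * (3 * ‖XX ω - XX ω'‖) := mul_le_mul_of_nonneg_left h4 hs
          _ = _ := by ring
      linarith

end Pool.H87.NA
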