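import Pool.Agent.Helper87.NA.St

/-! Project NA, module B4: the noise operator makes anonymous functions Lipschitz. -/

set_option autoImplicit false

open MeasureTheory ProbabilityTheory Pool.H65.PS Pool.H65.PT Pool.TC

namespace Pool.H87.NA

private theorem B4_anon {n : ℕ} (ρ : ℝ) (f : (Fin n → Fin 3) → ℝ) (hf : Anon f) :
    Anon (Tn ρ f) := by
  intro π ω
  unfold Tn
  refine Fintype.sum_equiv (Equiv.arrowCongr π (Equiv.refl (Fin 3))) _ _ ?_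
  intro δ
  have h1 : f ((Equiv.arrowCongr π (Equiv.refl (Fin 3))) δ) = f δ := hf π.symm δ
  rw [h1]
  congr 1
  symm
  rw [← Equiv.prod_comp π]
  apply Finset.prod_congr rfl
  intro i _
  have h2 : (Equiv.arrowCongr π (Equiv.refl (Fin 3))) δ (π i) = δ i := by
    simp [Equiv.arrowCongr]
  rw [h2]

private theorem B4_num {n : ℕ} {ρ : ℝ} (hn : 1 ≤ n) (hρ : ρ < 1) :
    Real.sqrt (18 / ((1 - ρ) * n)) * (3 * Real.sqrt n) ≤ 13 / Real.sqrt (1 - ρ) := by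
  have hn0 : (0 : ℝ) < n := by exact_mod_cast hn
  have h1 : 0 < 1 - ρ := by linarith
  have e : Real.sqrt (18 / ((1 - ρ) * n)) = Real.sqrt 18 / (Real.sqrt (1 - ρ) * Real.sqrt n) := by
    rw [Real.sqrt_div (by norm_num), Real.sqrt_mul h1.le]
  rw [e]
  have hs1 : 0 < Real.sqrt (1 - ρ) := Real.sqrt_pos.2 h1
  have hs2 : 0 < Real.sqrt n := Real.sqrt_pos.2 hn0
  have e2 : Real.sqrt 18 / (Real.sqrt (1 - ρ) * Real.sqrt n) * (3 * Real.sqrt n) =
      3 * Real.sqrt 18 / Real.sqrt (1 - ρ) := by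
    field_simp
  rw [e2]
  apply div_le_div_of_nonneg_right _ hs1.le
  have h3 : Real.sqrt 18 ≤ 13 / 3 := by
    rw [Real.sqrt_le_left (by norm_num)]
    norm_num
  linarith

theorem pB4 (h2 : StB2) (h3 : StB3) : StB4 := by
  intro n ρ f hρ0 hρ1 hf hf01 ω ω'
  rcases Nat.eq_zero_or_pos n with hn | hn
  · subst hn
    have : ω = ω' := Subsingleton.elim _ _
    rw [this, sub_self, abs_zero, sub_self, norm_zero, mul_zero]
  · have hA := B4_anon ρ f hf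
    have h4 := h3.1 n (Real.sqrt (18 / ((1 - ρ) * n))) (Tn ρ f) (Real.sqrt_nonneg _) hA
      (h2 n ρ f hn hρ0 hρ1 hf hf01) ω ω'
    have h5 : ∑ a, |(cnt ω a : ℝ) - (cnt ω' a : ℝ)| ≤ 3 * (Real.sqrt n * ‖XX ω - XX ω'‖) := by
      calc ∑ a, |(cnt ω a : ℝ) - (cnt ω' a : ℝ)|
          ≤ ∑ _a : Fin 3, Real.sqrt n * ‖XX ω - XX ω'‖ :=
            Finset.sum_le_sum (fun a _ => h3.2 n ω ω' a)
        _ = 3 * (Real.sqrt n * ‖XX ω - XX ω'‖) := by
            rw [Finset.sum_const, Finset.card_univ, Fintype.card_fin, nsmul_eq_mul]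
            norm_num
    calc |Tn ρ f ω - Tn ρ f ω'|
        ≤ Real.sqrt (18 / ((1 - ρ) * n)) * ∑ a, |(cnt ω a : ℝ) - (cnt ω' a : ℝ)| := h4
      _ ≤ Real.sqrt (18 / ((1 - ρ) * n)) * (3 * (Real.sqrt n * ‖XX ω - XX ω'‖)) :=
          mul_le_mul_of_nonneg_left h5 (Real.sqrt_nonneg _)
      _ = Real.sqrt (18 / ((1 - ρ) * n)) * (3 * Real.sqrt n) * ‖XX ω - XX ω'‖ := by ring
      _ ≤ 13 / Real.sqrt (1 - ρ) * ‖XX ω - XX ω'‖ :=
          mul_le_mul_of_nonneg_right (B4_num hn hρ1) (norm_nonneg _)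

end Pool.H87.NA
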