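import Pool.Agent.Helper87.NA.St
import Pool.Agent.Helper65.PT.Clt
import Pool.Agent.Helper65.PT.Law

set_option autoImplicit false

open MeasureTheory ProbabilityTheory Pool.H65.PS Pool.H65.PT Pool.TC

namespace Pool.H87.NA

/-- `x ↦ ∑ x_a v_a`. -/
noncomputable def C1_A (x : Fin 3 → ℝ) : Fin 2 → ℝ := fun i => ∑ a, x a * vv a i

/-- the map on pairs. -/
noncomputable def C1_M (x : CltE 3) : (Fin 2 → ℝ) × (Fin 2 → ℝ) :=
  (C1_A (fun a => x (Sum.inl a)), C1_A (fun a => x (Sum.inr a)))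

theorem C1_M_cont : Continuous C1_M := by
  unfold C1_M C1_A
  refine Continuous.prodMk ?_ ?_
  · refine continuous_pi fun i => continuous_finsetSum _ fun a _ => ?_
    exact (Clt_coord_cont (m := 3) (Sum.inl a)).mul continuous_const
  · refine continuous_pi fun i => continuous_finsetSum _ fun a _ => ?_
    exact (Clt_coord_cont (m := 3) (Sum.inr a)).mul continuous_const

theorem C1_vv_sum (i : Fin 2) : ∑ a, vv a i = 0 := by
  unfold vv
  rw [Fin.sum_univ_three]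
  fin_cases i
  · simp
    ring
  · simp
    ring

theorem C1_sub (x : Fin 3 → ℝ) (c : ℝ) : C1_A (fun a => x a - c) = C1_A x := by
  funext i
  unfold C1_A
  simp only [sub_mul, Finset.sum_sub_distrib, ← Finset.mul_sum, C1_vv_sum, mul_zero, sub_zero]

theorem C1_smul (x : Fin 3 → ℝ) (c : ℝ) : C1_A (fun a => c * x a) = c • C1_A x := by
  funext i
  unfold C1_A
  simp only [Pi.smul_apply, smul_eq_mul, Finset.mul_sum]
  exact Finset.sum_congr rfl fun a _ => by ring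

theorem C1_XX {n : ℕ} (ω : Fin n → Fin 3) (c : ℝ) :
    C1_A (fun a => (Real.sqrt n)⁻¹ * ((cnt ω a : ℝ) - c)) = XX ω := by
  rw [C1_smul (fun a => (cnt ω a : ℝ) - c), C1_sub]
  funext i
  unfold C1_A XX
  simp only [Pi.smul_apply, smul_eq_mul]
  congr 1
  exact Clt_cnt ω (fun a => vv a i)

/-- the orthonormal map `B`. -/
noncomputable def C1_B (g : Fin 3 → ℝ) : Fin 2 → ℝ := (Real.sqrt ((3 : ℕ) : ℝ))⁻¹ • C1_A g

theorem C1_mp : MeasurePreserving C1_B (gam (Fin 3)) (gam (Fin 2)) := by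
  have h := Law_mp (κ := Fin 3) (κ' := Fin 2) (fun a i => (Real.sqrt ((3 : ℕ) : ℝ))⁻¹ * vv a i) (by
    intro j k
    have h3 : (Real.sqrt ((3 : ℕ) : ℝ))⁻¹ * (Real.sqrt ((3 : ℕ) : ℝ))⁻¹ = 3⁻¹ := by
      rw [← mul_inv, Real.mul_self_sqrt (by norm_num)]
      norm_num
    have e : ∀ a : Fin 3, (Real.sqrt ((3 : ℕ) : ℝ))⁻¹ * vv a j * ((Real.sqrt ((3 : ℕ) : ℝ))⁻¹ * vv a k)
        = 3⁻¹ * (vv a j * vv a k) := by
      intro a
      rw [← h3]
      ring
    simp only [e]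
    have h2 : Real.sqrt 2 * Real.sqrt 2 = 2 := Real.mul_self_sqrt (by norm_num)
    have h6 : Real.sqrt 6 * Real.sqrt 6 = 6 := Real.mul_self_sqrt (by norm_num)
    rw [Fin.sum_univ_three]
    unfold vv
    fin_cases j <;> fin_cases k <;> simp <;> nlinarith [h2, h6])
  convert h using 1
  funext g i
  rw [Law_lin_apply]
  unfold C1_B C1_A
  simp only [Pi.smul_apply, smul_eq_mul, Finset.mul_sum]
  exact Finset.sum_congr rfl fun a _ => by ring

theorem C1_B_lin (s t : ℝ) (g h : Fin 3 → ℝ) : C1_B (s • g + t • h) = s • C1_B g + t • C1_B h := by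
  funext i
  unfold C1_B C1_A
  simp only [Pi.smul_apply, smul_eq_mul, Pi.add_apply]
  have : ∑ x, (s * g x + t * h x) * vv x i = s * ∑ x, g x * vv x i + t * ∑ x, h x * vv x i := by
    rw [Finset.mul_sum, Finset.mul_sum, ← Finset.sum_add_distrib]
    exact Finset.sum_congr rfl fun x _ => by ring
  rw [this]
  ring

theorem C1_G (ρ : ℝ) (p : (Fin 3 → ℝ) × (Fin 3 → ℝ)) :
    C1_M (Clt_G 3 ρ p) = (C1_B p.1, ρ • C1_B p.1 + Real.sqrt (1 - ρ ^ 2) • C1_B p.2) := by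
  unfold C1_M Clt_G
  simp only [Sum.elim_inl, Sum.elim_inr]
  have key : ∀ x : Fin 3 → ℝ, C1_A (fun a => (Real.sqrt ((3 : ℕ) : ℝ))⁻¹ * Clt_c x a) = C1_B x := by
    intro x
    rw [C1_smul (fun a => Clt_c x a)]
    unfold Clt_c C1_B
    rw [C1_sub]
  rw [key, key, C1_B_lin]

theorem pC1 : StC1 := by
  intro ρ h0 h1 ψ hψ hB
  obtain ⟨B, hB⟩ := hB
  have hm : 0 < 3 := by norm_num
  have := fun n => Clt_prob (m := 3) hm ρ h0 h1 n
  have := Clt_L_prob 3 ρ
  let P : ℕ → ProbabilityMeasure (CltE 3) := fun n => ⟨Clt_P 3 ρ n, inferInstance⟩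
  let L : ProbabilityMeasure (CltE 3) := ⟨Clt_L 3 ρ, inferInstance⟩
  have hw : Filter.Tendsto P Filter.atTop (nhds L) := by
    refine ProbabilityMeasure.tendsto_iff_tendsto_charFun.2 fun t => ?_
    change Filter.Tendsto (fun n => charFun (Clt_P 3 ρ n) t) Filter.atTop
      (nhds (charFun (Clt_L 3 ρ) t))
    rw [Clt_charFun_L hm ρ h0 h1]
    simp_rw [Clt_charFun hm ρ h0 h1]
    have hmo := Clt_moments hm ρ (Clt_c (fun a => t (Sum.inl a))) (Clt_c (fun a => t (Sum.inr a)))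
      (Clt_c_sum hm _) (Clt_c_sum hm _)
    exact Clt_pow (fun c : Fin 3 × Fin 3 => ((3 : ℕ) : ℝ)⁻¹ * Clt_K 3 ρ c.1 c.2)
      (fun c => Clt_c (fun a => t (Sum.inl a)) c.1 + Clt_c (fun a => t (Sum.inr a)) c.2) hmo.1 hmo.2.1
  let Ψ : BoundedContinuousFunction (CltE 3) ℝ :=
    BoundedContinuousFunction.ofNormedAddCommGroup (fun x => ψ (C1_M x)) (hψ.comp C1_M_cont) B
      (fun x => by rw [Real.norm_eq_abs]; exact hB _)
  have h := (ProbabilityMeasure.tendsto_iff_forall_integral_tendsto.1 hw) Ψ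
  have hL : ∫ x, Ψ x ∂(L : Measure (CltE 3)) = ∫ p : (Fin 2 → ℝ) × (Fin 2 → ℝ),
      ψ (p.1, ρ • p.1 + Real.sqrt (1 - ρ ^ 2) • p.2) ∂((gam (Fin 2)).prod (gam (Fin 2))) := by
    change ∫ x, ψ (C1_M x) ∂(Clt_L 3 ρ) = _
    unfold Clt_L
    have hcm : Continuous fun x => ψ (C1_M x) := hψ.comp C1_M_cont
    rw [integral_map (f := fun x => ψ (C1_M x)) (Clt_G_cont 3 ρ).measurable.aemeasurable
      hcm.aestronglyMeasurable]
    simp only [C1_G]
    have hmp : MeasurePreserving (Prod.map C1_B C1_B) ((gam (Fin 3)).prod (gam (Fin 3)))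
        ((gam (Fin 2)).prod (gam (Fin 2))) := C1_mp.prod C1_mp
    rw [← hmp.map_eq, integral_map hmp.measurable.aemeasurable]
    · rfl
    · refine Continuous.aestronglyMeasurable (hψ.comp ?_)
      fun_prop
  have hP : ∀ n : ℕ, ∫ x, Ψ x ∂(P n : Measure (CltE 3)) = (((3 : ℕ) : ℝ) ^ n)⁻¹ *
      ∑ ω : Fin n → Fin 3, ∑ δ : Fin n → Fin 3, KK ρ ω δ * ψ (XX ω, XX δ) := by
    intro n
    change ∫ x, ψ (C1_M x) ∂(Clt_P 3 ρ n) = _
    rw [Clt_integral hm ρ h0 h1, Fintype.sum_prod_type, Finset.mul_sum]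
    refine Finset.sum_congr rfl fun ω _ => ?_
    rw [Finset.mul_sum]
    refine Finset.sum_congr rfl fun δ _ => ?_
    have e1 : C1_M (Clt_S 3 n (ω, δ)) = (XX ω, XX δ) := by
      unfold C1_M Clt_S
      simp only [Sum.elim_inl, Sum.elim_inr]
      rw [C1_XX, C1_XX]
    rw [e1, smul_eq_mul]
    unfold Clt_w KK Clt_K
    rw [Finset.prod_mul_distrib, Finset.prod_const, Finset.card_univ, Fintype.card_fin, inv_pow]
    ring
  simp only [hP, hL] at h
  exact h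

end Pool.H87.NA
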