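import Pool.Agent.Helper87.NA.M_A1

set_option autoImplicit false

open MeasureTheory ProbabilityTheory Pool.H65.PS Pool.H65.PT Pool.TC

namespace Pool.H87.NA

/-- joint likelihood. -/
noncomputable def C2_l (w : ℝ) (a b : Fin 2 → ℝ) (z : (Fin 2 → ℝ) × (Fin 2 → ℝ)) : ℝ :=
  lk w a (w • z.1) * lk w b (w • z.2)

theorem C2_l_pos (w : ℝ) (a b : Fin 2 → ℝ) (z : (Fin 2 → ℝ) × (Fin 2 → ℝ)) : 0 < C2_l w a b z :=
  mul_pos (A1_lk_pos _ _ _) (A1_lk_pos _ _ _)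

theorem C2_lk_cont (w : ℝ) : Continuous fun p : (Fin 2 → ℝ) × (Fin 2 → ℝ) => lk w p.1 p.2 := by
  unfold lk dot
  fun_prop

theorem C2_l_cont (w : ℝ) : Continuous fun p : ((Fin 2 → ℝ) × (Fin 2 → ℝ)) × ((Fin 2 → ℝ) × (Fin 2 → ℝ)) =>
    C2_l w p.1.1 p.1.2 p.2 := by
  unfold C2_l
  refine Continuous.mul ?_ ?_
  · exact (C2_lk_cont w).comp (by fun_prop : Continuous fun p :
      ((Fin 2 → ℝ) × (Fin 2 → ℝ)) × ((Fin 2 → ℝ) × (Fin 2 → ℝ)) => (p.1.1, w • p.2.1))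
  · exact (C2_lk_cont w).comp (by fun_prop : Continuous fun p :
      ((Fin 2 → ℝ) × (Fin 2 → ℝ)) × ((Fin 2 → ℝ) × (Fin 2 → ℝ)) => (p.1.2, w • p.2.2))

theorem C2_l_int (w : ℝ) (hw : 0 < w) (a b : Fin 2 → ℝ) :
    Integrable (C2_l w a b) ((gam (Fin 2)).prod (gam (Fin 2))) :=
  (A1_int_lk w hw a).mul_prod (A1_int_lk w hw b)

theorem C2_lk_one (w : ℝ) (hw : 0 < w) (a : Fin 2 → ℝ) : ∫ z, lk w a (w • z) ∂(gam (Fin 2)) = 1 := by
  have h := A1_cm w hw a (fun _ => 1) measurable_const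
  simp only [mul_one] at h
  rw [← h]
  simp

theorem C2_l_one (w : ℝ) (hw : 0 < w) (a b : Fin 2 → ℝ) :
    ∫ z, C2_l w a b z ∂((gam (Fin 2)).prod (gam (Fin 2))) = 1 := by
  unfold C2_l
  rw [integral_prod_mul (fun z => lk w a (w • z)) (fun z => lk w b (w • z)), C2_lk_one w hw, C2_lk_one w hw,
    one_mul]

/-- bound for the density, uniformly in `a`. -/
theorem C2_lk_le (w : ℝ) (hw : 0 < w) (a z : Fin 2 → ℝ) : lk w a (w • z) ≤ Real.exp (dot z z / 2) := by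
  rw [A1_lk w hw]
  refine Real.exp_le_exp.2 ?_
  set c := w⁻¹ • a
  unfold dot
  simp only [Fin.sum_univ_two]
  nlinarith [sq_nonneg (c 0 - z 0), sq_nonneg (c 1 - z 1)]

/-- Cameron-Martin in both variables. -/
theorem C2_cm (w : ℝ) (hw : 0 < w) (a b : Fin 2 → ℝ) (F : (Fin 2 → ℝ) → (Fin 2 → ℝ) → ℝ)
    (hF : Measurable (Function.uncurry F)) (hB : ∀ x y, |F x y| ≤ 1) :
    ∫ z : (Fin 2 → ℝ) × (Fin 2 → ℝ), F (a + w • z.1) (b + w • z.2) ∂((gam (Fin 2)).prod (gam (Fin 2)))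
      = ∫ z : (Fin 2 → ℝ) × (Fin 2 → ℝ), F (w • z.1) (w • z.2) * C2_l w a b z
        ∂((gam (Fin 2)).prod (gam (Fin 2))) := by
  have m1 : Measurable fun z : (Fin 2 → ℝ) × (Fin 2 → ℝ) => F (a + w • z.1) (b + w • z.2) :=
    hF.comp (by fun_prop : Measurable fun z : (Fin 2 → ℝ) × (Fin 2 → ℝ) => (a + w • z.1, b + w • z.2))
  have m2 : Measurable fun z : (Fin 2 → ℝ) × (Fin 2 → ℝ) => F (w • z.1) (w • z.2) :=
    hF.comp (by fun_prop : Measurable fun z : (Fin 2 → ℝ) × (Fin 2 → ℝ) => (w • z.1, w • z.2))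
  have i1 : Integrable (fun z : (Fin 2 → ℝ) × (Fin 2 → ℝ) => F (a + w • z.1) (b + w • z.2))
      ((gam (Fin 2)).prod (gam (Fin 2))) :=
    Integrable.of_bound (C := 1) m1.aestronglyMeasurable
      (Filter.Eventually.of_forall fun z => by rw [Real.norm_eq_abs]; exact hB _ _)
  have i2 : Integrable (fun z : (Fin 2 → ℝ) × (Fin 2 → ℝ) => F (w • z.1) (w • z.2) * C2_l w a b z)
      ((gam (Fin 2)).prod (gam (Fin 2))) :=
    (C2_l_int w hw a b).bdd_mul (c := 1) m2.aestronglyMeasurable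
      (Filter.Eventually.of_forall fun z => by rw [Real.norm_eq_abs]; exact hB _ _)
  rw [integral_prod _ i1, integral_prod _ i2]
  have s1 : ∀ x : Fin 2 → ℝ, ∫ y, F (a + w • x) (b + w • y) ∂(gam (Fin 2))
      = ∫ y, lk w b (w • y) * F (a + w • x) (w • y) ∂(gam (Fin 2)) := by
    intro x
    exact A1_cm w hw b (fun y => F (a + w • x) y)
      (hF.comp (by fun_prop : Measurable fun y : Fin 2 → ℝ => (a + w • x, y)))
  simp only [s1]
  have hm : Measurable fun x' : Fin 2 → ℝ => ∫ y, lk w b (w • y) * F x' (w • y) ∂(gam (Fin 2)) := by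
    have h2 : Measurable fun p : (Fin 2 → ℝ) × (Fin 2 → ℝ) => lk w b (w • p.2) * F p.1 (w • p.2) := by
      refine Measurable.mul ?_ ?_
      · unfold lk dot
        fun_prop
      · exact hF.comp (by fun_prop : Measurable fun p : (Fin 2 → ℝ) × (Fin 2 → ℝ) => (p.1, w • p.2))
    exact (h2.stronglyMeasurable.integral_prod_right (ν := gam (Fin 2))).measurable
  have s2 := A1_cm w hw a (fun x' => ∫ y, lk w b (w • y) * F x' (w • y) ∂(gam (Fin 2))) hm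
  rw [s2]
  refine integral_congr_ae (Filter.Eventually.of_forall fun x => ?_)
  simp only
  rw [← integral_const_mul]
  refine integral_congr_ae (Filter.Eventually.of_forall fun y => ?_)
  simp only [C2_l]
  ring

/-- total mass of the kernel. -/
theorem C2_KK (n : ℕ) (ρ : ℝ) (ω : Fin n → Fin 3) : ∑ δ, KK ρ ω δ = 1 :=
  plm_K_sum 3 n (by norm_num) ρ ω

theorem C2_KK_nonneg (n : ℕ) (ρ : ℝ) (h0 : 0 ≤ ρ) (h1 : ρ ≤ 1) (ω δ : Fin n → Fin 3) : 0 ≤ KK ρ ω δ :=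
  plm_K_nonneg 3 n (by norm_num) ρ h0 h1 ω δ

/-- the densities. -/
noncomputable def C2_D (ρ w : ℝ) (n : ℕ) (z : (Fin 2 → ℝ) × (Fin 2 → ℝ)) : ℝ :=
  (((3 : ℕ) : ℝ) ^ n)⁻¹ * ∑ ω : Fin n → Fin 3, ∑ δ : Fin n → Fin 3, KK ρ ω δ * C2_l w (XX ω) (XX δ) z

/-- the limit density. -/
noncomputable def C2_d (ρ w : ℝ) (z : (Fin 2 → ℝ) × (Fin 2 → ℝ)) : ℝ :=
  ∫ p : (Fin 2 → ℝ) × (Fin 2 → ℝ), C2_l w p.1 (ρ • p.1 + Real.sqrt (1 - ρ ^ 2) • p.2) z
    ∂((gam (Fin 2)).prod (gam (Fin 2)))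

theorem C2_zcont (w : ℝ) (a b : Fin 2 → ℝ) : Continuous (C2_l w a b) :=
  (C2_l_cont w).comp (by fun_prop : Continuous fun z : (Fin 2 → ℝ) × (Fin 2 → ℝ) => ((a, b), z))

theorem C2_EP (n : ℕ) (ρ w : ℝ) (hw : 0 < w) (F : (Fin 2 → ℝ) → (Fin 2 → ℝ) → ℝ)
    (hF : Measurable (Function.uncurry F)) (hB : ∀ x y, |F x y| ≤ 1) :
    EP n ρ w F = ∫ z : (Fin 2 → ℝ) × (Fin 2 → ℝ), F (w • z.1) (w • z.2) * C2_D ρ w n z
        ∂((gam (Fin 2)).prod (gam (Fin 2))) := by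
  have m2 : Measurable fun z : (Fin 2 → ℝ) × (Fin 2 → ℝ) => F (w • z.1) (w • z.2) :=
    hF.comp (by fun_prop : Measurable fun z : (Fin 2 → ℝ) × (Fin 2 → ℝ) => (w • z.1, w • z.2))
  have i2 : ∀ ω δ : Fin n → Fin 3, Integrable (fun z : (Fin 2 → ℝ) × (Fin 2 → ℝ) =>
      KK ρ ω δ * (F (w • z.1) (w • z.2) * C2_l w (XX ω) (XX δ) z)) ((gam (Fin 2)).prod (gam (Fin 2))) :=
    fun ω δ => ((C2_l_int w hw _ _).bdd_mul (c := 1) m2.aestronglyMeasurable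
      (Filter.Eventually.of_forall fun z => by rw [Real.norm_eq_abs]; exact hB _ _)).const_mul _
  unfold EP C2_D
  have e : ∀ z : (Fin 2 → ℝ) × (Fin 2 → ℝ), F (w • z.1) (w • z.2) * ((((3 : ℕ) : ℝ) ^ n)⁻¹ *
      ∑ ω : Fin n → Fin 3, ∑ δ : Fin n → Fin 3, KK ρ ω δ * C2_l w (XX ω) (XX δ) z)
      = (((3 : ℕ) : ℝ) ^ n)⁻¹ * ∑ ω : Fin n → Fin 3, ∑ δ : Fin n → Fin 3,
        KK ρ ω δ * (F (w • z.1) (w • z.2) * C2_l w (XX ω) (XX δ) z) := by
    intro z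
    simp only [Finset.mul_sum]
    refine Finset.sum_congr rfl fun ω _ => Finset.sum_congr rfl fun δ _ => ?_
    ring
  simp only [e]
  rw [integral_const_mul, integral_finsetSum _ fun ω _ => integrable_finsetSum _ fun δ _ => i2 ω δ]
  congr 1
  refine Finset.sum_congr rfl fun ω _ => ?_
  rw [integral_finsetSum _ fun δ _ => i2 ω δ]
  refine Finset.sum_congr rfl fun δ _ => ?_
  rw [integral_const_mul, C2_cm w hw _ _ F hF hB]

/-- the joint function is integrable on the product of all variables. -/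
theorem C2_joint (ρ w : ℝ) (hw : 0 < w) :
    Integrable (Function.uncurry fun (p z : (Fin 2 → ℝ) × (Fin 2 → ℝ)) =>
      C2_l w p.1 (ρ • p.1 + Real.sqrt (1 - ρ ^ 2) • p.2) z)
      (((gam (Fin 2)).prod (gam (Fin 2))).prod ((gam (Fin 2)).prod (gam (Fin 2)))) := by
  have hp : Continuous fun q : ((Fin 2 → ℝ) × (Fin 2 → ℝ)) × ((Fin 2 → ℝ) × (Fin 2 → ℝ)) =>
      (((q.1.1, ρ • q.1.1 + Real.sqrt (1 - ρ ^ 2) • q.1.2), q.2) :
        ((Fin 2 → ℝ) × (Fin 2 → ℝ)) × ((Fin 2 → ℝ) × (Fin 2 → ℝ))) := by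
    fun_prop
  have hc0 : Continuous fun q : ((Fin 2 → ℝ) × (Fin 2 → ℝ)) × ((Fin 2 → ℝ) × (Fin 2 → ℝ)) =>
      C2_l w q.1.1 (ρ • q.1.1 + Real.sqrt (1 - ρ ^ 2) • q.1.2) q.2 := (C2_l_cont w).comp hp
  have hc : Continuous (Function.uncurry fun (p z : (Fin 2 → ℝ) × (Fin 2 → ℝ)) =>
      C2_l w p.1 (ρ • p.1 + Real.sqrt (1 - ρ ^ 2) • p.2) z) := hc0
  rw [integrable_prod_iff hc.aestronglyMeasurable]
  refine ⟨Filter.Eventually.of_forall fun p => ?_, ?_⟩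
  · exact C2_l_int w hw p.1 (ρ • p.1 + Real.sqrt (1 - ρ ^ 2) • p.2)
  refine (integrable_const (1 : ℝ)).congr (Filter.Eventually.of_forall fun p => ?_)
  simp only [Function.uncurry]
  have : ∀ z : (Fin 2 → ℝ) × (Fin 2 → ℝ), ‖C2_l w p.1 (ρ • p.1 + Real.sqrt (1 - ρ ^ 2) • p.2) z‖
      = C2_l w p.1 (ρ • p.1 + Real.sqrt (1 - ρ ^ 2) • p.2) z :=
    fun z => Real.norm_of_nonneg (C2_l_pos _ _ _ _).le
  simp only [this]
  exact (C2_l_one w hw p.1 (ρ • p.1 + Real.sqrt (1 - ρ ^ 2) • p.2)).symm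

theorem C2_d_int (ρ w : ℝ) (hw : 0 < w) : Integrable (C2_d ρ w) ((gam (Fin 2)).prod (gam (Fin 2))) :=
  (C2_joint ρ w hw).integral_prod_right

theorem C2_d_meas (ρ w : ℝ) : Measurable (C2_d ρ w) := by
  have hp : Continuous fun q : ((Fin 2 → ℝ) × (Fin 2 → ℝ)) × ((Fin 2 → ℝ) × (Fin 2 → ℝ)) =>
      (((q.2.1, ρ • q.2.1 + Real.sqrt (1 - ρ ^ 2) • q.2.2), q.1) :
        ((Fin 2 → ℝ) × (Fin 2 → ℝ)) × ((Fin 2 → ℝ) × (Fin 2 → ℝ))) := by
    fun_prop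
  have hc0 : Continuous fun q : ((Fin 2 → ℝ) × (Fin 2 → ℝ)) × ((Fin 2 → ℝ) × (Fin 2 → ℝ)) =>
      C2_l w q.2.1 (ρ • q.2.1 + Real.sqrt (1 - ρ ^ 2) • q.2.2) q.1 := (C2_l_cont w).comp hp
  have hc : Continuous (Function.uncurry fun (z p : (Fin 2 → ℝ) × (Fin 2 → ℝ)) =>
      C2_l w p.1 (ρ • p.1 + Real.sqrt (1 - ρ ^ 2) • p.2) z) := hc0
  exact (hc.stronglyMeasurable.integral_prod_right (ν := (gam (Fin 2)).prod (gam (Fin 2)))).measurable

theorem C2_EG (ρ w : ℝ) (hw : 0 < w) (F : (Fin 2 → ℝ) → (Fin 2 → ℝ) → ℝ)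
    (hF : Measurable (Function.uncurry F)) (hB : ∀ x y, |F x y| ≤ 1) :
    EG ρ w F = ∫ z : (Fin 2 → ℝ) × (Fin 2 → ℝ), F (w • z.1) (w • z.2) * C2_d ρ w z
        ∂((gam (Fin 2)).prod (gam (Fin 2))) := by
  have m2 : Measurable fun z : (Fin 2 → ℝ) × (Fin 2 → ℝ) => F (w • z.1) (w • z.2) :=
    hF.comp (by fun_prop : Measurable fun z : (Fin 2 → ℝ) × (Fin 2 → ℝ) => (w • z.1, w • z.2))
  unfold EG
  have e : ∀ p : (Fin 2 → ℝ) × (Fin 2 → ℝ), (∫ z : (Fin 2 → ℝ) × (Fin 2 → ℝ),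
      F (p.1 + w • z.1) (ρ • p.1 + Real.sqrt (1 - ρ ^ 2) • p.2 + w • z.2)
      ∂((gam (Fin 2)).prod (gam (Fin 2)))) = ∫ z : (Fin 2 → ℝ) × (Fin 2 → ℝ), F (w • z.1) (w • z.2) *
        C2_l w p.1 (ρ • p.1 + Real.sqrt (1 - ρ ^ 2) • p.2) z ∂((gam (Fin 2)).prod (gam (Fin 2))) :=
    fun p => C2_cm w hw _ _ F hF hB
  simp only [e]
  have hi : Integrable (Function.uncurry fun (p z : (Fin 2 → ℝ) × (Fin 2 → ℝ)) => F (w • z.1) (w • z.2) *
      C2_l w p.1 (ρ • p.1 + Real.sqrt (1 - ρ ^ 2) • p.2) z)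
      (((gam (Fin 2)).prod (gam (Fin 2))).prod ((gam (Fin 2)).prod (gam (Fin 2)))) := by
    have := (C2_joint ρ w hw).bdd_mul (c := 1)
      (f := fun q : ((Fin 2 → ℝ) × (Fin 2 → ℝ)) × ((Fin 2 → ℝ) × (Fin 2 → ℝ)) => F (w • q.2.1) (w • q.2.2))
      (m2.comp measurable_snd).aestronglyMeasurable
      (Filter.Eventually.of_forall fun z => by rw [Real.norm_eq_abs]; exact hB _ _)
    exact this
  rw [integral_integral_swap hi]
  refine integral_congr_ae (Filter.Eventually.of_forall fun z => ?_)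
  simp only
  rw [integral_const_mul]
  rfl

theorem pC2 (hC1 : StC1) (hC2s : StC2s) : StC2 := by
  intro ρ w ε h0 h1 hw hε
  have hDm : ∀ k, Measurable (C2_D ρ w k) := by
    intro k
    unfold C2_D
    refine Measurable.const_mul (Finset.measurable_sum _ fun ω _ => Finset.measurable_sum _ fun δ _ => ?_) _
    exact (C2_zcont w _ _).measurable.const_mul _
  have hDi : ∀ k, Integrable (C2_D ρ w k) ((gam (Fin 2)).prod (gam (Fin 2))) := by
    intro k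
    unfold C2_D
    exact (integrable_finsetSum _ fun ω _ => integrable_finsetSum _ fun δ _ =>
      (C2_l_int w hw _ _).const_mul _).const_mul _
  have hD1 : ∀ k, ∫ z, C2_D ρ w k z ∂((gam (Fin 2)).prod (gam (Fin 2))) = 1 := by
    intro k
    unfold C2_D
    rw [integral_const_mul, integral_finsetSum _ fun ω _ => integrable_finsetSum _ fun δ _ =>
      (C2_l_int w hw _ _).const_mul _]
    have : ∀ ω : Fin k → Fin 3, ∫ z, ∑ δ : Fin k → Fin 3, KK ρ ω δ * C2_l w (XX ω) (XX δ) z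
        ∂((gam (Fin 2)).prod (gam (Fin 2))) = 1 := by
      intro ω
      rw [integral_finsetSum _ fun δ _ => (C2_l_int w hw _ _).const_mul _]
      simp only [integral_const_mul, C2_l_one w hw, mul_one]
      exact C2_KK k ρ ω
    simp only [this, Finset.sum_const, Finset.card_univ, Fintype.card_fun, Fintype.card_fin, nsmul_eq_mul, mul_one]
    push_cast
    exact inv_mul_cancel₀ (by positivity)
  have hd1 : ∫ z, C2_d ρ w z ∂((gam (Fin 2)).prod (gam (Fin 2))) = 1 := by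
    have h := C2_EG ρ w hw (fun _ _ => 1) (by unfold Function.uncurry; exact measurable_const) (by simp)
    simp only [one_mul] at h
    rw [← h]
    unfold EG
    simp
  have hlim : ∀ z, Filter.Tendsto (fun k => C2_D ρ w k z) Filter.atTop (nhds (C2_d ρ w z)) := by
    intro z
    refine hC1 ρ h0 h1 (fun p => C2_l w p.1 p.2 z) ?_ ?_
    · exact (C2_l_cont w).comp (by fun_prop : Continuous fun p : (Fin 2 → ℝ) × (Fin 2 → ℝ) => (p, z))
    · refine ⟨Real.exp (dot z.1 z.1 / 2) * Real.exp (dot z.2 z.2 / 2), fun p => ?_⟩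
      rw [abs_of_pos (C2_l_pos _ _ _ _)]
      exact mul_le_mul (C2_lk_le w hw _ _) (C2_lk_le w hw _ _) (A1_lk_pos _ _ _).le (Real.exp_pos _).le
  have key := hC2s _ ((gam (Fin 2)).prod (gam (Fin 2))) (C2_D ρ w) (C2_d ρ w) hDm (C2_d_meas ρ w)
    (fun k z => mul_nonneg (by positivity) (Finset.sum_nonneg fun ω _ => Finset.sum_nonneg fun δ _ =>
      mul_nonneg (C2_KK_nonneg k ρ h0 h1 ω δ) (C2_l_pos _ _ _ _).le))
    (fun z => integral_nonneg fun p => (C2_l_pos _ _ _ _).le) hDi (C2_d_int ρ w hw) hD1 hd1 hlim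
  have key2 := key.eventually_le_const (show (0 : ℝ) < ε from hε)
  obtain ⟨n0, hn0⟩ := Filter.eventually_atTop.1 key2
  refine ⟨n0, fun n hn F hF hB => ?_⟩
  have m2 : Measurable fun z : (Fin 2 → ℝ) × (Fin 2 → ℝ) => F (w • z.1) (w • z.2) :=
    hF.comp (by fun_prop : Measurable fun z : (Fin 2 → ℝ) × (Fin 2 → ℝ) => (w • z.1, w • z.2))
  have j1 : Integrable (fun z => F (w • z.1) (w • z.2) * C2_D ρ w n z) ((gam (Fin 2)).prod (gam (Fin 2))) :=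
    (hDi n).bdd_mul (c := 1) m2.aestronglyMeasurable
      (Filter.Eventually.of_forall fun z => by rw [Real.norm_eq_abs]; exact hB _ _)
  have j2 : Integrable (fun z => F (w • z.1) (w • z.2) * C2_d ρ w z) ((gam (Fin 2)).prod (gam (Fin 2))) :=
    (C2_d_int ρ w hw).bdd_mul (c := 1) m2.aestronglyMeasurable
      (Filter.Eventually.of_forall fun z => by rw [Real.norm_eq_abs]; exact hB _ _)
  rw [C2_EP n ρ w hw F hF hB, C2_EG ρ w hw F hF hB, ← integral_sub j1 j2]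
  calc |∫ z, (F (w • z.1) (w • z.2) * C2_D ρ w n z - F (w • z.1) (w • z.2) * C2_d ρ w z)
        ∂((gam (Fin 2)).prod (gam (Fin 2)))|
      ≤ ∫ z, |F (w • z.1) (w • z.2) * C2_D ρ w n z - F (w • z.1) (w • z.2) * C2_d ρ w z|
        ∂((gam (Fin 2)).prod (gam (Fin 2))) := abs_integral_le_integral_abs
    _ ≤ ∫ z, |C2_D ρ w n z - C2_d ρ w z| ∂((gam (Fin 2)).prod (gam (Fin 2))) := by
        refine integral_mono (j1.sub j2).abs ((hDi n).sub (C2_d_int ρ w hw)).abs fun z => ?_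
        simp only
        rw [← mul_sub, abs_mul]
        exact mul_le_of_le_one_left (abs_nonneg _) (hB _ _)
    _ ≤ ε := hn0 n hn

end Pool.H87.NA
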