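import Pool.Agent.Helper87.NA.St

set_option autoImplicit false

open MeasureTheory ProbabilityTheory Pool.H65.PS Pool.H65.PT Pool.TC

namespace Pool.H87.NA

theorem pC2s : StC2s := by
  intro α _ μ _ D d hD hd hD0 hd0 hDi hdi hD1 hd1 hlim
  have e : ∀ k, ∫ x, |D k x - d x| ∂μ = 2 * ∫ x, max (d x - D k x) 0 ∂μ := by
    intro k
    have hi : Integrable (fun x => max (d x - D k x) 0) μ := (hdi.sub (hDi k)).pos_part
    have e1 : ∀ x, |D k x - d x| = (D k x - d x) + 2 * max (d x - D k x) 0 := by
      intro x
      rcases le_total (d x) (D k x) with h | h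
      · rw [abs_of_nonneg (by linarith), max_eq_right (by linarith)]
        ring
      · rw [abs_of_nonpos (by linarith), max_eq_left (by linarith)]
        ring
    simp only [e1]
    have e2 : ∫ x, (D k x - d x) + 2 * max (d x - D k x) 0 ∂μ
        = ∫ x, (D k x - d x) ∂μ + ∫ x, 2 * max (d x - D k x) 0 ∂μ :=
      integral_add ((hDi k).sub hdi) (hi.const_mul 2)
    rw [e2, integral_sub (hDi k) hdi, hD1, hd1, integral_const_mul]
    ring
  simp only [e]
  have h0 : Filter.Tendsto (fun k => ∫ x, max (d x - D k x) 0 ∂μ) Filter.atTop (nhds (∫ _x, (0 : ℝ) ∂μ)) := by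
    refine tendsto_integral_of_dominated_convergence d (fun k => ?_) hdi (fun k => ?_) ?_
    · exact ((hd.sub (hD k)).max measurable_const).aestronglyMeasurable
    · refine Filter.Eventually.of_forall fun x => ?_
      rw [Real.norm_of_nonneg (le_max_right _ _)]
      exact max_le (by linarith [hD0 k x]) (hd0 x)
    · refine Filter.Eventually.of_forall fun x => ?_
      have h := ((tendsto_const_nhds (x := d x)).sub (hlim x)).max (tendsto_const_nhds (x := (0 : ℝ)))
      simpa using h
  have := h0.const_mul 2
  simpa using this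

end Pool.H87.NA
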