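import Pool.Agent.Helper87.NA.St
import Pool.Agent.Helper65.PT.Oub
import Pool.Agent.Helper65.PT.Pmo

set_option autoImplicit false

open MeasureTheory ProbabilityTheory Pool.H65.PS Pool.H65.PT Pool.TC

namespace Pool.H87.NA

theorem F_cell_bm (j : Fin 3) : Bm (cellF j : (Fin 3 → ℝ) → ℝ) := by
  refine ⟨cellF_measurable j, 1, fun x => ?_⟩
  rw [abs_of_nonneg (cellF_nonneg j x)]
  exact cellF_le_one j x

theorem F_Lam_mono (s t : ℝ) (hs : 0 ≤ s) (hst : s ≤ t) (ht : t ≤ 1) : Lam 3 s ≤ Lam 3 t := by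
  unfold Lam
  exact Finset.sum_le_sum fun j _ => sg_mono (F_cell_bm j) s t hs hst ht

theorem F_Lam_one : Lam 3 1 = 1 := by
  unfold Lam
  have : ∀ j : Fin 3, sg 1 (cellF j) (cellF j) = 1 / 3 := by
    intro j
    rw [sg_one (F_cell_bm j) (F_cell_bm j)]
    have e : ∀ x : Fin 3 → ℝ, cellF j x * cellF j x = cellF j x := by
      intro x
      unfold cellF
      split_ifs <;> simp
    simp only [e]
    have := cellF_mean (m := 3) (by norm_num) j
    rw [this]
    norm_num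
  simp only [this, Fin.sum_univ_three]
  norm_num

theorem F_simplex (x y : Fin 3 → ℝ) (hx : x ∈ stdSimplex ℝ (Fin 3)) (hy : y ∈ stdSimplex ℝ (Fin 3)) :
    ∑ j, x j * y j ≤ 1 := by
  obtain ⟨hx0, hx1⟩ := hx
  obtain ⟨hy0, hy1⟩ := hy
  have hy2 : ∀ j, y j ≤ 1 := fun j => by
    rw [← hy1]
    exact Finset.single_le_sum (fun k _ => hy0 k) (Finset.mem_univ j)
  calc ∑ j, x j * y j ≤ ∑ j, x j := Finset.sum_le_sum fun j _ => mul_le_of_le_one_right (hx0 j) (hy2 j)
    _ = 1 := hx1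

/-- the trivial bound. -/
theorem F_triv {n : ℕ} (ρ : ℝ) (h0 : 0 ≤ ρ) (h1 : ρ ≤ 1) (f : (Fin n → Fin 3) → Fin 3 → ℝ)
    (hf : ∀ ω, f ω ∈ stdSimplex ℝ (Fin 3)) : ∑ j, stab ρ (fun ω => f ω j) ≤ 1 := by
  have e : ∑ j, stab ρ (fun ω => f ω j) = (((3 : ℕ) : ℝ) ^ n)⁻¹ * ∑ ω : Fin n → Fin 3, ∑ δ : Fin n → Fin 3,
      plm_K 3 n ρ ω δ * ∑ j, f ω j * f δ j := by
    unfold stab plm_K
    rw [← Finset.mul_sum, Finset.sum_comm]
    congr 1
    refine Finset.sum_congr rfl fun ω _ => ?_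
    rw [Finset.sum_comm]
    refine Finset.sum_congr rfl fun δ _ => ?_
    rw [Finset.mul_sum]
    exact Finset.sum_congr rfl fun j _ => by ring
  rw [e]
  have h2 : ∀ ω : Fin n → Fin 3, ∑ δ : Fin n → Fin 3, plm_K 3 n ρ ω δ * ∑ j, f ω j * f δ j ≤ 1 := by
    intro ω
    rw [← plm_K_sum 3 n (by norm_num) ρ ω]
    exact Finset.sum_le_sum fun δ _ => mul_le_of_le_one_right (plm_K_nonneg 3 n (by norm_num) ρ h0 h1 ω δ)
      (F_simplex _ _ (hf ω) (hf δ))
  calc (((3 : ℕ) : ℝ) ^ n)⁻¹ * ∑ ω : Fin n → Fin 3, ∑ δ : Fin n → Fin 3,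
      plm_K 3 n ρ ω δ * ∑ j, f ω j * f δ j
      ≤ (((3 : ℕ) : ℝ) ^ n)⁻¹ * ∑ _ω : Fin n → Fin 3, (1 : ℝ) :=
        mul_le_mul_of_nonneg_left (Finset.sum_le_sum fun ω _ => h2 ω) (by positivity)
    _ = 1 := by
        simp only [Finset.sum_const, Finset.card_univ, Fintype.card_fun, Fintype.card_fin, nsmul_eq_mul, mul_one]
        push_cast
        exact inv_mul_cancel₀ (by positivity)

theorem F_av {n : ℕ} (f : (Fin n → Fin 3) → ℝ) (hf : ∀ ω, 0 ≤ f ω ∧ f ω ≤ 1) : |av f - 1 / 3| ≤ 1 := by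
  have h1 : 0 ≤ av f := dsc_av_nonneg fun ω => (hf ω).1
  have h2 : av f ≤ 1 := by
    have := dsc_av_nonneg (f := fun ω => 1 - f ω) fun ω => by linarith [(hf ω).2]
    rw [dsc_av_sub, dsc_av_const (by norm_num)] at this
    linarith
  rw [abs_le]
  constructor <;> linarith

theorem pF : StF := by
  intro hA0 hA2a hA3 hB4 hC2 hC3 hP hQ hP9 hP0a ρ ε h0 h1 hε
  have hnn : ∀ (n : ℕ) (f : (Fin n → Fin 3) → Fin 3 → ℝ), 0 ≤ ∑ j, ((1 - ρ ^ 2) * (av (fun ω => f ω j) - 1 / 3) ^ 2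
        + ρ ^ 2 * av (fun ω => (AA (fun ω => f ω j) ω - 1 / 3) ^ 2)) := by
    intro n f
    have hr : 0 ≤ 1 - ρ ^ 2 := by nlinarith
    refine Finset.sum_nonneg fun j _ => ?_
    have := dsc_av_nonneg (f := fun ω => (AA (fun ω => f ω j) ω - 1 / 3) ^ 2) fun ω => sq_nonneg _
    positivity
  set ε' : ℝ := min (ε / 64) 1 with hε'def
  have hε' : 0 < ε' := lt_min (by linarith) one_pos
  have hε'1 : ε' ≤ ε / 64 := min_le_left _ _
  have hε'2 : ε' ≤ 1 := min_le_right _ _
  have hpl := plur_limit 3 (by norm_num) ρ h0 h1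
  obtain ⟨n1, hn1⟩ := Filter.eventually_atTop.1 (hpl.eventually_const_le (show Lam 3 ρ - ε' < Lam 3 ρ by linarith))
  rcases h1.eq_or_lt with h1e | h1l
  · refine ⟨n1, fun n hn f hf _ => ?_⟩
    have a1 := F_triv ρ h0 h1 f hf
    have a2 := hn1 n hn
    have a3 := hnn n f
    rw [h1e, F_Lam_one] at a2
    rw [h1e] at a1 a3 ⊢
    linarith
  · set L : ℝ := 13 / Real.sqrt (1 - ρ) with hL
    have hsp : 0 < Real.sqrt (1 - ρ) := Real.sqrt_pos.2 (by linarith)
    have hL0 : 0 < L := by positivity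
    set w : ℝ := ε / (192 * L) with hw
    have hw0 : 0 < w := by positivity
    have hwL : 24 * L * w ≤ ε / 8 := by
      have : 24 * L * w = ε / 8 := by
        rw [hw]
        field_simp
        norm_num
      exact this.le
    obtain ⟨n2, hn2⟩ := hC2 ρ w ε' h0 h1 hw0 hε'
    obtain ⟨n3, hn3⟩ := hQ ρ w ε' h0 h1 hw0 hε'
    refine ⟨max n1 (max n2 n3), fun n hn f hf hanon => ?_⟩
    have m1 := hn1 n (le_trans (le_max_left _ _) hn)
    have m2 := hn2 n (le_trans (le_trans (le_max_left _ _) (le_max_right _ _)) hn)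
    have m3 := hn3 n (le_trans (le_trans (le_max_right _ _) (le_max_right _ _)) hn)
    have hf01 : ∀ j ω, 0 ≤ f ω j ∧ f ω j ≤ 1 := by
      intro j ω
      refine ⟨(hf ω).1 j, ?_⟩
      rw [← (hf ω).2]
      exact Finset.single_le_sum (fun k _ => (hf ω).1 k) (Finset.mem_univ j)
    have hgb : ∀ j x, 0 ≤ gg w (fun ω => f ω j) x ∧ gg w (fun ω => f ω j) x ≤ 1 := fun j x =>
      (hA0 n w hw0).1 _ x 0 1 (fun ω => (hf01 j ω).1) (fun ω => (hf01 j ω).2)
    have hgc : ∀ j, Continuous (gg w (fun ω => f ω j)) := fun j => (hA0 n w hw0).2.1 _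
    have hgbm : ∀ j, Bm (gg w (fun ω => f ω j)) := fun j =>
      ⟨(hgc j).measurable, 1, fun x => by rw [abs_of_nonneg (hgb j x).1]; exact (hgb j x).2⟩
    set ρ' : ℝ := ρ / (1 + w ^ 2) with hρ'
    have hden : (1 : ℝ) ≤ 1 + w ^ 2 := by nlinarith [sq_nonneg w]
    have hρ'0 : 0 ≤ ρ' := by positivity
    have hρ'le : ρ' ≤ ρ := div_le_self h0 hden
    have hρ'1 : ρ' < 1 := lt_of_le_of_lt hρ'le h1l
    set g' : (Fin 2 → ℝ) → Fin 3 → ℝ := fun x j => dil w (gg w (fun ω => f ω j)) x with hg'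
    have hdc : ∀ j, Continuous (dil w (gg w (fun ω => f ω j))) := fun j => by
      unfold dil
      exact (hgc j).comp (continuous_const_smul _)
    have hPt : Pt g' := by
      refine ⟨fun j => (hdc j).measurable, fun x => ⟨fun j => (hgb j _).1, ?_⟩⟩
      exact (hA0 n w hw0).2.2 f _ fun ω => (hf ω).2
    -- step 1: stability against the plane
    have s1 : ∀ j, stab ρ (fun ω => f ω j) ≤ sg ρ' (dil w (gg w (fun ω => f ω j))) (dil w (gg w (fun ω => f ω j)))
        + ε' + 8 * L * w := by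
      intro j
      have b1 := hB4 n ρ (fun ω => f ω j) h0 h1l (hanon j) (hf01 j)
      have b2 := hB4 n ρ (RR w (fun ω => f ω j)) h0 h1l ((hA2a n w hw0).2.2.1 _ (hanon j))
        ((hA2a n w hw0).2.1 _ (hf01 j))
      have b3 := hA3 n ρ w L (fun ω => f ω j) hw0 hL0.le (hf01 j) b1 b2
      have b4 := m2 (fun x y => gg w (fun ω => f ω j) x * gg w (fun ω => f ω j) y)
        (((hgc j).comp continuous_fst).mul ((hgc j).comp continuous_snd)).measurable (fun x y => by
          rw [abs_mul, abs_of_nonneg (hgb j x).1, abs_of_nonneg (hgb j y).1]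
          exact mul_le_one₀ (hgb j x).2 (hgb j y).1 (hgb j y).2)
      rw [(hC3 ρ w h0 h1 hw0).2 _ _ (hgbm j) (hgbm j)] at b4
      have c3 := (abs_le.1 b3).2
      have c4 := (abs_le.1 b4).2
      linarith
    have s2 : ∑ j, stab ρ (fun ω => f ω j) ≤ St ρ' g' + 3 * ε' + 24 * L * w := by
      have := Finset.sum_le_sum fun j (_ : j ∈ Finset.univ) => s1 j
      refine this.trans (le_of_eq ?_)
      unfold St
      rw [Finset.sum_add_distrib, Finset.sum_add_distrib]
      simp only [Finset.sum_const, Finset.card_univ, Fintype.card_fin, nsmul_eq_mul, hg']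
      push_cast
      ring
    -- step 2: the plane
    have s3 := hP ρ' g' hρ'0 hρ'1 hPt
    obtain ⟨hcm, hrm, -⟩ := hP0a
    have s4 : ∀ j, ρ' ^ 2 * ∫ s, (al g' j s - 1 / 3) ^ 2 ∂rm + (1 - ρ' ^ 2) * (∫ s, (al g' j s - 1 / 3) ∂rm) ^ 2
        ≤ ((1 - ρ ^ 2) * (av (fun ω => f ω j) - 1 / 3) ^ 2
        + ρ ^ 2 * av (fun ω => (AA (fun ω => f ω j) ω - 1 / 3) ^ 2)) + 4 * ε' := by
      intro j
      obtain ⟨q1, q2⟩ := m3 (fun ω => f ω j) (hf01 j)
      have hal : ∀ s, al g' j s = ∫ θ, dil w (gg w (fun ω => f ω j)) (pt2 s θ) ∂cm := fun s => rfl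
      have halm : Measurable fun s => al g' j s := by
        simp only [hal]
        have hc : Continuous (Function.uncurry fun s θ : ℝ => dil w (gg w (fun ω => f ω j)) (pt2 s θ)) := by
          refine (hdc j).comp (?_ : Continuous fun q : ℝ × ℝ => pt2 q.1 q.2)
          unfold pt2
          refine continuous_pi fun i => ?_
          fin_cases i
          · show Continuous fun q : ℝ × ℝ => q.1 * Real.cos q.2
            fun_prop
          · show Continuous fun q : ℝ × ℝ => q.1 * Real.sin q.2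
            fun_prop
        exact (hc.stronglyMeasurable.integral_prod_right (ν := cm)).measurable
      have halb : ∀ s, |al g' j s - 1 / 3| ≤ 2 := by
        intro s
        have h2 : |al g' j s| ≤ 1 := by
          rw [hal]
          have := norm_integral_le_of_norm_le_const (μ := cm) (C := 1)
            (f := fun θ => dil w (gg w (fun ω => f ω j)) (pt2 s θ))
            (Filter.Eventually.of_forall fun θ => by
              rw [Real.norm_eq_abs]
              unfold dil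
              rw [abs_of_nonneg (hgb j _).1]
              exact (hgb j _).2)
          rw [Real.norm_eq_abs] at this
          simpa using this
        rw [abs_le] at h2 ⊢
        constructor <;> linarith [h2.1, h2.2]
      simp only [← hal] at q1 q2
      set D := ∫ s, (al g' j s - 1 / 3) ^ 2 ∂rm with hD
      set M := ∫ s, (al g' j s - 1 / 3) ∂rm with hM
      set V := av (fun ω => (AA (fun ω => f ω j) ω - 1 / 3) ^ 2) with hV
      set a := av (fun ω => f ω j) - 1 / 3 with ha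
      have hJ : M ^ 2 ≤ D := by
        have := oub_sq_le (μ := rm) (g := fun s => al g' j s - 1 / 3)
          ((halm.sub_const _)) ⟨2, halb⟩
        exact this
      have ha1 : |a| ≤ 1 := F_av _ (hf01 j)
      have hM2 : M ^ 2 ≤ a ^ 2 + 3 * ε' := by
        obtain ⟨c1, c2⟩ := abs_le.1 q2
        obtain ⟨c3, c4⟩ := abs_le.1 ha1
        have e : M ^ 2 = a ^ 2 + 2 * a * (M - a) + (M - a) ^ 2 := by ring
        have e1 : 2 * a * (M - a) ≤ 2 * ε' := by
          have : a * (M - a) ≤ |a| * |M - a| := by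
            rw [← abs_mul]
            exact le_abs_self _
          have h3 : |a| * |M - a| ≤ 1 * ε' := mul_le_mul ha1 q2 (abs_nonneg _) zero_le_one
          linarith
        have e2 : (M - a) ^ 2 ≤ ε' := by
          have : (M - a) ^ 2 = |M - a| * |M - a| := by rw [← abs_mul, ← sq, abs_of_nonneg (sq_nonneg _)]
          rw [this]
          calc |M - a| * |M - a| ≤ ε' * 1 := mul_le_mul q2 (q2.trans hε'2) (abs_nonneg _) hε'.le
            _ = ε' := mul_one _
        linarith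
      have hr : 0 ≤ 1 - ρ ^ 2 := by nlinarith
      have hr2 : ρ' ^ 2 ≤ ρ ^ 2 := by nlinarith
      have hr1 : ρ ^ 2 ≤ 1 := by nlinarith
      calc ρ' ^ 2 * D + (1 - ρ' ^ 2) * M ^ 2
          ≤ ρ ^ 2 * D + (1 - ρ ^ 2) * M ^ 2 := by nlinarith
        _ ≤ ρ ^ 2 * (V + ε') + (1 - ρ ^ 2) * (a ^ 2 + 3 * ε') :=
            add_le_add (mul_le_mul_of_nonneg_left q1 (sq_nonneg _)) (mul_le_mul_of_nonneg_left hM2 hr)
        _ ≤ ((1 - ρ ^ 2) * a ^ 2 + ρ ^ 2 * V) + 4 * ε' := by nlinarith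
    have s5 := Finset.sum_le_sum fun j (_ : j ∈ Finset.univ) => s4 j
    have s6 : ∑ j : Fin 3, (((1 - ρ ^ 2) * (av (fun ω => f ω j) - 1 / 3) ^ 2
        + ρ ^ 2 * av (fun ω => (AA (fun ω => f ω j) ω - 1 / 3) ^ 2)) + 4 * ε')
        = ∑ j : Fin 3, ((1 - ρ ^ 2) * (av (fun ω => f ω j) - 1 / 3) ^ 2
        + ρ ^ 2 * av (fun ω => (AA (fun ω => f ω j) ω - 1 / 3) ^ 2)) + 12 * ε' := by
      rw [Finset.sum_add_distrib]
      simp only [Finset.sum_const, Finset.card_univ, Fintype.card_fin, nsmul_eq_mul]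
      push_cast
      ring
    rw [s6] at s5
    have s7 := hP9 ρ' hρ'0 hρ'1
    have s8 := F_Lam_mono ρ' ρ hρ'0 hρ'le h1
    linarith

end Pool.H87.NA
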