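import Pool.Agent.Helper87.NA.St

set_option autoImplicit false

open MeasureTheory ProbabilityTheory Pool.H65.PS Pool.H65.PT Pool.TC

namespace Pool.H87.NA

private theorem N_cnt {n : ℕ} (ω : Fin n → Fin 3) (a : Fin 3) :
    cnt (fun i => ω i + 1) (a + 1) = cnt ω a := by
  unfold cnt
  congr 1
  ext i
  simp only [Finset.mem_filter, Finset.mem_univ, true_and]
  exact add_left_inj 1

private theorem N_qq {n : ℕ} (ω : Fin n → Fin 3) : qq (fun i => ω i + 1) = qq ω := by
  unfold qq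
  rw [← Equiv.sum_comp (Equiv.addRight (1 : Fin 3)) (fun a => cnt (fun i => ω i + 1) a ^ 2)]
  refine Finset.sum_congr rfl fun a _ => ?_
  rw [Equiv.coe_addRight, N_cnt]

private theorem N_sum {n : ℕ} (f : (Fin n → Fin 3) → Fin 3 → ℝ) (h1 : ∀ ω, ∑ j, f ω j = 1)
    (h2 : ∀ ω j, f (fun i => ω i + 1) (j + 1) = f ω j) (A : Finset (Fin n → Fin 3))
    (hA : ∀ ω : Fin n → Fin 3, ω ∈ A ↔ (fun i => ω i + 1) ∈ A) (j : Fin 3) :
    3 * ∑ δ ∈ A, f δ j = A.card := by
  have hstep : ∀ j, ∑ δ ∈ A, f δ (j + 1) = ∑ δ ∈ A, f δ j := by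
    intro j
    symm
    refine Finset.sum_bij' (fun δ _ => fun i => δ i + 1) (fun δ _ => fun i => δ i - 1) ?_ ?_ ?_ ?_ ?_
    · intro δ hδ
      exact (hA δ).1 hδ
    · intro δ hδ
      rw [hA]
      simpa using hδ
    · intro δ _
      funext i
      simp
    · intro δ _
      funext i
      simp
    · intro δ _
      exact (h2 δ j).symm
  have htot : ∑ k : Fin 3, ∑ δ ∈ A, f δ k = A.card := by
    rw [Finset.sum_comm]
    simp only [h1, Finset.sum_const, nsmul_eq_mul, mul_one]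
  have e0 : ∑ δ ∈ A, f δ 1 = ∑ δ ∈ A, f δ 0 := hstep 0
  have e1 : ∑ δ ∈ A, f δ 2 = ∑ δ ∈ A, f δ 1 := hstep 1
  rw [Fin.sum_univ_three] at htot
  fin_cases j
  · change 3 * ∑ δ ∈ A, f δ 0 = _
    linarith
  · change 3 * ∑ δ ∈ A, f δ 1 = _
    linarith
  · change 3 * ∑ δ ∈ A, f δ 2 = _
    linarith

theorem pN : StN := by
  intro n f h1 h2 j
  constructor
  · intro ω
    unfold AA
    have h3 := N_sum f h1 h2 (Finset.univ.filter (fun δ : Fin n → Fin 3 => qq δ = qq ω)) (by
      intro δ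
      simp only [Finset.mem_filter, Finset.mem_univ, true_and]
      rw [N_qq]) j
    have h4 : (0 : ℝ) < ((Finset.univ.filter (fun δ : Fin n → Fin 3 => qq δ = qq ω)).card : ℝ) := by
      have : 0 < (Finset.univ.filter (fun δ : Fin n → Fin 3 => qq δ = qq ω)).card :=
        Finset.card_pos.2 ⟨ω, by simp⟩
      exact_mod_cast this
    rw [div_eq_div_iff h4.ne' (by norm_num)]
    linarith
  · unfold av
    have h3 := N_sum f h1 h2 Finset.univ (fun ω => by simp) j
    have h4 : ((Finset.univ : Finset (Fin n → Fin 3)).card : ℝ) = (3 : ℝ) ^ n := by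
      rw [Finset.card_univ, Fintype.card_fun, Fintype.card_fin, Fintype.card_fin]
      push_cast
      rfl
    rw [h4] at h3
    have h5 : (3 : ℝ) ^ n ≠ 0 := by positivity
    have h6 : ∑ ω : Fin n → Fin 3, f ω j = (3 : ℝ) ^ n / 3 := by linarith
    rw [h6]
    push_cast
    field_simp

end Pool.H87.NA
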