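import Pool.Agent.Helper87.NA.St
import Pool.Agent.Helper65.PT.Law
import Pool.Agent.Helper65.PT.Oub

/-! Project NA (MP_c6cf29_pr), module P1: spectral gap for radial functions. -/

set_option autoImplicit false

open MeasureTheory ProbabilityTheory Pool.H65.PS Pool.H65.PT Pool.TC

namespace Pool.H87.NA

private theorem P1_rad (s θ : ℝ) (hs : 0 < s) : Real.sqrt (pt2 s θ 0 ^ 2 + pt2 s θ 1 ^ 2) = s := by
  have h : pt2 s θ 0 ^ 2 + pt2 s θ 1 ^ 2 = s ^ 2 := by
    have := Real.sin_sq_add_cos_sq θ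
    simp only [pt2, Matrix.cons_val_zero, Matrix.cons_val_one]
    linear_combination s ^ 2 * this
  rw [h, Real.sqrt_sq hs.le]

private theorem P1_ae : ∀ᵐ s ∂rm, 0 < s := by
  have h1 : rm ≪ volume.restrict (Set.Ioi (0 : ℝ)) := withDensity_absolutelyContinuous _ _
  exact h1.ae_le (ae_restrict_mem measurableSet_Ioi)

private theorem P1_cmint (F : ℝ → ℝ) : ∫ φ, F φ ∂cm = (2 * Real.pi)⁻¹ * ∫ φ in (-Real.pi)..Real.pi, F φ := by
  unfold cm
  have hpi := Real.pi_pos
  rw [integral_smul_measure, ENNReal.toReal_ofReal (by positivity),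
    intervalIntegral.integral_of_le (by linarith), smul_eq_mul]

private theorem P1_per (b θ : ℝ) : ∫ φ, Real.exp (b * Real.cos (θ - φ)) ∂cm = I0 b := by
  unfold I0
  rw [P1_cmint, P1_cmint]
  congr 1
  have e1 : (∫ φ in (-Real.pi)..Real.pi, Real.exp (b * Real.cos (θ - φ))) =
      ∫ φ in (θ - Real.pi)..(θ - -Real.pi), Real.exp (b * Real.cos φ) :=
    intervalIntegral.integral_comp_sub_left (fun φ => Real.exp (b * Real.cos φ)) θ
  rw [e1]
  have hp : Function.Periodic (fun φ => Real.exp (b * Real.cos φ)) (2 * Real.pi) := by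
    intro φ
    simp
  have h := hp.intervalIntegral_add_eq (θ - Real.pi) (-Real.pi)
  rw [show θ - Real.pi + 2 * Real.pi = θ - -Real.pi by ring,
    show -Real.pi + 2 * Real.pi = Real.pi by ring] at h
  exact h

private theorem P1_Qb (b c d : ℝ) (hcm : IsProbabilityMeasure cm) :
    Qb b (fun _ => c) (fun _ => d) = I0 b * c * d := by
  unfold Qb
  have : ∀ θ : ℝ, ∫ φ, c * d * Real.exp (b * Real.cos (θ - φ)) ∂cm = I0 b * c * d := by
    intro θ
    rw [integral_const_mul, P1_per]
    ring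
  simp only [this]
  simp

private theorem P1_neg : MeasurePreserving (fun x : Fin 2 → ℝ => -x) (gam (Fin 2)) (gam (Fin 2)) := by
  have h := Law_mp (fun (i j : Fin 2) => if i = j then (-1 : ℝ) else 0) (by
    intro j k
    fin_cases j <;> fin_cases k <;> simp)
  convert h using 1
  funext x j
  rw [Law_lin_apply]
  fin_cases j <;> simp

/-- integrals of radial functions -/
private theorem P1_pol (h0 : TC.StP0a) (F : ℝ → ℝ) (hF : Measurable F) (hb : ∃ B, ∀ s, |F s| ≤ B) :
    ∫ x, F (Real.sqrt (x 0 ^ 2 + x 1 ^ 2)) ∂(gam (Fin 2)) = ∫ s, F s ∂rm := by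
  obtain ⟨hcm, hrm, hmap⟩ := h0
  obtain ⟨B, hB⟩ := hb
  have hpm : Measurable (fun p : ℝ × ℝ => pt2 p.1 p.2) := by
    refine measurable_pi_iff.2 fun i => ?_
    fin_cases i
    · show Measurable fun p : ℝ × ℝ => p.1 * Real.cos p.2
      fun_prop
    · show Measurable fun p : ℝ × ℝ => p.1 * Real.sin p.2
      fun_prop
  have hm : Measurable (fun x : Fin 2 → ℝ => F (Real.sqrt (x 0 ^ 2 + x 1 ^ 2))) :=
    hF.comp (by fun_prop)
  have hint : Integrable (fun p : ℝ × ℝ =>
      F (Real.sqrt (pt2 p.1 p.2 0 ^ 2 + pt2 p.1 p.2 1 ^ 2))) (rm.prod cm) :=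
    Integrable.of_bound (hm.comp hpm).aestronglyMeasurable B
      (Filter.Eventually.of_forall fun p => by
        rw [Real.norm_eq_abs]
        exact hB _)
  rw [← hmap, integral_map hpm.aemeasurable hm.aestronglyMeasurable, integral_prod _ hint]
  refine integral_congr_ae ?_
  filter_upwards [P1_ae] with s hs
  have e1 : (fun θ => F (Real.sqrt (pt2 s θ 0 ^ 2 + pt2 s θ 1 ^ 2))) = fun _ => F s := by
    funext θ
    rw [P1_rad s θ hs]
  simp only [e1]
  simp

theorem pP1 : StP1 := by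
  intro hP0a hP0c _ hP8c1 e ρ hem heb hρ0 hρ1
  have hP0a' := hP0a
  obtain ⟨hcm, hrm, hmap⟩ := hP0a
  obtain ⟨B, hB⟩ := heb
  set h : (Fin 2 → ℝ) → ℝ := fun x => e (Real.sqrt (x 0 ^ 2 + x 1 ^ 2)) with hdef
  have hbm : Bm h := ⟨hem.comp (by fun_prop), B, fun x => hB _⟩
  have hpol : ∀ s θ : ℝ, 0 < s → h (pt2 s θ) = e s := by
    intro s θ hs
    simp only [hdef]
    rw [P1_rad s θ hs]
  have hSr : sg ρ h h = Sr ρ e := by
    rw [(hP0c ρ h h hρ0 hρ1 hbm hbm).2]
    unfold Sr
    refine integral_congr_ae ?_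
    filter_upwards [P1_ae] with s hs
    refine integral_congr_ae ?_
    filter_upwards [P1_ae] with t ht
    have e1 : (fun θ => h (pt2 s θ)) = fun _ => e s := by
      funext θ
      exact hpol s θ hs
    have e2 : (fun θ => h (pt2 t θ)) = fun _ => e t := by
      funext θ
      exact hpol t θ ht
    simp only [e1, e2]
    rw [P1_Qb _ _ _ hcm]
    ring
  set c : ℝ := ∫ s, e s ∂rm with hc
  have hmean : ∫ x, h x ∂(gam (Fin 2)) = c := P1_pol hP0a' e hem ⟨B, hB⟩
  have hsq : ∫ x, h x ^ 2 ∂(gam (Fin 2)) = ∫ s, e s ^ 2 ∂rm := by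
    refine P1_pol hP0a' (fun s => e s ^ 2) (hem.pow_const 2) ⟨B ^ 2, fun s => ?_⟩
    rw [abs_pow]
    exact pow_le_pow_left₀ (abs_nonneg _) (hB s) 2
  -- the centred function
  have hbm' : Bm (fun x => h x - c) :=
    ⟨hbm.meas.sub measurable_const, B + |c|, fun x => (abs_sub _ _).trans (by
      have := hB (Real.sqrt (x 0 ^ 2 + x 1 ^ 2))
      simp only [hdef]
      linarith)⟩
  have hi : Integrable h (gam (Fin 2)) := oub_int hbm.meas hbm.bdd
  have hi2 : Integrable (fun x => h x ^ 2) (gam (Fin 2)) :=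
    oub_int (hbm.meas.pow_const 2) (by
      obtain ⟨A, hA⟩ := oub_mul hbm.bdd hbm.bdd
      exact ⟨A, fun x => by rw [pow_two]; exact hA x⟩)
  have hmean' : ∫ x, (h x - c) ∂(gam (Fin 2)) = 0 := by
    rw [integral_sub hi (integrable_const _), hmean]
    simp
  have hmo : ∀ i, mo (fun x => h x - c) i = 0 := by
    intro i
    have h1 : mo (fun x => h x - c) i = ∫ x, (h (-x) - c) * (-x) i ∂(gam (Fin 2)) := by
      unfold mo
      exact (P1_neg.integral_comp (MeasurableEquiv.neg _).measurableEmbedding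
        (fun x => (h x - c) * x i)).symm
    have h2 : (∫ x, (h (-x) - c) * (-x) i ∂(gam (Fin 2))) = -mo (fun x => h x - c) i := by
      unfold mo
      rw [← integral_neg]
      congr 1
      funext x
      simp [hdef]
    linarith [h1, h2]
  have key := hP8c1 (Fin 2) (fun x => h x - c) ρ 1 hbm' hmean' hmo hρ0 hρ1.le one_pos le_rfl
  have hab : |ρ| ≤ 1 := by
    rw [abs_of_nonneg hρ0]
    exact hρ1.le
  have hOU : ∀ x, OU ρ (fun x => h x - c) x = OU ρ h x - c := by
    intro x
    have i1 : Integrable (fun y => h (ρ • x + Real.sqrt (1 - ρ ^ 2) • y)) (gam (Fin 2)) :=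
      oub_int (hbm.meas.comp (oub_am _ _)) (oub_comp hbm.bdd _)
    show ∫ y, (h (ρ • x + Real.sqrt (1 - ρ ^ 2) • y) - c) ∂(gam (Fin 2)) = _
    rw [integral_sub i1 (integrable_const _)]
    simp [OU]
  have hOi : Integrable (OU ρ h) (gam (Fin 2)) := oub_int (OU_bm hbm ρ).meas (OU_bm hbm ρ).bdd
  have hhO : Integrable (fun x => h x * OU ρ h x) (gam (Fin 2)) :=
    oub_int (hbm.meas.mul (OU_bm hbm ρ).meas) (oub_mul hbm.bdd (OU_bm hbm ρ).bdd)
  have e1 : sg ρ (fun x => h x - c) (fun x => h x - c) = sg ρ h h - c ^ 2 := by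
    rw [sg_eq_OU hbm' hbm', sg_eq_OU hbm hbm]
    have e2 : ∀ x, (h x - c) * OU ρ (fun x => h x - c) x
        = h x * OU ρ h x - c * h x - (c * OU ρ h x - c ^ 2) := by
      intro x
      rw [hOU]
      ring
    simp only [e2]
    have i1 : Integrable (fun x => c * h x) (gam (Fin 2)) := hi.const_mul c
    have i2 : Integrable (fun x => c * OU ρ h x) (gam (Fin 2)) := hOi.const_mul c
    have i3 : Integrable (fun x => h x * OU ρ h x - c * h x) (gam (Fin 2)) := hhO.sub i1
    have i4 : Integrable (fun x => c * OU ρ h x - c ^ 2) (gam (Fin 2)) :=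
      i2.sub (integrable_const _)
    rw [integral_sub i3 i4, integral_sub hhO i1, integral_sub i2 (integrable_const _),
      integral_const_mul, integral_const_mul, integral_OU hbm ρ hab, hmean]
    simp
    ring
  have e3 : sg 1 (fun x => h x - c) (fun x => h x - c) = ∫ x, h x ^ 2 ∂(gam (Fin 2)) - c ^ 2 := by
    rw [sg_one hbm' hbm']
    have e2 : ∀ x, (h x - c) * (h x - c) = h x ^ 2 - (2 * c * h x - c ^ 2) := by
      intro x
      ring
    simp only [e2]
    have i1 : Integrable (fun x => 2 * c * h x) (gam (Fin 2)) := hi.const_mul _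
    have i2 : Integrable (fun x => 2 * c * h x - c ^ 2) (gam (Fin 2)) :=
      i1.sub (integrable_const _)
    rw [integral_sub hi2 i2, integral_sub i1 (integrable_const _), integral_const_mul, hmean]
    simp
    ring
  rw [e1, e3, hsq, hSr, div_one] at key
  nlinarith [key]

end Pool.H87.NA
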