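import Pool.Agent.Helper87.NA.St

/-! Project NA (MP_c6cf29_pr), module P2: the inequality in the plane. -/

set_option autoImplicit false

open MeasureTheory ProbabilityTheory Pool.H65.PS Pool.H65.PT Pool.TC

namespace Pool.H87.NA

theorem P2_pos : ∀ᵐ s ∂rm, (0 : ℝ) < s := by
  have h1 : ∀ᵐ s ∂(volume.restrict (Set.Ioi (0 : ℝ))), (0 : ℝ) < s :=
    ae_restrict_mem measurableSet_Ioi
  exact (withDensity_absolutelyContinuous _ _).ae_le h1

theorem P2_Wr (h6 : TC.StP6) (ρ : ℝ) (h0 : 0 ≤ ρ) (h1 : ρ < 1) (s : ℝ) (hs : 0 < s) :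
    0 ≤ Wr ρ s := by
  unfold Wr
  apply integral_nonneg_of_ae
  filter_upwards [P2_pos] with t ht
  have hq : 0 < 1 - ρ ^ 2 := by nlinarith
  have hb : 0 ≤ bb ρ s t := by
    unfold bb
    positivity
  have hk : 0 ≤ kap ρ s t := by
    unfold kap
    have := Real.exp_nonneg (-(ρ ^ 2 * (s ^ 2 + t ^ 2)) / (2 * (1 - ρ ^ 2)))
    positivity
  have hI : 0 ≤ I0 (bb ρ s t) - Lb (bb ρ s t) := by
    have := (h6 _ hb).2
    have h5 : 0 ≤ 712 / 10000 * bb ρ s t := by positivity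
    linarith
  exact mul_nonneg hk hI

theorem P2_meas (h0a : TC.StP0a) (g : (Fin 2 → ℝ) → Fin 3 → ℝ) (hg : Pt g) (j : Fin 3) :
    Measurable (fun s => al g j s) := by
  have : IsProbabilityMeasure cm := h0a.1
  have h1 : Measurable (fun p : ℝ × ℝ => g (pt2 p.1 p.2) j) := by
    refine (hg.meas j).comp ?_
    rw [measurable_pi_iff]
    intro i
    fin_cases i
    · simp only [pt2]
      exact measurable_fst.mul (Real.measurable_cos.comp measurable_snd)
    · simp only [pt2]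
      exact measurable_fst.mul (Real.measurable_sin.comp measurable_snd)
  have h2 := h1.stronglyMeasurable.integral_prod_right' (ν := cm)
  exact h2.measurable

theorem P2_bdd (h0a : TC.StP0a) (g : (Fin 2 → ℝ) → Fin 3 → ℝ) (hg : Pt g) (j : Fin 3) (s : ℝ) :
    |al g j s| ≤ 1 := by
  have : IsProbabilityMeasure cm := h0a.1
  unfold al
  have h1 : ∀ θ, |g (pt2 s θ) j| ≤ 1 := by
    intro θ
    have h2 := hg.simp (pt2 s θ)
    have h3 : 0 ≤ g (pt2 s θ) j := h2.1 j
    have h4 : g (pt2 s θ) j ≤ 1 := by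
      rw [← h2.2]
      exact Finset.single_le_sum (fun i _ => h2.1 i) (Finset.mem_univ j)
    rw [abs_of_nonneg h3]
    exact h4
  have h5 := norm_integral_le_of_norm_le_const (μ := cm) (C := 1)
    (Filter.Eventually.of_forall fun θ => by rw [Real.norm_eq_abs]; exact h1 θ)
  simpa using h5

theorem pP2 : StP2 := by
  intro hP1 h0a h0c h0d h8c1 h6 h7 ρ g hρ0 hρ1 hg
  refine (h7 ρ g hρ0 hρ1 hg).trans ?_
  have key : ∀ j : Fin 3, Sr ρ (fun s => al g j s - 1 / 3) -
      ∫ s, Wr ρ s * (al g j s - 1 / 3) ^ 2 ∂rm ≤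
      ρ ^ 2 * ∫ s, (al g j s - 1 / 3) ^ 2 ∂rm +
        (1 - ρ ^ 2) * (∫ s, (al g j s - 1 / 3) ∂rm) ^ 2 := by
    intro j
    have h1 : 0 ≤ ∫ s, Wr ρ s * (al g j s - 1 / 3) ^ 2 ∂rm := by
      apply integral_nonneg_of_ae
      filter_upwards [P2_pos] with s hs
      exact mul_nonneg (P2_Wr h6 ρ hρ0 hρ1 s hs) (sq_nonneg _)
    have h2 := hP1 h0a h0c h0d h8c1 (fun s => al g j s - 1 / 3) ρ
      ((P2_meas h0a g hg j).sub measurable_const)
      ⟨2, fun s => by
        have h3 := abs_le.1 (P2_bdd h0a g hg j s)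
        rw [abs_le]
        constructor
        · linarith
        · linarith⟩ hρ0 hρ1
    linarith
  have hsum := Finset.sum_le_sum (fun j (_ : j ∈ Finset.univ) => key j)
  linarith

end Pool.H87.NA
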