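import Pool.Agent.Helper87.NA.St

/-! Project NA (MP_c6cf29_pr), module Q1: polar coordinates for the circle average. -/

set_option autoImplicit false

open MeasureTheory ProbabilityTheory Pool.H65.PS Pool.H65.PT Pool.TC

namespace Pool.H87.NA

theorem Q1_pos : ∀ᵐ s ∂rm, (0 : ℝ) < s := by
  have h1 : ∀ᵐ s ∂(volume.restrict (Set.Ioi (0 : ℝ))), (0 : ℝ) < s :=
    ae_restrict_mem measurableSet_Ioi
  exact (withDensity_absolutelyContinuous _ _).ae_le h1

theorem Q1_pt2 : Measurable (fun p : ℝ × ℝ => pt2 p.1 p.2) := by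
  rw [measurable_pi_iff]
  intro i
  fin_cases i
  · simp only [pt2]
    exact measurable_fst.mul (Real.measurable_cos.comp measurable_snd)
  · simp only [pt2]
    exact measurable_fst.mul (Real.measurable_sin.comp measurable_snd)

/-- integrals of bounded functions in polar coordinates -/
theorem Q1_polar (h0a : TC.StP0a) (F : (Fin 2 → ℝ) → ℝ) (hF : Bm F) :
    ∫ x, F x ∂(gam (Fin 2)) = ∫ s, ∫ θ, F (pt2 s θ) ∂cm ∂rm := by
  have hc : IsProbabilityMeasure cm := h0a.1
  have hr : IsProbabilityMeasure rm := h0a.2.1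
  obtain ⟨B, hB⟩ := hF.bdd
  have h1 : Measurable (fun p : ℝ × ℝ => F (pt2 p.1 p.2)) := hF.meas.comp Q1_pt2
  have h2 : Integrable (fun p : ℝ × ℝ => F (pt2 p.1 p.2)) (rm.prod cm) :=
    Integrable.of_bound h1.aestronglyMeasurable B
      (Filter.Eventually.of_forall fun p => by rw [Real.norm_eq_abs]; exact hB _)
  rw [← h0a.2.2, integral_map Q1_pt2.aemeasurable hF.meas.aestronglyMeasurable]
  exact integral_prod _ h2

theorem Q1_meas (h0a : TC.StP0a) (g : (Fin 2 → ℝ) → ℝ) (hg : Bm g) :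
    Measurable (fun s : ℝ => ∫ θ, g (pt2 s θ) ∂cm) := by
  have hc : IsProbabilityMeasure cm := h0a.1
  have h1 : Measurable (fun p : ℝ × ℝ => g (pt2 p.1 p.2)) := hg.meas.comp Q1_pt2
  exact (h1.stronglyMeasurable.integral_prod_right' (ν := cm)).measurable

theorem Q1_bdd (h0a : TC.StP0a) (g : (Fin 2 → ℝ) → ℝ) (B : ℝ) (hB : ∀ x, |g x| ≤ B) (s : ℝ) :
    |∫ θ, g (pt2 s θ) ∂cm| ≤ B := by
  have hc : IsProbabilityMeasure cm := h0a.1
  have h5 := norm_integral_le_of_norm_le_const (μ := cm) (C := B)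
    (Filter.Eventually.of_forall fun θ => by rw [Real.norm_eq_abs]; exact hB (pt2 s θ))
  simpa using h5

theorem Q1_norm (s θ : ℝ) (hs : 0 < s) : Real.sqrt (dot (pt2 s θ) (pt2 s θ)) = s := by
  have h1 : dot (pt2 s θ) (pt2 s θ) = s ^ 2 := by
    simp only [dot, pt2, Fin.sum_univ_two, Matrix.cons_val_zero, Matrix.cons_val_one]
    have := Real.sin_sq_add_cos_sq θ
    linear_combination s ^ 2 * this
  rw [h1, Real.sqrt_sq hs.le]

theorem Q1_rad (g : (Fin 2 → ℝ) → ℝ) (s θ : ℝ) (hs : 0 < s) :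
    rad g (pt2 s θ) = ∫ φ, g (pt2 s φ) ∂cm := by
  unfold rad
  rw [Q1_norm s θ hs]

theorem Q1_Bm (h0a : TC.StP0a) (g : (Fin 2 → ℝ) → ℝ) (hg : Bm g) : Bm (rad g) := by
  obtain ⟨B, hB⟩ := hg.bdd
  refine ⟨?_, B, fun x => Q1_bdd h0a g B hB _⟩
  have h1 : Measurable (fun x : Fin 2 → ℝ => Real.sqrt (dot x x)) := by
    apply Measurable.sqrt
    unfold dot
    exact Finset.measurable_sum _ fun i _ => (measurable_pi_apply i).mul (measurable_pi_apply i)
  exact (Q1_meas h0a g hg).comp h1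

theorem pQ1 : StQ1 := by
  intro h0a g hg
  have hc : IsProbabilityMeasure cm := h0a.1
  have hr : IsProbabilityMeasure rm := h0a.2.1
  have hrad := Q1_Bm h0a g hg
  obtain ⟨B, hB⟩ := hg.bdd
  obtain ⟨B', hB'⟩ := hrad.bdd
  have hint : ∀ s : ℝ, Integrable (fun θ => g (pt2 s θ)) cm := by
    intro s
    have h1 : Measurable (fun θ : ℝ => g (pt2 s θ)) :=
      hg.meas.comp (Q1_pt2.comp (measurable_const.prodMk measurable_id))
    exact Integrable.of_bound h1.aestronglyMeasurable B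
      (Filter.Eventually.of_forall fun p => by rw [Real.norm_eq_abs]; exact hB _)
  have hA := Q1_meas h0a g hg
  have hAint : Integrable (fun s : ℝ => ∫ θ, g (pt2 s θ) ∂cm) rm :=
    Integrable.of_bound hA.aestronglyMeasurable B
      (Filter.Eventually.of_forall fun s => by
        rw [Real.norm_eq_abs]
        exact Q1_bdd h0a g B hB s)
  have hsub : Bm (fun x => g x - 1 / 3) := by
    refine ⟨hg.meas.sub measurable_const, B + 1, fun x => ?_⟩
    have := abs_le.1 (hB x)
    rw [abs_le]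
    constructor
    · linarith
    · linarith
  have hsub' : Bm (fun x => rad g x - 1 / 3) := by
    refine ⟨hrad.meas.sub measurable_const, B' + 1, fun x => ?_⟩
    have := abs_le.1 (hB' x)
    rw [abs_le]
    constructor
    · linarith
    · linarith
  have hmul : ∀ u v : (Fin 2 → ℝ) → ℝ, Bm u → Bm v → Bm (fun x => u x * v x) := by
    intro u v hu hv
    obtain ⟨a, ha⟩ := hu.bdd
    obtain ⟨b, hb⟩ := hv.bdd
    refine ⟨hu.meas.mul hv.meas, a * b, fun x => ?_⟩
    rw [abs_mul]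
    exact mul_le_mul (ha x) (hb x) (abs_nonneg _) ((abs_nonneg _).trans (ha x))
  have e1 : ∫ x, rad g x ∂(gam (Fin 2)) = ∫ x, g x ∂(gam (Fin 2)) := by
    rw [Q1_polar h0a _ hrad, Q1_polar h0a _ hg]
    apply integral_congr_ae
    filter_upwards [Q1_pos] with s hs
    simp only [Q1_rad g s _ hs, integral_const, probReal_univ, one_smul]
  have e2 : ∫ s, ((∫ θ, g (pt2 s θ) ∂cm) - 1 / 3) ^ 2 ∂rm =
      ∫ x, (rad g x - 1 / 3) * (g x - 1 / 3) ∂(gam (Fin 2)) := by
    rw [Q1_polar h0a _ (hmul _ _ hsub' hsub)]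
    apply integral_congr_ae
    filter_upwards [Q1_pos] with s hs
    simp only [Q1_rad g s _ hs]
    rw [integral_const_mul, integral_sub (hint s) (integrable_const _)]
    simp only [integral_const, probReal_univ, one_smul]
    ring
  have e3 : ∫ s, ((∫ θ, g (pt2 s θ) ∂cm) - 1 / 3) ^ 2 ∂rm =
      ∫ x, (rad g x - 1 / 3) ^ 2 ∂(gam (Fin 2)) := by
    have h5 : (fun x => (rad g x - 1 / 3) ^ 2) = fun x => (rad g x - 1 / 3) * (rad g x - 1 / 3) := by
      funext x
      ring
    rw [h5, Q1_polar h0a _ (hmul _ _ hsub' hsub')]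
    apply integral_congr_ae
    filter_upwards [Q1_pos] with s hs
    simp only [Q1_rad g s _ hs, integral_const, probReal_univ, one_smul]
    ring
  have e4 : ∫ s, ((∫ θ, g (pt2 s θ) ∂cm) - 1 / 3) ∂rm = ∫ x, g x ∂(gam (Fin 2)) - 1 / 3 := by
    rw [Q1_polar h0a _ hg, integral_sub hAint (integrable_const _)]
    simp only [integral_const, probReal_univ, one_smul]
  exact ⟨hrad, e1, e2, e3, e4⟩

end Pool.H87.NA
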