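import Pool.Agent.Helper87.NA.St
import Pool.Agent.Helper65.PT.Law

/-! Module Q2 of project NA: rotation invariance, norm of the vote vector. -/

set_option autoImplicit false

open MeasureTheory ProbabilityTheory Pool.H65.PS Pool.H65.PT Pool.TC

namespace Pool.H87.NA

namespace Q2

theorem dot2 (x y : Fin 2 → ℝ) : dot x y = x 0 * y 0 + x 1 * y 1 := by
  unfold dot; rw [Fin.sum_univ_two]

theorem rot (u : (Fin 2 → ℝ) → ℝ) (w : ℝ) (a b : Fin 2 → ℝ) (hu : Bm u)
    (hr : ∀ x y, dot x x = dot y y → u x = u y) (hab : dot a a = dot b b) :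
    ∫ z, u (a + w • z) ∂(gam (Fin 2)) = ∫ z, u (b + w • z) ∂(gam (Fin 2)) := by
  by_cases h0 : dot a a = 0
  · have ha : a = 0 := by
      rw [dot2] at h0
      have h1 : a 0 = 0 := by nlinarith [sq_nonneg (a 0), sq_nonneg (a 1)]
      have h2 : a 1 = 0 := by nlinarith [sq_nonneg (a 0), sq_nonneg (a 1)]
      funext i
      fin_cases i
      · exact h1
      · exact h2
    have hb : b = 0 := by
      rw [hab, dot2] at h0
      have h1 : b 0 = 0 := by nlinarith [sq_nonneg (b 0), sq_nonneg (b 1)]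
      have h2 : b 1 = 0 := by nlinarith [sq_nonneg (b 0), sq_nonneg (b 1)]
      funext i
      fin_cases i
      · exact h1
      · exact h2
    rw [ha, hb]
  · set r : ℝ := dot a a with hrr
    set c : ℝ := (a 0 * b 0 + a 1 * b 1) / r with hc
    set s : ℝ := (a 0 * b 1 - a 1 * b 0) / r with hs
    have hr1 : r = a 0 * a 0 + a 1 * a 1 := by rw [hrr, dot2]
    have hr2 : r = b 0 * b 0 + b 1 * b 1 := by rw [hab, dot2]
    have hcs : c * c + s * s = 1 := by
      rw [hc, hs]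
      field_simp
      have : (a 0 * b 0 + a 1 * b 1) ^ 2 + (a 0 * b 1 - a 1 * b 0) ^ 2
          = (a 0 * a 0 + a 1 * a 1) * (b 0 * b 0 + b 1 * b 1) := by ring
      rw [← hr1, ← hr2] at this
      nlinarith
    set Wm : Fin 2 → Fin 2 → ℝ := ![![c, s], ![-s, c]] with hW
    have hmp : MeasurePreserving (lin Wm) (gam (Fin 2)) (gam (Fin 2)) := by
      apply Law_mp
      intro j k
      rw [Fin.sum_univ_two]
      fin_cases j <;> fin_cases k <;> simp [hW] <;> linarith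
    have hl0 : ∀ g : Fin 2 → ℝ, lin Wm g 0 = c * g 0 - s * g 1 := by
      intro g
      rw [Law_lin_apply, Fin.sum_univ_two]
      simp [hW]; ring
    have hl1 : ∀ g : Fin 2 → ℝ, lin Wm g 1 = s * g 0 + c * g 1 := by
      intro g
      rw [Law_lin_apply, Fin.sum_univ_two]
      simp [hW]; ring
    have hOa0 : c * a 0 - s * a 1 = b 0 := by
      have : c * a 0 - s * a 1 = (b 0 * (a 0 * a 0 + a 1 * a 1)) / r := by
        rw [hc, hs]; ring
      rw [this, ← hr1]; field_simp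
    have hOa1 : s * a 0 + c * a 1 = b 1 := by
      have : s * a 0 + c * a 1 = (b 1 * (a 0 * a 0 + a 1 * a 1)) / r := by
        rw [hc, hs]; ring
      rw [this, ← hr1]; field_simp
    have hmeas : Measurable (fun z : Fin 2 → ℝ => u (b + w • z)) :=
      hu.meas.comp (by fun_prop)
    have h1 : ∫ z, u (b + w • z) ∂(gam (Fin 2))
        = ∫ z, u (b + w • lin Wm z) ∂(gam (Fin 2)) := by
      conv_lhs => rw [← hmp.map_eq]
      rw [integral_map hmp.measurable.aemeasurable hmeas.aestronglyMeasurable]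
    rw [h1]
    refine integral_congr_ae (Filter.Eventually.of_forall fun z => ?_)
    refine hr _ _ ?_
    rw [dot2, dot2]
    simp only [Pi.add_apply, Pi.smul_apply, smul_eq_mul, hl0, hl1]
    have e0 : b 0 + w * (c * z 0 - s * z 1) = c * (a 0 + w * z 0) - s * (a 1 + w * z 1) := by
      rw [← hOa0]; ring
    have e1 : b 1 + w * (s * z 0 + c * z 1) = s * (a 0 + w * z 0) + c * (a 1 + w * z 1) := by
      rw [← hOa1]; ring
    rw [e0, e1]
    linear_combination (-((a 0 + w * z 0) ^ 2 + (a 1 + w * z 1) ^ 2)) * hcs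

theorem norm_XX {n : ℕ} (ω : Fin n → Fin 3) :
    dot (XX ω) (XX ω) = ((Real.sqrt n)⁻¹) ^ 2 * (3 * (qq ω : ℝ) - (n : ℝ) ^ 2) := by
  have hs : ∀ i, ∑ k, vv (ω k) i = ∑ a, (cnt ω a : ℝ) * vv a i := fun i => (Clt_cnt ω (fun a => vv a i)).symm
  have hn : ∑ a, (cnt ω a : ℝ) = n := by
    have := Clt_cnt ω (fun _ => (1 : ℝ))
    simpa using this
  rw [dot2]
  unfold XX
  rw [hs, hs]
  generalize (Real.sqrt n)⁻¹ = t
  rw [Fin.sum_univ_three] at hn
  have h2 : Real.sqrt 2 ^ 2 = 2 := Real.sq_sqrt (by norm_num)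
  have h6 : Real.sqrt 6 ^ 2 = 6 := Real.sq_sqrt (by norm_num)
  have hq : (qq ω : ℝ) = (cnt ω 0 : ℝ) ^ 2 + (cnt ω 1 : ℝ) ^ 2 + (cnt ω 2 : ℝ) ^ 2 := by
    unfold qq; rw [Fin.sum_univ_three]; push_cast; ring
  rw [hq, ← hn, Fin.sum_univ_three, Fin.sum_univ_three]
  simp only [vv, Matrix.cons_val_zero, Matrix.cons_val_one, Matrix.cons_val_two, Matrix.head_cons,
    Matrix.tail_cons, Matrix.cons_val]
  linear_combination (t ^ 2 * ((cnt ω 0 : ℝ) - (cnt ω 1 : ℝ) / 2 - (cnt ω 2 : ℝ) / 2) ^ 2) * h2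
    + (t ^ 2 * ((cnt ω 1 : ℝ) - (cnt ω 2 : ℝ)) ^ 2 / 4) * h6

end Q2

theorem pQ2 : StQ2 := by
  refine ⟨fun u w a b hu hr hab => Q2.rot u w a b hu hr hab, fun n ω ω' h => ?_⟩
  rw [Q2.norm_XX, Q2.norm_XX, h]

end Pool.H87.NA
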