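import Pool.Agent.Helper87.NA.St

/-! Project NA, module Q3: conditional expectation on level sets. -/

set_option autoImplicit false

open MeasureTheory ProbabilityTheory Pool.H65.PS Pool.H65.PT Pool.TC

namespace Pool.H87.NA

theorem pQ3 : StQ3 := by
  intro n f b hb
  obtain ⟨N, hN⟩ : ∃ N : (Fin n → Fin 3) → ℝ,
      N = fun ω => ((Finset.univ.filter (fun δ : Fin n → Fin 3 => qq δ = qq ω)).card : ℝ) := ⟨_, rfl⟩
  have hNe : ∀ ω δ, qq ω = qq δ → N ω = N δ := by
    intro ω δ h
    rw [hN]
    simp only [h]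
  have hNp : ∀ ω, 0 < N ω := by
    intro ω
    rw [hN]
    have : 0 < (Finset.univ.filter (fun δ : Fin n → Fin 3 => qq δ = qq ω)).card :=
      Finset.card_pos.2 ⟨ω, by simp⟩
    simp only
    exact_mod_cast this
  have key : ∑ ω, AA f ω * b ω = ∑ ω, f ω * b ω := by
    have h1 : ∀ ω : Fin n → Fin 3, AA f ω * b ω =
        ∑ δ : Fin n → Fin 3, if qq δ = qq ω then f δ * b δ / N δ else 0 := by
      intro ω
      rw [← Finset.sum_filter]
      have h2 : ∀ δ ∈ Finset.univ.filter (fun δ : Fin n → Fin 3 => qq δ = qq ω),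
          f δ * b δ / N δ = f δ * (b ω / N ω) := by
        intro δ hδ
        have hδ' := (Finset.mem_filter.1 hδ).2
        rw [hNe δ ω hδ', hb δ ω hδ', mul_div_assoc]
      rw [Finset.sum_congr rfl h2, ← Finset.sum_mul]
      unfold AA
      rw [hN]
      ring
    rw [Finset.sum_congr rfl fun ω _ => h1 ω, Finset.sum_comm]
    refine Finset.sum_congr rfl fun δ _ => ?_
    rw [← Finset.sum_filter, Finset.sum_const, nsmul_eq_mul]
    have h3 : ((Finset.univ.filter (fun ω : Fin n → Fin 3 => qq δ = qq ω)).card : ℝ) = N δ := by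
      rw [hN]
      simp only
      congr 2
      ext ω
      simp only [Finset.mem_filter, Finset.mem_univ, true_and]
      exact eq_comm
    rw [h3]
    have := hNp δ
    field_simp
  unfold av
  rw [key]

end Pool.H87.NA
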