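import Pool.Agent.Helper87.NA.St

set_option autoImplicit false

/-! Project NA: module Q4. -/

open MeasureTheory ProbabilityTheory Pool.H65.PS Pool.H65.PT Pool.TC

namespace Pool.H87.NA

/-- `EP` of a function of the first variable. -/
theorem q4_EPfst (n : ℕ) (ρ w : ℝ) (h : (Fin 2 → ℝ) → ℝ) :
    EP n ρ w (fun x _ => h x)
      = av (fun ω : Fin n → Fin 3 => ∫ z, h (XX ω + w • z) ∂(gam (Fin 2))) := by
  unfold EP av
  congr 1
  refine Finset.sum_congr rfl fun ω _ => ?_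
  have h1 : ∫ z : (Fin 2 → ℝ) × (Fin 2 → ℝ), h (XX ω + w • z.1)
      ∂((gam (Fin 2)).prod (gam (Fin 2))) = ∫ z, h (XX ω + w • z) ∂(gam (Fin 2)) := by
    have := integral_fun_fst (μ := gam (Fin 2)) (ν := gam (Fin 2))
      (fun z : Fin 2 → ℝ => h (XX ω + w • z))
    rw [this]
    simp
  show ∑ δ : Fin n → Fin 3, KK ρ ω δ * (∫ z : (Fin 2 → ℝ) × (Fin 2 → ℝ), h (XX ω + w • z.1)
      ∂((gam (Fin 2)).prod (gam (Fin 2)))) = _
  rw [h1, ← Finset.sum_mul]
  have h2 : ∑ δ : Fin n → Fin 3, KK ρ ω δ = 1 := plm_K_sum 3 n (by norm_num) ρ ω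
  rw [h2, one_mul]

/-- bounded measurable functions are integrable. -/
theorem q4_int {α : Type} [MeasurableSpace α] (μ : Measure α) [IsProbabilityMeasure μ]
    (v : α → ℝ) (hv : Measurable v) (B : ℝ) (hB : ∀ x, |v x| ≤ B) : Integrable v μ :=
  Integrable.of_bound hv.aestronglyMeasurable B
    (Filter.Eventually.of_forall fun x => by rw [Real.norm_eq_abs]; exact hB x)

theorem q4_jensen {α : Type} [MeasurableSpace α] (μ : Measure α) [IsProbabilityMeasure μ]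
    (v : α → ℝ) (hv : Measurable v) (B : ℝ) (hB : ∀ x, |v x| ≤ B) :
    (∫ x, v x ∂μ) ^ 2 ≤ ∫ x, v x ^ 2 ∂μ := by
  have hi := q4_int μ v hv B hB
  have hi2 : Integrable (fun x => v x ^ 2) μ :=
    q4_int μ _ (hv.pow_const 2) (B ^ 2) (fun x => by
      rw [abs_pow]; exact pow_le_pow_left₀ (abs_nonneg _) (hB x) 2)
  obtain ⟨b, hb⟩ : ∃ b : ℝ, b = ∫ x, v x ∂μ := ⟨_, rfl⟩
  rw [← hb]
  have h0 : 0 ≤ ∫ x, (v x - b) ^ 2 ∂μ := integral_nonneg fun x => sq_nonneg _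
  have h1 : ∫ x, (v x - b) ^ 2 ∂μ = (∫ x, v x ^ 2 ∂μ) - b ^ 2 := by
    have h2 : (fun x => (v x - b) ^ 2) = fun x => (v x ^ 2 - (2 * b) * v x) + b ^ 2 := by
      funext x; ring
    have h3 : Integrable (fun x => v x ^ 2 - (2 * b) * v x) μ := hi2.sub (hi.const_mul _)
    rw [h2, integral_add h3 (integrable_const _),
      integral_sub hi2 (hi.const_mul _), integral_const_mul, ← hb]
    simp
    ring
  linarith

theorem q4_av_mono {n : ℕ} (a b : (Fin n → Fin 3) → ℝ) (h : ∀ ω, a ω ≤ b ω) : av a ≤ av b := by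
  unfold av
  exact mul_le_mul_of_nonneg_left (Finset.sum_le_sum fun ω _ => h ω) (by positivity)

theorem q4_av_add {n : ℕ} (a b : (Fin n → Fin 3) → ℝ) (c : ℝ) :
    av (fun ω => a ω + c * b ω) = av a + c * av b := by
  unfold av
  rw [Finset.sum_add_distrib, ← Finset.mul_sum]
  ring

theorem pQ4 : StQ4 := by
  intro hA0 hA1 hC2 hC3 hQ1 hQ2 hQ3 hP0a ρ w ε hρ0 hρ1 hw hε
  obtain ⟨n0, hn0⟩ := hC2 ρ w (ε / 3) hρ0 hρ1 hw (by positivity)
  refine ⟨n0, fun n hn f hf => ?_⟩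
  have hC2' := hn0 n hn
  obtain ⟨hA0a, hA0b, -⟩ := hA0 n w hw
  obtain ⟨g, hg⟩ : ∃ g : (Fin 2 → ℝ) → ℝ, g = gg w f := ⟨_, rfl⟩
  have hgc : Continuous g := by rw [hg]; exact hA0b f
  have hg0 : ∀ x, 0 ≤ g x := fun x => by
    rw [hg]; exact (hA0a f x 0 1 (fun ω => (hf ω).1) (fun ω => (hf ω).2)).1
  have hg1 : ∀ x, g x ≤ 1 := fun x => by
    rw [hg]; exact (hA0a f x 0 1 (fun ω => (hf ω).1) (fun ω => (hf ω).2)).2
  have hBg : Bm g := ⟨hgc.measurable, 1, fun x => by rw [abs_of_nonneg (hg0 x)]; exact hg1 x⟩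
  rw [← hg]
  obtain ⟨c, hc⟩ : ∃ c : ℝ, c = Real.sqrt (1 + w ^ 2) := ⟨_, rfl⟩
  have hcpos : 0 < c := by rw [hc]; positivity
  obtain ⟨g', hg'⟩ : ∃ g' : (Fin 2 → ℝ) → ℝ, g' = dil w g := ⟨_, rfl⟩
  have hg'x : ∀ x, g' x = g (c • x) := fun x => by rw [hg', hc]; rfl
  have hg'c : Continuous g' := by
    have : g' = fun x => g (c • x) := funext hg'x
    rw [this]
    exact hgc.comp (continuous_const_smul c)
  have hBg' : Bm g' := ⟨hg'c.measurable, 1, fun x => by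
    rw [hg'x, abs_of_nonneg (hg0 _)]; exact hg1 _⟩
  obtain ⟨hBrad, -, q13, q14, q15⟩ := hQ1 hP0a g' hBg'
  rw [← hg']
  haveI : IsProbabilityMeasure cm := hP0a.1
  -- the radial function
  have hr0 : ∀ x, 0 ≤ rad g' x := fun x => integral_nonneg fun θ => by
    show 0 ≤ g' _
    rw [hg'x]; exact hg0 _
  have hr1 : ∀ x, rad g' x ≤ 1 := by
    intro x
    have h1 : ‖∫ θ, g' (pt2 (Real.sqrt (dot x x)) θ) ∂cm‖ ≤ 1 * cm.real Set.univ :=
      norm_integral_le_of_norm_le_const (Filter.Eventually.of_forall fun θ => by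
        rw [Real.norm_eq_abs, hg'x, abs_of_nonneg (hg0 _)]; exact hg1 _)
    simp only [probReal_univ, mul_one] at h1
    exact (le_abs_self _).trans h1
  obtain ⟨e, he⟩ : ∃ e : (Fin 2 → ℝ) → ℝ, e = fun x => rad g' x - 1 / 3 := ⟨_, rfl⟩
  have hex : ∀ x, e x = rad g' x - 1 / 3 := fun x => by rw [he]
  have hem : Measurable e := by rw [he]; exact hBrad.meas.sub_const _
  have heb : ∀ x, |e x| ≤ 2 / 3 := fun x => by
    rw [hex, abs_le]
    constructor <;> linarith [hr0 x, hr1 x]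
  obtain ⟨u, hu⟩ : ∃ u : (Fin 2 → ℝ) → ℝ, u = fun y => e (c⁻¹ • y) := ⟨_, rfl⟩
  have hux : ∀ x, u x = e (c⁻¹ • x) := fun x => by rw [hu]
  have hum : Measurable u := by rw [hu]; exact hem.comp (measurable_const_smul c⁻¹)
  have hub : ∀ x, |u x| ≤ 2 / 3 := fun x => by rw [hux]; exact heb _
  have hBu : Bm u := ⟨hum, 2 / 3, hub⟩
  have huc : ∀ x, u (c • x) = e x := fun x => by
    rw [hux, smul_smul, inv_mul_cancel₀ hcpos.ne', one_smul]
  have hgm : Measurable g := hgc.measurable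
  have hgb : ∀ x, |g x - 1 / 3| ≤ 2 / 3 := fun x => by
    rw [abs_le]
    constructor <;> linarith [hg0 x, hg1 x]
  obtain ⟨D, hD⟩ : ∃ D : ℝ, D = ∫ s, ((∫ θ, g' (pt2 s θ) ∂cm) - 1 / 3) ^ 2 ∂rm := ⟨_, rfl⟩
  rw [← hD] at q13 q14 ⊢
  -- the two Gaussian expressions for `D`
  have hEG1 : EG ρ w (fun x _ => u x * (g x - 1 / 3)) = D := by
    rw [(hC3 ρ w hρ0 hρ1 hw).1 (fun x => u x * (g x - 1 / 3))
      ⟨hum.mul (hgm.sub_const _), 2 / 3, fun x => by
        rw [abs_mul]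
        nlinarith [hub x, hgb x, abs_nonneg (u x), abs_nonneg (g x - 1 / 3)]⟩, q13]
    refine integral_congr_ae (Filter.Eventually.of_forall fun x => ?_)
    show u (Real.sqrt (1 + w ^ 2) • x) * (g (Real.sqrt (1 + w ^ 2) • x) - 1 / 3) = _
    rw [← hc, huc, ← hg'x, hex]
  have hEG2 : EG ρ w (fun x _ => u x ^ 2) = D := by
    rw [(hC3 ρ w hρ0 hρ1 hw).1 (fun x => u x ^ 2)
      ⟨hum.pow_const 2, 1, fun x => by
        rw [abs_pow]
        nlinarith [hub x, abs_nonneg (u x)]⟩, q14]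
    refine integral_congr_ae (Filter.Eventually.of_forall fun x => ?_)
    show u (Real.sqrt (1 + w ^ 2) • x) ^ 2 = _
    rw [← hc, huc, hex]
  have hc1 := hC2' (fun x _ => u x * (g x - 1 / 3))
    ((hum.mul (hgm.sub_const (1 / 3))).comp measurable_fst) (fun x _ => by
      rw [abs_mul]
      nlinarith [hub x, hgb x, abs_nonneg (u x), abs_nonneg (g x - 1 / 3)])
  have hc2 := hC2' (fun x _ => u x ^ 2) ((hum.pow_const 2).comp measurable_fst) (fun x _ => by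
      rw [abs_pow]
      nlinarith [hub x, abs_nonneg (u x)])
  have hc3 := hC2' (fun x _ => g x) (hgm.comp measurable_fst) (fun x _ => by
      rw [abs_of_nonneg (hg0 x)]; exact hg1 x)
  rw [hEG1, q4_EPfst, abs_le] at hc1
  rw [hEG2, q4_EPfst, abs_le] at hc2
  rw [(hC3 ρ w hρ0 hρ1 hw).1 g hBg, q4_EPfst, ← hg'] at hc3
  -- the discrete expressions
  have hmeas : ∀ ω : Fin n → Fin 3, Measurable fun z : Fin 2 → ℝ => XX ω + w • z := fun ω =>
    (measurable_const_smul w).const_add _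
  obtain ⟨b, hb⟩ : ∃ b : (Fin n → Fin 3) → ℝ, b = fun ω => ∫ z, u (XX ω + w • z) ∂(gam (Fin 2)) :=
    ⟨_, rfl⟩
  have hbx : ∀ ω, b ω = ∫ z, u (XX ω + w • z) ∂(gam (Fin 2)) := fun ω => by rw [hb]
  have hA1u := hA1 n w f u hw hBu
  rw [← hg] at hA1u
  have hEP1 : av (fun ω : Fin n → Fin 3 => ∫ z, u (XX ω + w • z) * (g (XX ω + w • z) - 1 / 3)
      ∂(gam (Fin 2))) = av (fun ω => f ω * b ω) - 1 / 3 * av b := by
    have h1 : ∀ ω : Fin n → Fin 3, ∫ z, u (XX ω + w • z) * (g (XX ω + w • z) - 1 / 3)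
        ∂(gam (Fin 2)) = (∫ z, g (XX ω + w • z) * u (XX ω + w • z) ∂(gam (Fin 2)))
          + (-(1 / 3)) * b ω := by
      intro ω
      rw [hbx, ← integral_const_mul, ← integral_add]
      · refine integral_congr_ae (Filter.Eventually.of_forall fun z => ?_)
        show u (XX ω + w • z) * (g (XX ω + w • z) - 1 / 3) = _
        ring
      · refine q4_int _ _ ((hgm.comp (hmeas ω)).mul (hum.comp (hmeas ω))) 1 fun z => ?_
        rw [abs_mul, abs_of_nonneg (hg0 _)]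
        nlinarith [hub (XX ω + w • z), hg0 (XX ω + w • z), hg1 (XX ω + w • z),
          abs_nonneg (u (XX ω + w • z))]
      · exact (q4_int _ _ (hum.comp (hmeas ω)) (2 / 3) fun z => hub _).const_mul _
    simp only [h1]
    rw [q4_av_add, ← hA1u]
    simp only [← hbx]
    ring
  have hqb : ∀ ω ω' : Fin n → Fin 3, qq ω = qq ω' → b ω = b ω' := by
    intro ω ω' hω
    rw [hbx, hbx]
    refine hQ2.1 u w (XX ω) (XX ω') hBu ?_ (hQ2.2 n ω ω' hω)
    intro x y hxy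
    rw [hux, hux, hex, hex]
    unfold rad
    have h1 : dot (c⁻¹ • x) (c⁻¹ • x) = dot (c⁻¹ • y) (c⁻¹ • y) := by
      have h2 : ∀ x : Fin 2 → ℝ, dot (c⁻¹ • x) (c⁻¹ • x) = c⁻¹ ^ 2 * dot x x := by
        intro x
        unfold dot
        rw [Finset.mul_sum]
        refine Finset.sum_congr rfl fun i _ => ?_
        simp only [Pi.smul_apply, smul_eq_mul]
        ring
      rw [h2, h2, hxy]
    rw [h1]
  have hAA := hQ3 n f b hqb
  obtain ⟨V, hV⟩ : ∃ V : ℝ, V = av (fun ω => (AA f ω - 1 / 3) ^ 2) := ⟨_, rfl⟩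
  rw [← hV]
  have hmid : av (fun ω => f ω * b ω) - 1 / 3 * av b ≤ (V + av (fun ω => b ω ^ 2)) / 2 := by
    have h1 : av (fun ω => f ω * b ω) - 1 / 3 * av b
        = av (fun ω => AA f ω * b ω + (-(1 / 3)) * b ω) := by
      rw [q4_av_add, hAA]
      ring
    have h2 : (V + av (fun ω => b ω ^ 2)) / 2
        = av (fun ω => (1 / 2 * (AA f ω - 1 / 3) ^ 2) + (1 / 2) * b ω ^ 2) := by
      rw [q4_av_add (fun ω => 1 / 2 * (AA f ω - 1 / 3) ^ 2)]
      have h3 : av (fun ω => 1 / 2 * (AA f ω - 1 / 3) ^ 2) = 1 / 2 * V := by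
        rw [hV]
        unfold av
        rw [← Finset.mul_sum]
        ring
      rw [h3]
      ring
    rw [h1, h2]
    refine q4_av_mono _ _ fun ω => ?_
    nlinarith [sq_nonneg (AA f ω - 1 / 3 - b ω)]
  have hb2 : av (fun ω => b ω ^ 2)
      ≤ av (fun ω : Fin n → Fin 3 => ∫ z, u (XX ω + w • z) ^ 2 ∂(gam (Fin 2))) := by
    refine q4_av_mono _ _ fun ω => ?_
    rw [hbx]
    exact q4_jensen _ _ (hum.comp (hmeas ω)) (2 / 3) fun z => hub _
  refine ⟨?_, ?_⟩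
  · rw [hEP1] at hc1
    linarith [hc1.1, hc2.2]
  · rw [q15]
    have h1 := hA1 n w f (fun _ => 1) hw ⟨measurable_const, 1, fun _ => by simp⟩
    rw [← hg] at h1
    simp only [mul_one, integral_const, probReal_univ, one_smul] at h1
    have h2 : av f = av (fun ω : Fin n → Fin 3 => ∫ z, g (XX ω + w • z) ∂(gam (Fin 2))) := h1
    rw [← h2] at hc3
    rw [abs_le] at hc3 ⊢
    constructor <;> linarith [hc3.1, hc3.2]

end Pool.H87.NA
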