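import Pool.Agent.Helper87.NA.M_A0
import Pool.Agent.Helper87.NA.M_A1
import Pool.Agent.Helper87.NA.M_A2a
import Pool.Agent.Helper87.NA.M_A2b
import Pool.Agent.Helper87.NA.M_A3
import Pool.Agent.Helper87.NA.M_B1
import Pool.Agent.Helper87.NA.M_B2
import Pool.Agent.Helper87.NA.M_B3
import Pool.Agent.Helper87.NA.M_B4
import Pool.Agent.Helper87.NA.M_C1
import Pool.Agent.Helper87.NA.M_C2s
import Pool.Agent.Helper87.NA.M_C2
import Pool.Agent.Helper87.NA.M_C3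
import Pool.Agent.Helper87.NA.M_P1
import Pool.Agent.Helper87.NA.M_P2
import Pool.Agent.Helper87.NA.M_Q1
import Pool.Agent.Helper87.NA.M_Q2
import Pool.Agent.Helper87.NA.M_Q3
import Pool.Agent.Helper87.NA.M_Q4
import Pool.Agent.Helper87.NA.M_N
import Pool.Agent.Helper87.NA.M_F
import Pool.Agent.TC.All

/-! Project NA: assembly. -/

set_option autoImplicit false

open MeasureTheory ProbabilityTheory Pool.H65.PS Pool.H65.PT Pool.TC

namespace Pool.H87.NA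

theorem allC2 : StC2 := pC2 pC1 pC2s

theorem allA2a : StA2a := pA2a pA0

theorem allB4 : StB4 := pB4 (pB2 pB1) pB3

/-- the inequality for anonymous rules. -/
theorem main : ∀ ρ ε : ℝ, 0 ≤ ρ → ρ ≤ 1 → 0 < ε → ∃ n0 : ℕ, ∀ n, n0 ≤ n → ∀ f : (Fin n → Fin 3) → Fin 3 → ℝ,
    (∀ ω, f ω ∈ stdSimplex ℝ (Fin 3)) → (∀ j, Anon (fun ω => f ω j)) →
    ∑ j, stab ρ (fun ω => f ω j) ≤ ∑ j : Fin 3, stab ρ (fun ω : Fin n → Fin 3 => plur ω j)
      + ∑ j, ((1 - ρ ^ 2) * (av (fun ω => f ω j) - 1 / 3) ^ 2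
        + ρ ^ 2 * av (fun ω => (AA (fun ω => f ω j) ω - 1 / 3) ^ 2)) + ε :=
  pF pA0 allA2a (pA3 allA2a pA2b) allB4 allC2 pC3
    (pP2 pP1 allP0a allP0c allP0d allP8c1 allP6 allP7)
    (pQ4 pA0 pA1 allC2 pC3 pQ1 pQ2 pQ3 allP0a) allP9 allP0a

end Pool.H87.NA
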