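import Pool.Agent.TC.Defs

/-! Definitions for project NA (MP_c6cf29_pr): anonymous rules for three candidates, every correlation. -/

set_option autoImplicit false

open MeasureTheory ProbabilityTheory Pool.H65.PS Pool.H65.PT Pool.TC

namespace Pool.H87.NA

noncomputable section

/-- the three vectors of length `√2` at angles `0, 2π/3, 4π/3` in the plane. -/
def vv (a : Fin 3) : Fin 2 → ℝ :=
  (![![Real.sqrt 2, 0], ![-(Real.sqrt 2) / 2, Real.sqrt 6 / 2], ![-(Real.sqrt 2) / 2, -(Real.sqrt 6) / 2]] :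
    Fin 3 → Fin 2 → ℝ) a

variable {n : ℕ}

/-- normalised vote vector `n^{-1/2} ∑_k v_{ω k}`. -/
def XX (ω : Fin n → Fin 3) : Fin 2 → ℝ := fun i => (Real.sqrt n)⁻¹ * ∑ k, vv (ω k) i

/-- likelihood of `a` when `a + w Z = x` is observed. -/
def lk (w : ℝ) (a x : Fin 2 → ℝ) : ℝ := Real.exp ((dot a x - dot a a / 2) / w ^ 2)

/-- posterior mean of `f ω` when `XX ω + w Z = x` is observed. -/
def gg (w : ℝ) (f : (Fin n → Fin 3) → ℝ) (x : Fin 2 → ℝ) : ℝ :=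
  (∑ ω, f ω * lk w (XX ω) x) / ∑ ω : Fin n → Fin 3, lk w (XX ω) x

/-- resampling operator. -/
def RR (w : ℝ) (f : (Fin n → Fin 3) → ℝ) (ω : Fin n → Fin 3) : ℝ :=
  ∫ z, gg w f (XX ω + w • z) ∂(gam (Fin 2))

/-- `f` depends only on the numbers of votes. -/
def Anon (f : (Fin n → Fin 3) → ℝ) : Prop := ∀ (π : Equiv.Perm (Fin n)) (ω : Fin n → Fin 3), f (fun i => ω (π i)) = f ω

/-- noise kernel. -/
def KK (ρ : ℝ) (ω δ : Fin n → Fin 3) : ℝ :=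
  ∏ i, if δ i = ω i then (1 + (((3 : ℕ) : ℝ) - 1) * ρ) / ((3 : ℕ) : ℝ) else (1 - ρ) / ((3 : ℕ) : ℝ)

/-- `E F(XX ω + w Z₁, XX δ + w Z₂)`. -/
def EP (n : ℕ) (ρ w : ℝ) (F : (Fin 2 → ℝ) → (Fin 2 → ℝ) → ℝ) : ℝ :=
  (((3 : ℕ) : ℝ) ^ n)⁻¹ * ∑ ω : Fin n → Fin 3, ∑ δ : Fin n → Fin 3, KK ρ ω δ *
    ∫ z : (Fin 2 → ℝ) × (Fin 2 → ℝ), F (XX ω + w • z.1) (XX δ + w • z.2)
      ∂((gam (Fin 2)).prod (gam (Fin 2)))

/-- `E F(G₁ + w Z₁, G₂ + w Z₂)`, `(G₁,G₂)` a standard pair with correlation `ρ`. -/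
def EG (ρ w : ℝ) (F : (Fin 2 → ℝ) → (Fin 2 → ℝ) → ℝ) : ℝ :=
  ∫ p : (Fin 2 → ℝ) × (Fin 2 → ℝ), (∫ z : (Fin 2 → ℝ) × (Fin 2 → ℝ),
      F (p.1 + w • z.1) (ρ • p.1 + Real.sqrt (1 - ρ ^ 2) • p.2 + w • z.2)
      ∂((gam (Fin 2)).prod (gam (Fin 2)))) ∂((gam (Fin 2)).prod (gam (Fin 2)))

/-- the statistic `∑ N_a²`. -/
def qq (ω : Fin n → Fin 3) : ℕ := ∑ a, cnt ω a ^ 2

/-- conditional expectation of `f` given `qq`. -/
def AA (f : (Fin n → Fin 3) → ℝ) (ω : Fin n → Fin 3) : ℝ :=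
  (∑ δ ∈ Finset.univ.filter (fun δ => qq δ = qq ω), f δ) /
    ((Finset.univ.filter (fun δ : Fin n → Fin 3 => qq δ = qq ω)).card : ℝ)

/-- expectation of `g` under the product of the weights `q k`. -/
def Ex (q : Fin n → Fin 3 → ℝ) (g : (Fin n → Fin 3) → ℝ) : ℝ := ∑ δ : Fin n → Fin 3, (∏ k, q k (δ k)) * g δ

/-- average over the circle through `x`. -/
def rad (g : (Fin 2 → ℝ) → ℝ) (x : Fin 2 → ℝ) : ℝ := ∫ θ, g (pt2 (Real.sqrt (dot x x)) θ) ∂cm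

/-- `g (√(1+w²) x)`. -/
def dil (w : ℝ) (g : (Fin 2 → ℝ) → ℝ) (x : Fin 2 → ℝ) : ℝ := g (Real.sqrt (1 + w ^ 2) • x)

/-- `L`-Lipschitz as a function of `XX`. -/
def LipX (L : ℝ) (h : (Fin n → Fin 3) → ℝ) : Prop := ∀ ω ω', |h ω - h ω'| ≤ L * ‖XX ω - XX ω'‖

end

end Pool.H87.NA
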