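import Pool.Agent.Helper87.NA.St

set_option autoImplicit false

open MeasureTheory ProbabilityTheory Pool.H65.PS Pool.H65.PT Pool.TC

namespace Pool.H87.NA

theorem A0_lk_pos (w : ℝ) (a x : Fin 2 → ℝ) : 0 < lk w a x := Real.exp_pos _

theorem A0_den_pos {n : ℕ} (w : ℝ) (x : Fin 2 → ℝ) : 0 < ∑ ω : Fin n → Fin 3, lk w (XX ω) x :=
  Finset.sum_pos (fun ω _ => A0_lk_pos w _ x) Finset.univ_nonempty

theorem A0_lk_cont (w : ℝ) (a : Fin 2 → ℝ) : Continuous (lk w a) := by
  unfold lk dot
  fun_prop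

theorem pA0 : StA0 := by
  intro n w hw
  refine ⟨fun f x a b ha hb => ?_, fun f => ?_, fun f x h => ?_⟩
  · unfold gg
    have hd := A0_den_pos (n := n) w x
    constructor
    · rw [le_div_iff₀ hd, Finset.mul_sum]
      exact Finset.sum_le_sum fun ω _ => mul_le_mul_of_nonneg_right (ha ω) (A0_lk_pos w _ x).le
    · rw [div_le_iff₀ hd, Finset.mul_sum]
      exact Finset.sum_le_sum fun ω _ => mul_le_mul_of_nonneg_right (hb ω) (A0_lk_pos w _ x).le
  · unfold gg
    refine Continuous.div ?_ ?_ fun x => (A0_den_pos w x).ne'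
    · exact continuous_finsetSum _ fun ω _ => continuous_const.mul (A0_lk_cont w _)
    · exact continuous_finsetSum _ fun ω _ => A0_lk_cont w _
  · unfold gg
    rw [← Finset.sum_div, Finset.sum_comm]
    have : ∀ ω : Fin n → Fin 3, ∑ j, f ω j * lk w (XX ω) x = lk w (XX ω) x := by
      intro ω
      rw [← Finset.sum_mul, h, one_mul]
    simp only [this]
    exact div_self (A0_den_pos w x).ne'

end Pool.H87.NA
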