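import Pool.Agent.Helper87.NA.St
import Pool.Agent.Helper65.PT.Law
import Pool.Agent.Helper65.PT.Oub

/-! Project NA (MP_c6cf29_pr), module C3: the law of the smoothed pair. -/

set_option autoImplicit false

open MeasureTheory ProbabilityTheory Pool.H65.PS Pool.H65.PT Pool.TC

namespace Pool.H87.NA

section

variable {κ : Type} [Fintype κ]

open Classical in
/-- coefficients on the left -/
private noncomputable def C3_W (ρ σ w : ℝ) : (κ ⊕ κ) ⊕ (κ ⊕ κ) → κ ⊕ κ → ℝ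
  | Sum.inl (Sum.inl b), Sum.inl c => if c = b then 1 else 0
  | Sum.inl (Sum.inl b), Sum.inr c => if c = b then ρ else 0
  | Sum.inl (Sum.inr _), Sum.inl _ => 0
  | Sum.inl (Sum.inr b), Sum.inr c => if c = b then σ else 0
  | Sum.inr (Sum.inl b), Sum.inl c => if c = b then w else 0
  | Sum.inr (Sum.inl _), Sum.inr _ => 0
  | Sum.inr (Sum.inr _), Sum.inl _ => 0
  | Sum.inr (Sum.inr b), Sum.inr c => if c = b then w else 0

open Classical in
/-- coefficients on the right -/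
private noncomputable def C3_V (s r τ : ℝ) : κ ⊕ κ → κ ⊕ κ → ℝ
  | Sum.inl b, Sum.inl c => if c = b then s else 0
  | Sum.inl b, Sum.inr c => if c = b then s * r else 0
  | Sum.inr _, Sum.inl _ => 0
  | Sum.inr b, Sum.inr c => if c = b then s * τ else 0

private lemma C3_cov (ρ σ w s r τ : ℝ) (h1 : 1 + w * w = s * s) (h2 : ρ = s * (s * r))
    (h3 : ρ * ρ + σ * σ + w * w = s * r * (s * r) + s * τ * (s * τ)) (j k : κ ⊕ κ) :
    ∑ i, C3_W (κ := κ) ρ σ w i j * C3_W (κ := κ) ρ σ w i k =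
      ∑ i, C3_V (κ := κ) s r τ i j * C3_V (κ := κ) s r τ i k := by
  classical
  rcases j with j | j <;> rcases k with k | k <;>
    simp only [Fintype.sum_sum_type, C3_W, C3_V, mul_zero, zero_mul, Finset.sum_const_zero,
      add_zero, zero_add, mul_ite, ite_mul, mul_one, one_mul, Finset.sum_ite_eq,
      Finset.mem_univ, if_true] <;> split_ifs <;> first | nlinarith [h1, h2, h3] | rfl

private lemma C3_L1 (ρ σ w : ℝ) (x y z z' : κ → ℝ) :
    (fun i => lin (C3_W (κ := κ) ρ σ w) (Sum.elim (Sum.elim x y) (Sum.elim z z')) (Sum.inl i))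
      = x + w • z := by
  classical
  funext i
  rw [Law_lin_apply]
  simp only [Fintype.sum_sum_type, C3_W, Sum.elim_inl, Sum.elim_inr,
    mul_zero, Finset.sum_const_zero, add_zero, mul_ite, mul_one,
    Finset.sum_ite_eq, Finset.mem_univ, if_true, Pi.add_apply, Pi.smul_apply, smul_eq_mul]
  ring

private lemma C3_L2 (ρ σ w : ℝ) (x y z z' : κ → ℝ) :
    (fun i => lin (C3_W (κ := κ) ρ σ w) (Sum.elim (Sum.elim x y) (Sum.elim z z')) (Sum.inr i))
      = ρ • x + σ • y + w • z' := by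
  classical
  funext i
  rw [Law_lin_apply]
  simp only [Fintype.sum_sum_type, C3_W, Sum.elim_inl, Sum.elim_inr,
    mul_zero, Finset.sum_const_zero, zero_add, mul_ite,
    Finset.sum_ite_eq, Finset.mem_univ, if_true, Pi.add_apply, Pi.smul_apply, smul_eq_mul]
  ring

private lemma C3_R1 (s r τ : ℝ) (x y : κ → ℝ) :
    (fun i => lin (C3_V (κ := κ) s r τ) (Sum.elim x y) (Sum.inl i)) = s • x := by
  classical
  funext i
  rw [Law_lin_apply]
  simp only [Fintype.sum_sum_type, C3_V, Sum.elim_inl, Sum.elim_inr,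
    mul_zero, Finset.sum_const_zero, add_zero, mul_ite,
    Finset.sum_ite_eq, Finset.mem_univ, if_true, Pi.smul_apply, smul_eq_mul]
  ring

private lemma C3_R2 (s r τ : ℝ) (x y : κ → ℝ) :
    (fun i => lin (C3_V (κ := κ) s r τ) (Sum.elim x y) (Sum.inr i)) = s • (r • x + τ • y) := by
  classical
  funext i
  rw [Law_lin_apply]
  simp only [Fintype.sum_sum_type, C3_V, Sum.elim_inl, Sum.elim_inr,
    mul_zero, mul_ite,
    Finset.sum_ite_eq, Finset.mem_univ, if_true, Pi.add_apply, Pi.smul_apply, smul_eq_mul]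
  ring

end

private theorem C3_two (ρ w : ℝ) (hρ0 : 0 ≤ ρ) (hρ1 : ρ ≤ 1) (hw : 0 < w)
    (g h : (Fin 2 → ℝ) → ℝ) (hg : Bm g) (hh : Bm h) :
    EG ρ w (fun x y => g x * h y) = sg (ρ / (1 + w ^ 2)) (dil w g) (dil w h) := by
  set σ : ℝ := Real.sqrt (1 - ρ ^ 2) with hσd
  set s : ℝ := Real.sqrt (1 + w ^ 2) with hsd
  set r : ℝ := ρ / (1 + w ^ 2) with hrd
  set τ : ℝ := Real.sqrt (1 - r ^ 2) with hτd
  have hw2 : 0 < 1 + w ^ 2 := by positivity
  have hσ : σ * σ = 1 - ρ ^ 2 := Real.mul_self_sqrt (by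
    have := pow_le_one₀ hρ0 hρ1 (n := 2)
    linarith)
  have hs : s * s = 1 + w ^ 2 := Real.mul_self_sqrt hw2.le
  have hr0 : 0 ≤ r := div_nonneg hρ0 hw2.le
  have hr1 : r ≤ 1 := by
    rw [hrd, div_le_one hw2]
    nlinarith [sq_nonneg w]
  have hτ : τ * τ = 1 - r ^ 2 := Real.mul_self_sqrt (by
    have := pow_le_one₀ hr0 hr1 (n := 2)
    linarith)
  have hr : (1 + w ^ 2) * r = ρ := by
    rw [hrd]
    field_simp
  have c1 : 1 + w * w = s * s := by rw [hs]; ring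
  have c2 : ρ = s * (s * r) := by
    rw [← mul_assoc, hs, hr]
  have c3 : ρ * ρ + σ * σ + w * w = s * r * (s * r) + s * τ * (s * τ) := by
    have e1 : s * r * (s * r) + s * τ * (s * τ) = s * s * (r * r) + s * s * (τ * τ) := by ring
    rw [e1, hτ, hσ, hs]
    ring
  set Ψ : (Fin 2 ⊕ Fin 2 → ℝ) → ℝ :=
    fun E => g (fun i => E (Sum.inl i)) * h (fun i => E (Sum.inr i)) with hΨ
  have hΨm : Measurable Ψ := (hg.meas.comp (by fun_prop)).mul (hh.meas.comp (by fun_prop))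
  have hΨb : ∃ B, ∀ E, |Ψ E| ≤ B := by
    obtain ⟨A, hA⟩ := hg.bdd
    obtain ⟨B, hB⟩ := hh.bdd
    refine ⟨A * B, fun E => ?_⟩
    rw [hΨ, abs_mul]
    exact mul_le_mul (hA _) (hB _) (abs_nonneg _) (le_trans (abs_nonneg _) (hA (fun _ => 0)))
  have hmap := map_lin_eq (C3_W (κ := Fin 2) ρ σ w) (C3_V (κ := Fin 2) s r τ)
    (C3_cov ρ σ w s r τ c1 c2 c3)
  have hLW : Measurable (lin (C3_W (κ := Fin 2) ρ σ w)) := (Exl_continuous_lin _).measurable
  have hLV : Measurable (lin (C3_V (κ := Fin 2) s r τ)) := (Exl_continuous_lin _).measurable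
  have hmid : ∫ G, Ψ (lin (C3_W (κ := Fin 2) ρ σ w) G) ∂(gam ((Fin 2 ⊕ Fin 2) ⊕ (Fin 2 ⊕ Fin 2))) =
      ∫ G, Ψ (lin (C3_V (κ := Fin 2) s r τ) G) ∂(gam (Fin 2 ⊕ Fin 2)) := by
    rw [← integral_map hLW.aemeasurable hΨm.aestronglyMeasurable, hmap,
      integral_map hLV.aemeasurable hΨm.aestronglyMeasurable]
  -- the right side
  have hR : sg r (dil w g) (dil w h) =
      ∫ G, Ψ (lin (C3_V (κ := Fin 2) s r τ) G) ∂(gam (Fin 2 ⊕ Fin 2)) := by
    rw [← Law_integral_comp (Law_sum_symm (Fin 2) (Fin 2))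
      (F := fun G => Ψ (lin (C3_V (κ := Fin 2) s r τ) G)) (hΨm.comp hLV)]
    unfold sg
    refine integral_congr_ae (Filter.Eventually.of_forall fun p => ?_)
    show g (s • p.1) * h (s • (r • p.1 + τ • p.2)) =
      g (fun i => lin (C3_V (κ := Fin 2) s r τ) (Sum.elim p.1 p.2) (Sum.inl i)) *
        h (fun i => lin (C3_V (κ := Fin 2) s r τ) (Sum.elim p.1 p.2) (Sum.inr i))
    rw [C3_R1, C3_R2]
  -- the left side
  have hT := (Law_sum_symm (Fin 2 ⊕ Fin 2) (Fin 2 ⊕ Fin 2)).comp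
    ((Law_sum_symm (Fin 2) (Fin 2)).prod (Law_sum_symm (Fin 2) (Fin 2)))
  have hPm := (hΨm.comp hLW).comp hT.measurable
  have hI := Law_integral_comp hT (F := fun G => Ψ (lin (C3_W (κ := Fin 2) ρ σ w) G))
    (hΨm.comp hLW)
  have hint : Integrable (fun q : ((Fin 2 → ℝ) × (Fin 2 → ℝ)) × ((Fin 2 → ℝ) × (Fin 2 → ℝ)) =>
      Ψ (lin (C3_W (κ := Fin 2) ρ σ w) (Sum.elim (Sum.elim q.1.1 q.1.2) (Sum.elim q.2.1 q.2.2))))
      (((gam (Fin 2)).prod (gam (Fin 2))).prod ((gam (Fin 2)).prod (gam (Fin 2)))) :=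
    oub_int hPm (oub_comp hΨb _)
  rw [hR, ← hmid, ← hI]
  refine Eq.trans ?_ (integral_prod _ hint).symm
  unfold EG
  refine integral_congr_ae (Filter.Eventually.of_forall fun p => ?_)
  refine integral_congr_ae (Filter.Eventually.of_forall fun z => ?_)
  show g (p.1 + w • z.1) * h (ρ • p.1 + σ • p.2 + w • z.2) =
    g (fun i => lin (C3_W (κ := Fin 2) ρ σ w)
      (Sum.elim (Sum.elim p.1 p.2) (Sum.elim z.1 z.2)) (Sum.inl i)) *
      h (fun i => lin (C3_W (κ := Fin 2) ρ σ w)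
      (Sum.elim (Sum.elim p.1 p.2) (Sum.elim z.1 z.2)) (Sum.inr i))
  rw [C3_L1, C3_L2]

private theorem C3_dil (w : ℝ) {g : (Fin 2 → ℝ) → ℝ} (hg : Bm g) : Bm (dil w g) :=
  ⟨hg.meas.comp (by fun_prop), by
    obtain ⟨B, hB⟩ := hg.bdd
    exact ⟨B, fun x => hB _⟩⟩

theorem pC3 : StC3 := by
  intro ρ w h0 h1 hw
  refine ⟨fun g hg => ?_, fun g h hg hh => C3_two ρ w h0 h1 hw g h hg hh⟩
  have hone : Bm (fun _ : Fin 2 → ℝ => (1 : ℝ)) := ⟨measurable_const, 1, fun _ => by simp⟩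
  have e1 : EG ρ w (fun x _ => g x) = EG ρ w (fun x y => g x * (fun _ => (1 : ℝ)) y) := by
    simp
  rw [e1, C3_two ρ w h0 h1 hw g _ hg hone, sg_eq_OU (C3_dil w hg) (C3_dil w hone)]
  refine integral_congr_ae (Filter.Eventually.of_forall fun x => ?_)
  simp [OU, dil]

end Pool.H87.NA
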