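import Pool.Agent.Helper87.NA.Defs
import Pool.Agent.TC.St
import Pool.Agent.Helper65.PT.Plm

/-! Project NA (MP_c6cf29_pr): statements of all modules, with proofs in words. Module `X` proves the Prop `StX`
(hypotheses: only the `St..` named in the docstring).

THEOREM. For `m = 3`, every `ρ ∈ [0,1]` and `ε > 0` there is `n0` such that for all `n ≥ n0` and every ANONYMOUS
`f : [3]^n → Δ_3` (no assumption on influences or balance)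
`S_ρ f ≤ S_ρ PLUR + ∑_j ((1-ρ²) (E f_j - 1/3)² + ρ² E (E[f_j | ∑ N_a²] - 1/3)²) + ε`;
in particular `S_ρ f ≤ S_ρ PLUR + ε` if `f` is cyclically neutral.

API: `Pool/Agent/Helper65/PT` (`Law`, `Oub`, `Cam`, `Clt`, `Plm`, `Pmo`), `Pool/Agent/Helper65/PS` (`Dsc`, `Exl`), `Pool/Agent/TC`.
`Tn ρ f ω = ∑ δ, K(ω,δ) f δ` (`PT.Defs`), `stab ρ f = av (f * Tn ρ f)`, everything with `m = 3`. -/

set_option autoImplicit false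

open MeasureTheory ProbabilityTheory Pool.H65.PS Pool.H65.PT Pool.TC

namespace Pool.H87.NA

/-! ## A: the posterior mean -/

/-- A0. `gg` is a weighted average with positive weights `lk` (`Fin n → Fin 3` is nonempty). Continuity: quotient of finite sums
of continuous functions, denominator positive. Last: `gg` is additive in `f` and maps constants to themselves. -/
def StA0 : Prop := ∀ (n : ℕ) (w : ℝ), 0 < w →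
  (∀ (f : (Fin n → Fin 3) → ℝ) (x : Fin 2 → ℝ) (a b : ℝ), (∀ ω, a ≤ f ω) → (∀ ω, f ω ≤ b) →
    a ≤ gg w f x ∧ gg w f x ≤ b) ∧
  (∀ f : (Fin n → Fin 3) → ℝ, Continuous (gg w f)) ∧
  ∀ (f : (Fin n → Fin 3) → Fin 3 → ℝ) (x : Fin 2 → ℝ), (∀ ω, ∑ j, f ω j = 1) → ∑ j, gg w (fun ω => f ω j) x = 1

/-- A1 (posterior property). Cameron-Martin (`cameron_martin` with `v = w⁻¹ • XX ω`, `F z = u (w • z)`):
`∫ u(XX ω + w z) dγ = ∫ u(w z) lk w (XX ω) (w z) dγ`. Hence both sides are `∫ u(w z) 3^{-n} ∑_ω f ω lk w (XX ω) (w z) dγ(z)`,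
because `gg w f x * ∑ lk = ∑ f lk`. (integrability: `u`, `gg` bounded (A0), `lk w a (w z) = exp(dot a z / w - ..)`, see `Cam`.) -/
def StA1 : Prop := ∀ (n : ℕ) (w : ℝ) (f : (Fin n → Fin 3) → ℝ) (u : (Fin 2 → ℝ) → ℝ), 0 < w → Bm u →
  av (fun ω : Fin n → Fin 3 => f ω * ∫ z, u (XX ω + w • z) ∂(gam (Fin 2)))
    = av (fun ω : Fin n → Fin 3 => ∫ z, gg w f (XX ω + w • z) * u (XX ω + w • z) ∂(gam (Fin 2)))

/-- A2a (uses A0, A1). `RR` is self adjoint: by A1 with `u = gg w f` resp. `u = gg w h`, both sides are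
`av ∫ gg w f (X') gg w h (X')`. It preserves `[0,1]` (A0) and anonymity (`XX (ω ∘ π) = XX ω`). The last statement: product integrals
(`integral_prod_mul`), unfold `Tn`, `av`, `EP`, `KK`. -/
def StA2a : Prop := ∀ (n : ℕ) (w : ℝ), 0 < w →
  (∀ f h : (Fin n → Fin 3) → ℝ, av (fun ω => RR w f ω * h ω) = av (fun ω => f ω * RR w h ω)) ∧
  (∀ f : (Fin n → Fin 3) → ℝ, (∀ ω, 0 ≤ f ω ∧ f ω ≤ 1) → ∀ ω, 0 ≤ RR w f ω ∧ RR w f ω ≤ 1) ∧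
  (∀ f : (Fin n → Fin 3) → ℝ, Anon f → Anon (RR w f)) ∧
  ∀ (f : (Fin n → Fin 3) → ℝ) (ρ : ℝ), av (fun ω => RR w f ω * Tn ρ (RR w f) ω)
    = EP n ρ w (fun x y => gg w f x * gg w f y)

/-- A2b (uses A0, A1). For `x = XX ω + w z`: `|gg w h x - h ω| ≤ L (‖XX ω - x‖ + pd x)`,
`pd x = (∑_ω' ‖XX ω' - x‖ lk w (XX ω') x) / ∑ lk` (triangle inequality), `‖XX ω - x‖ = w ‖z‖`. As in A1 (Cameron-Martin)
`av_ω ∫ pd (XX ω + w z) dγ = ∫ 3^{-n} ∑_ω' ‖XX ω' - w z‖ lk w (XX ω') (w z) dγ = av_ω' ∫ ‖w z‖ dγ`.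
So the left side is at most `2 L w ∫ ‖z‖ dγ ≤ 4 L w` (`‖z‖ ≤ |z 0| + |z 1|`, `∫ |z i| ≤ 1`). -/
def StA2b : Prop := ∀ (n : ℕ) (w L : ℝ) (h : (Fin n → Fin 3) → ℝ), 0 < w → 0 ≤ L → LipX L h →
  av (fun ω => |RR w h ω - h ω|) ≤ 4 * L * w

/-- A3 (uses A2a, A2b). `T = Tn ρ` is self adjoint for `av`, `stab ρ f = av (f T f)`. With `R = RR w`:
`av (f T f) - av (Rf T Rf) = av (f (T f - R T f)) + av (f (T R f - R T R f))` because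
`av (f R T f) = av (Rf T f) = av (f T R f)` and `av (Rf T R f) = av (f R T R f)`. Each term is at most `4 L w`. -/
def StA3 : Prop := ∀ (n : ℕ) (ρ w L : ℝ) (f : (Fin n → Fin 3) → ℝ), 0 < w → 0 ≤ L → (∀ ω, 0 ≤ f ω ∧ f ω ≤ 1) →
  LipX L (Tn ρ f) → LipX L (Tn ρ (RR w f)) →
  |stab ρ f - EP n ρ w (fun x y => gg w f x * gg w f y)| ≤ 8 * L * w

/-! ## B: the noise operator makes anonymous functions Lipschitz -/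

/-- B1. `E = Ex q`. Put `ξ_k δ = 1{δ k = a}/p a - 1{δ k = b}/p b`. Since `q i = p`, `p a * E[g (update δ i a)] = E[g δ 1{δ i = a}]`, so
the left side is `|E[f ξ_i]|`. For `k ∈ I` the transposition `(i k)` preserves `E` (`q i = q k`) and `f`, so `E[f ξ_k] = E[f ξ_i]`.
So it is `|I|⁻¹ |E[f ∑_{k∈I} ξ_k]| ≤ |I|⁻¹ (E (∑ ξ_k)²)^{1/2}` and `E ξ_k ξ_l = 0` for `k ≠ l`, `E ξ_k² = 1/p a + 1/p b ≤ 2/η`
(`a ≠ b`; trivial for `a = b`). -/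
def StB1 : Prop := ∀ (n : ℕ) (q : Fin n → Fin 3 → ℝ) (p : Fin 3 → ℝ) (I : Finset (Fin n)) (i : Fin n) (η : ℝ)
  (f : (Fin n → Fin 3) → ℝ) (a b : Fin 3), (∀ k c, 0 ≤ q k c) → (∀ k, ∑ c, q k c = 1) → 0 < η → (∀ c, η ≤ p c) →
  (∀ k ∈ I, q k = p) → i ∈ I → Anon f → (∀ ω, 0 ≤ f ω ∧ f ω ≤ 1) →
  |Ex q (fun δ => f (Function.update δ i a)) - Ex q (fun δ => f (Function.update δ i b))|
    ≤ Real.sqrt (2 / (η * (I.card : ℝ)))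

/-- B2 (uses B1). Write `K(c,d) = (if d = c then ρ else 0) + (1-ρ)/3` (`Clt_K_eq`). For the weights `q k = K(ω k, ·)` (`k ≠ i`) the
difference is `ρ (Ex q (f (update δ i a)) - Ex q (f (update δ i b)))` (split off the coordinate `i` in `Tn`), independent of `q i`.
Some `c` has `≥ (n-1)/3` indices `k ≠ i` with `ω k = c`; choose `q i = K(c,·)`, `I = {k ≠ i | ω k = c} ∪ {i}`, `|I| ≥ n/3`,
`η = (1-ρ)/3`. -/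
def StB2 : Prop := ∀ (n : ℕ) (ρ : ℝ) (f : (Fin n → Fin 3) → ℝ), 1 ≤ n → 0 ≤ ρ → ρ < 1 → Anon f →
  (∀ ω, 0 ≤ f ω ∧ f ω ≤ 1) → ∀ (ω : Fin n → Fin 3) (i : Fin n) (a b : Fin 3),
  |Tn ρ f (Function.update ω i a) - Tn ρ f (Function.update ω i b)| ≤ Real.sqrt (18 / ((1 - ρ) * n))

/-- B3. First: induction on `d = ∑_a |N_a(ω) - N_a(ω')|`: if `d = 0` then `ω'` is a permutation of `ω`; otherwise some `a` has
`N_a(ω) > N_a(ω')`, some `b` has `N_b(ω) < N_b(ω')`; change one vote of `ω` from `a` to `b`: `d` drops by `2`, `h` changes by `≤ Δ`.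
Second: `3 N_a = n + √n ⟨XX ω, v_a⟩` (because `v_a · v_b = 3 [a=b] - 1`), `|⟨x, v_a⟩| ≤ 3 ‖x‖` (sup norm). -/
def StB3 : Prop := (∀ (n : ℕ) (Δ : ℝ) (h : (Fin n → Fin 3) → ℝ), 0 ≤ Δ → Anon h →
    (∀ (ω : Fin n → Fin 3) (i : Fin n) (a b : Fin 3), |h (Function.update ω i a) - h (Function.update ω i b)| ≤ Δ) →
    ∀ ω ω', |h ω - h ω'| ≤ Δ * ∑ a, |(cnt ω a : ℝ) - (cnt ω' a : ℝ)|) ∧
  ∀ (n : ℕ) (ω ω' : Fin n → Fin 3) (a : Fin 3), |(cnt ω a : ℝ) - (cnt ω' a : ℝ)| ≤ Real.sqrt n * ‖XX ω - XX ω'‖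

/-- B4 (uses B2, B3). `Tn ρ f` is anonymous (reindex `δ`), so `|Tn ρ f ω - Tn ρ f ω'| ≤ √(18/((1-ρ)n)) · 3 √n ‖..‖` and
`3 √18 ≤ 13`. (`n = 0`: both sides are `0`.) -/
def StB4 : Prop := ∀ (n : ℕ) (ρ : ℝ) (f : (Fin n → Fin 3) → ℝ), 0 ≤ ρ → ρ < 1 → Anon f →
  (∀ ω, 0 ≤ f ω ∧ f ω ≤ 1) → LipX (13 / Real.sqrt (1 - ρ)) (Tn ρ f)

/-! ## C: the limit in total variation -/

/-- C1. `hw` in the proof of `Clt_weak` gives weak convergence of `Clt_P 3 ρ n` to `Clt_L 3 ρ`; compose the bounded continuous `ψ` with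
the continuous map `x ↦ (∑_a x (inl a) v_a, ∑_a x (inr a) v_a)` (`ProbabilityMeasure.tendsto_iff_forall_integral_tendsto`). As
`∑_a v_a = 0`, `∑_a (√n)⁻¹ (N_a - n/3) v_a = XX ω` (`Clt_cnt`) and in the limit `∑_a (√3)⁻¹ (g_a - mean) v_a = B g`, `B g = ∑_a g_a v_a/√3`,
is linear with orthonormal rows: `B_* gam (Fin 3) = gam (Fin 2)` (`Law_mp`), also for pairs (`MeasurePreserving.prod`). -/
def StC1 : Prop := ∀ ρ : ℝ, 0 ≤ ρ → ρ ≤ 1 → ∀ ψ : (Fin 2 → ℝ) × (Fin 2 → ℝ) → ℝ, Continuous ψ → (∃ B, ∀ x, |ψ x| ≤ B) →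
  Filter.Tendsto (fun n : ℕ => (((3 : ℕ) : ℝ) ^ n)⁻¹ * ∑ ω : Fin n → Fin 3, ∑ δ : Fin n → Fin 3, KK ρ ω δ * ψ (XX ω, XX δ))
    Filter.atTop (nhds (∫ p : (Fin 2 → ℝ) × (Fin 2 → ℝ), ψ (p.1, ρ • p.1 + Real.sqrt (1 - ρ ^ 2) • p.2)
      ∂((gam (Fin 2)).prod (gam (Fin 2)))))

/-- C2s (Scheffé). `|d_n - d| = d_n - d + 2 (d - d_n)_+`, so `∫ |d_n - d| = 2 ∫ (d - d_n)_+`, and `(d-d_n)_+ ≤ d` tends to `0` pointwise: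
dominated convergence. -/
def StC2s : Prop := ∀ (α : Type) [MeasurableSpace α] (μ : Measure α) [IsProbabilityMeasure μ] (D : ℕ → α → ℝ) (d : α → ℝ),
  (∀ k, Measurable (D k)) → Measurable d → (∀ k x, 0 ≤ D k x) → (∀ x, 0 ≤ d x) → (∀ k, Integrable (D k) μ) → Integrable d μ →
  (∀ k, ∫ x, D k x ∂μ = 1) → ∫ x, d x ∂μ = 1 → (∀ x, Filter.Tendsto (fun k => D k x) Filter.atTop (nhds (d x))) →
  Filter.Tendsto (fun k => ∫ x, |D k x - d x| ∂μ) Filter.atTop (nhds 0)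

/-- C2 (uses C1, C2s). Cameron-Martin in both variables: the inner integrals are `∫ F(w z₁, w z₂) lk w a (w z₁) lk w b (w z₂)`. So
`EP n ρ w F = ∫ F(w z₁, w z₂) D_n(z)`, `D_n(z) = 3^{-n} ∑ KK lk w (XX ω) (w z₁) lk w (XX δ) (w z₂)`, `∫ D_n = 1` (take `F = 1`;
`∑_δ KK = 1`: `plm_K_sum`), and `EG ρ w F = ∫ F D` with the limit density `D` (Fubini, everything nonnegative, total mass 1). For fixed `z`
`(a,b) ↦ lk w a (w z₁) lk w b (w z₂)` is continuous and bounded by `exp((dot z₁ z₁ + dot z₂ z₂)/2)`, so `D_n → D` pointwise (C1). C2s. -/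
def StC2 : Prop := ∀ ρ w ε : ℝ, 0 ≤ ρ → ρ ≤ 1 → 0 < w → 0 < ε → ∃ n0 : ℕ, ∀ n, n0 ≤ n →
  ∀ F : (Fin 2 → ℝ) → (Fin 2 → ℝ) → ℝ, Measurable (Function.uncurry F) → (∀ x y, |F x y| ≤ 1) →
  |EP n ρ w F - EG ρ w F| ≤ ε

/-- C3. The vector `(p.1 + w z.1, ρ p.1 + σ p.2 + w z.2)` and `√(1+w²) (x, ρ'' x + σ'' y)`, `ρ'' = ρ/(1+w²)`, are linear images of standard
Gaussian vectors with the same covariance `(1+w²) 1`, cross covariance `ρ 1`: `map_lin_eq` (see `TC/M_D7a.lean`, `Law_sum`). The first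
statement is the case `h = 1` (or the first coordinates only). -/
def StC3 : Prop := ∀ (ρ w : ℝ), 0 ≤ ρ → ρ ≤ 1 → 0 < w →
  (∀ g : (Fin 2 → ℝ) → ℝ, Bm g → EG ρ w (fun x _ => g x) = ∫ x, dil w g x ∂(gam (Fin 2))) ∧
  ∀ g h : (Fin 2 → ℝ) → ℝ, Bm g → Bm h → EG ρ w (fun x y => g x * h y) = sg (ρ / (1 + w ^ 2)) (dil w g) (dil w h)

/-! ## P: the plane -/

/-- P1 (uses TC P0a, P0c, P0d, P8c1). `h x = e (√(dot x x)) - ∫ e drm`: as in `TC/M_P8c.lean` `sg ρ h h = Sr ρ (e - ∫ e)`, `∫ h = 0`,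
`mo h i = 0`; P8c1 with `ρ₁ = 1`: `sg ρ h h ≤ ρ² sg 1 h h = ρ² ∫ h²` (`sg_one`). And `Sr ρ (e - c) = Sr ρ e - c²`-type expansion:
`Sr ρ e = Sr ρ (e - c) + 2c ∫ (e - c) + c²` with `∫ kap I0 drm(t) = 1` (P0d), `c = ∫ e drm`. -/
def StP1 : Prop := TC.StP0a → TC.StP0c → TC.StP0d → TC.StP8c1 → ∀ (e : ℝ → ℝ) (ρ : ℝ), Measurable e → (∃ B, ∀ s, |e s| ≤ B) →
  0 ≤ ρ → ρ < 1 → Sr ρ e ≤ ρ ^ 2 * ∫ s, e s ^ 2 ∂rm + (1 - ρ ^ 2) * (∫ s, e s ∂rm) ^ 2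

/-- P2 (uses P1, TC P0a, P6, P7). `Wr ρ s ≥ 0` for `s > 0` (P6: `I0 - Lb ≥ 0`, `kap ≥ 0`; `rm` is carried by `s > 0`, `bb ≥ 0` there), so P7 gives
`St ρ g ≤ Ss ρ + ∑ Sr ρ (al g j - 1/3)`; P1. -/
def StP2 : Prop := StP1 → TC.StP0a → TC.StP0c → TC.StP0d → TC.StP8c1 → TC.StP6 → TC.StP7 → ∀ (ρ : ℝ) (g : (Fin 2 → ℝ) → Fin 3 → ℝ),
  0 ≤ ρ → ρ < 1 → Pt g →
  St ρ g ≤ Ss ρ + ∑ j, (ρ ^ 2 * ∫ s, (al g j s - 1 / 3) ^ 2 ∂rm + (1 - ρ ^ 2) * (∫ s, (al g j s - 1 / 3) ∂rm) ^ 2)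

/-! ## Q: the radial part -/

/-- Q1 (uses TC P0a). Polar coordinates: for `x = pt2 s θ`, `s > 0`: `√(dot x x) = s`, so `rad g x = ∫ θ, g (pt2 s θ) ∂cm`. All integrals over
`gam (Fin 2)` are integrals over `rm.prod cm` (P0a). Measurability of `rad g`: parameter integral. -/
def StQ1 : Prop := TC.StP0a → ∀ g : (Fin 2 → ℝ) → ℝ, Bm g → Bm (rad g) ∧
  (∫ x, rad g x ∂(gam (Fin 2)) = ∫ x, g x ∂(gam (Fin 2))) ∧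
  (∫ s, ((∫ θ, g (pt2 s θ) ∂cm) - 1 / 3) ^ 2 ∂rm = ∫ x, (rad g x - 1 / 3) * (g x - 1 / 3) ∂(gam (Fin 2))) ∧
  (∫ s, ((∫ θ, g (pt2 s θ) ∂cm) - 1 / 3) ^ 2 ∂rm = ∫ x, (rad g x - 1 / 3) ^ 2 ∂(gam (Fin 2))) ∧
  (∫ s, ((∫ θ, g (pt2 s θ) ∂cm) - 1 / 3) ∂rm = ∫ x, g x ∂(gam (Fin 2)) - 1 / 3)

/-- Q2. If `dot a a = dot b b` there is a rotation `O` of the plane with `O a = b` (for `a ≠ 0`:
`O = r⁻² [[a·b, -(a×b)],[a×b, a·b]]`, `r² = dot a a`; `a = 0`: `b = 0`), `O` preserves `gam (Fin 2)` (`Law_mp`) and `u (O x) = u x` because `u`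
depends only on `dot x x`; substitute `z ↦ O z`. For votes: `dot (XX ω) (XX ω) = (3 qq ω - n²)/n` (`v_a · v_b = 3 [a=b] - 1`, `Clt_cnt`). -/
def StQ2 : Prop := (∀ (u : (Fin 2 → ℝ) → ℝ) (w : ℝ) (a b : Fin 2 → ℝ), Bm u → (∀ x y, dot x x = dot y y → u x = u y) →
    dot a a = dot b b → ∫ z, u (a + w • z) ∂(gam (Fin 2)) = ∫ z, u (b + w • z) ∂(gam (Fin 2))) ∧
  ∀ (n : ℕ) (ω ω' : Fin n → Fin 3), qq ω = qq ω' → dot (XX ω) (XX ω) = dot (XX ω') (XX ω')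

/-- Q3. `AA f` is the average of `f` over the level set of `qq`: if `b ω` depends only on `qq ω` then `av (f b) = av (AA f b)` (group the sum by
the value of `qq`). Third: Jensen/Cauchy-Schwarz on each level set is not needed, only `f ∈ [0,1]`. -/
def StQ3 : Prop := ∀ (n : ℕ) (f b : (Fin n → Fin 3) → ℝ), (∀ ω ω', qq ω = qq ω' → b ω = b ω') →
  av (fun ω => f ω * b ω) = av (fun ω => AA f ω * b ω)

/-- Q4 (uses A0, A1, C2, C3, Q1, Q2, Q3). Let `g = gg w f`, `g' = dil w g`, `e = rad g' - 1/3`, `u y = e (c⁻¹ y)`, `c = √(1+w²)`,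
`D = ∫ (al - 1/3)² drm` (`al s = ∫ g' (pt2 s θ) dcm`), `V = av ((AA f - 1/3)²)`. With `F x y = u x (g x - 1/3)`:
`D = ∫ e (g' - 1/3) dγ` (Q1) `= EG F` (C3) `≤ EP F + ε'` (C2) `= av ((f - 1/3) b) + ε'`, `b ω = ∫ u (XX ω + w z) dγ` (A1 with `u`, for `f` and
for the constant `1/3`; `EP` of a function of `x` only is `av ∫`, as `∑_δ KK = 1`). `b` depends only on `qq ω` (Q2), so (Q3)
`av ((f-1/3) b) = av ((AA f - 1/3) b) ≤ (V + av (b²))/2`, `av (b²) ≤ av ∫ u(XX ω + w z)² ≤ EG (u²) + ε' = D + ε'`. So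
`D ≤ V/2 + D/2 + 3ε'/2`, `D ≤ V + 3 ε'`. Mean: `∫ (al - 1/3) = ∫ (g' - 1/3) dγ = EG(g - 1/3)`, within `ε'` of `EP (g - 1/3) = av f - 1/3`. -/
def StQ4 : Prop := StA0 → StA1 → StC2 → StC3 → StQ1 → StQ2 → StQ3 → TC.StP0a → ∀ ρ w ε : ℝ, 0 ≤ ρ → ρ ≤ 1 → 0 < w → 0 < ε →
  ∃ n0 : ℕ, ∀ n, n0 ≤ n → ∀ f : (Fin n → Fin 3) → ℝ, (∀ ω, 0 ≤ f ω ∧ f ω ≤ 1) →
    ∫ s, ((∫ θ, dil w (gg w f) (pt2 s θ) ∂cm) - 1 / 3) ^ 2 ∂rm ≤ av (fun ω => (AA f ω - 1 / 3) ^ 2) + ε ∧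
    |∫ s, ((∫ θ, dil w (gg w f) (pt2 s θ) ∂cm) - 1 / 3) ∂rm - (av f - 1 / 3)| ≤ ε

/-- N (neutral rules). The bijection `ω ↦ ω + 1` preserves `qq` (it permutes the counts) and `∑_{qq δ = q} f δ j` is the same for all `j`;
their sum is the number of `δ` with `qq δ = q`. The same for `av`. -/
def StN : Prop := ∀ (n : ℕ) (f : (Fin n → Fin 3) → Fin 3 → ℝ), (∀ ω, ∑ j, f ω j = 1) →
  (∀ ω j, f (fun i => ω i + 1) (j + 1) = f ω j) → ∀ j, (∀ ω, AA (fun ω => f ω j) ω = 1 / 3) ∧ av (fun ω => f ω j) = 1 / 3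

/-- F (assembly). The two displayed hypotheses are the conclusions of P2 and Q4. `ρ < 1`: choose `w` with `24 · 13/√(1-ρ) · w ≤ ε/8`, then `n0` from C2, Q4 (small `ε'`) and `plur_limit`.
`∑ stab f_j ≤ ∑ EP (g_j g_j) + 24 L w` (A3, B4 for `f_j` and `RR w f_j`; A2a), `≤ ∑ EG (g_j(x) g_j(y)) + 3 ε'` (C2 for each `j`)
`= St ρ'' g' + 3 ε'` (C3, `g'_j = dil w g_j`, `Pt g'` by A0) `≤ Ss ρ'' + ∑ (ρ''² D_j + (1-ρ''²) m_j²)` (P2; `ρ'' = ρ/(1+w²) ≤ ρ`, `m_j² ≤ D_j`)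
`≤ Ss ρ'' + ∑ (ρ² D_j + (1-ρ²) m_j²)`, `D_j ≤ V_j + ε'`, `m_j² ≤ (av f_j - 1/3)² + 2 ε'` (Q4, `|av f_j - 1/3| ≤ 1`..), and
`Ss ρ'' = Lam 3 ρ'' ≤ Lam 3 ρ` (TC P9, `sg_mono`, `cellF_measurable`) `≤ ∑ stab plur_j + ε'` (`plur_limit`). `ρ = 1`: `∑ stab 1 f_j = av ∑ f_j² ≤ 1` and
`Lam 3 1 = ∑ ∫ cellF_j² = 1` (`sg_one`, `cellF_sum_ae`; `cellF² = cellF`). -/
def StF : Prop := StA0 → StA2a → StA3 → StB4 → StC2 → StC3 →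
  (∀ (ρ : ℝ) (g : (Fin 2 → ℝ) → Fin 3 → ℝ), 0 ≤ ρ → ρ < 1 → Pt g →
    St ρ g ≤ Ss ρ + ∑ j, (ρ ^ 2 * ∫ s, (al g j s - 1 / 3) ^ 2 ∂rm + (1 - ρ ^ 2) * (∫ s, (al g j s - 1 / 3) ∂rm) ^ 2)) →
  (∀ ρ w ε : ℝ, 0 ≤ ρ → ρ ≤ 1 → 0 < w → 0 < ε →
    ∃ n0 : ℕ, ∀ n, n0 ≤ n → ∀ f : (Fin n → Fin 3) → ℝ, (∀ ω, 0 ≤ f ω ∧ f ω ≤ 1) →
      ∫ s, ((∫ θ, dil w (gg w f) (pt2 s θ) ∂cm) - 1 / 3) ^ 2 ∂rm ≤ av (fun ω => (AA f ω - 1 / 3) ^ 2) + ε ∧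
      |∫ s, ((∫ θ, dil w (gg w f) (pt2 s θ) ∂cm) - 1 / 3) ∂rm - (av f - 1 / 3)| ≤ ε) →
  TC.StP9 → TC.StP0a →
  ∀ ρ ε : ℝ, 0 ≤ ρ → ρ ≤ 1 → 0 < ε → ∃ n0 : ℕ, ∀ n, n0 ≤ n → ∀ f : (Fin n → Fin 3) → Fin 3 → ℝ,
    (∀ ω, f ω ∈ stdSimplex ℝ (Fin 3)) → (∀ j, Anon (fun ω => f ω j)) →
    ∑ j, stab ρ (fun ω => f ω j) ≤ ∑ j : Fin 3, stab ρ (fun ω : Fin n → Fin 3 => plur ω j)
      + ∑ j, ((1 - ρ ^ 2) * (av (fun ω => f ω j) - 1 / 3) ^ 2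
        + ρ ^ 2 * av (fun ω => (AA (fun ω => f ω j) ω - 1 / 3) ^ 2)) + ε

end Pool.H87.NA
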